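import Pool.Agent.Lib.MP_72e2e6_nt.W2.C.Spec

/-!
# MP_72e2e6_nt, theorem T3, part G: the axioms of part A for `F(t)`

The proofs are complete in the docstrings; every module is independent (used statements are
hypotheses): file `W2/G/<Name>.lean` (import this file only) with `theorem t<Name> : S_<Name>` or
`theorem t<Name> (h1 : S_X) (h2 : S_Y) .. : S_<Name>` (in the order of the docstring), namespace
`Pool.Agent.MP72W`, other declarations `private`. `F` is a finite field of characteristic two,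
`K = F(t)`, `K^s = Kgs F`, `Ω = Om (AS PP) K K^s`, `GS PP = Gal(Ω/K)`, `℘(x) = x ^ 2 + x`. The Frobenius
and trace are not used here. `x` also denotes the images of `x ∈ K` in the completions.
-/

namespace Pool.Agent.MP72W

open Polynomial IntermediateField

/-- **Asr** (150 lines). The ring `AS PP` of the functions regular outside `PP` and infinity.

Proof. `AS PP` is the localization of `F[X]` at the powers of `N = ∏ PP` inside `K`
(`IsLocalization.Away`), so its fraction field is `K` (it contains `F[X]`) and it is integrally closed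
(localization of an integrally closed domain, `IsIntegrallyClosed.of_localization..` /
`isIntegrallyClosed_of_isLocalization`, or directly: if `f ∈ K` is integral over `AS PP` then `N ^ n f` is
integral over `F[X]` for some `n`, so in `F[X]`). (3) if `f N ^ n = p` then the denominator of `f` divides
`N ^ n`, and an irreducible divisor of `N ^ n` is in `PP` (monic). Conversely if all the monic irreducible
divisors of `f.denom` are in `PP` then `f.denom` divides a power of `N`. (4) `v N = 1` for a place `some P`,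
`P ∉ PP`, and `v p ≤ 1` for polynomials. (5) clear from the definitions (`N ^ n * (a / P ^ n)` is a
polynomial). -/
def S_Asr : Prop :=
  ∀ (F : Type) [Field F] [Finite F] [CharP F 2] (κ : F) (PP : Finset F[X]),
    (∀ P ∈ PP, P.Monic ∧ Irreducible P) →
    IsFractionRing (AS PP) (RatFunc F) ∧ IsIntegrallyClosed (AS PP) ∧
    (∀ f : RatFunc F, f ∈ AS PP ↔ ∀ P : F[X], P.Monic → Irreducible P → P ∉ PP → ¬ P ∣ f.denom) ∧
    (∀ f ∈ AS PP, ∀ (P : F[X]) (v : AbsoluteValue (RatFunc F) ℝ), P ∉ PP → IsPl (some P) v →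
      v f ≤ 1) ∧
    (∀ p : F[X], algebraMap F[X] (RatFunc F) p ∈ AS PP) ∧ (∀ c : F, RatFunc.C c ∈ AS PP) ∧
    ∀ (w : Option PP) (e : ℕ), ∀ D ∈ Dw κ w e, D ∈ AS PP

/-- **Pfs** (200 lines, uses `S_Fin2`, `S_PfP`, `S_PfI`, `S_Asr`). Partial fractions modulo `℘`.

Proof. Let `f = p / N ^ n` with `N = ∏ PP`; the `P ^ n`, `P ∈ PP`, are pairwise coprime, so
`f = p₀ + ∑_P g_P / P ^ n` with `deg g_P < n deg P` (`Polynomial.div_eq_quo_add_sum_rem_div` or
`div_prod_eq_quo_add_sum_rem_div`). Apply `S_PfP` to the `g_P / P ^ n` and `S_PfI` to `p₀`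
(`p₀ = D + c + ℘(s)`), and `S_Fin2` to the constant `c = ℘(z)` or `℘(z) + κ`. The sum of the `s`'s is
in `AS PP` (`S_Asr`) and `℘` is additive. -/
def S_Pfs : Prop :=
  ∀ (F : Type) [Field F] [Finite F] [CharP F 2] (κ : F), eps κ = 1 → ∀ (PP : Finset F[X]),
    (∀ P ∈ PP, P.Monic ∧ Irreducible P) → ∀ f ∈ AS PP,
    ∃ (e : Option PP → ℕ) (D : Option PP → RatFunc F), (∀ w, D w ∈ Dw κ w (e w)) ∧
      ∃ (c : ZMod 2) (y : RatFunc F), y ∈ AS PP ∧
        f = ∑ w, D w + (if c = 0 then 0 else RatFunc.C κ) + (y ^ 2 + y)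

/-- **Hlo** (80 lines, uses `S_Has`, `S_Twb`, `S_Omi`, `S_Res`, `S_Asr`). The homomorphisms of the
family `famC` and their restrictions to the local Galois groups.

Proof. `Ω / K` is Galois (`S_Twb` (5)), the roots of `θ ^ 2 + θ = x`, `x ∈ AS PP`, are in `Ω`
(`S_Omi` (3)); (1), (2) are `S_Has` (1), (3). (3): `S_Res` for the embedding `ι` restricted to `Ω`
(`M = K_v`, `L = Kvs`; `rOm` is this restriction homomorphism). (4) continuity: `S_Res`. (5) `S_Has`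
(4) and `S_Omi` (2). -/
def S_Hlo : Prop :=
  ∀ (F : Type) [Field F] [Finite F] [CharP F 2] (PP : Finset F[X]),
    (∀ P ∈ PP, P.Monic ∧ Irreducible P) →
    (∀ x : AS PP, Hom2 (hAS (RatFunc F) (Om (AS PP) (RatFunc F) (Kgs F)) (x : RatFunc F))) ∧
    (∀ (x y : AS PP) g, hAS (RatFunc F) (Om (AS PP) (RatFunc F) (Kgs F))
        ((x : RatFunc F) + (y : RatFunc F)) g =
      hAS (RatFunc F) (Om (AS PP) (RatFunc F) (Kgs F)) (x : RatFunc F) g +
        hAS (RatFunc F) (Om (AS PP) (RatFunc F) (Kgs F)) (y : RatFunc F) g) ∧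
    (∀ (v : AbsoluteValue (RatFunc F) ℝ) (ι : Kgs F →ₐ[RatFunc F] Kvs v),
      Continuous (rOm (PP := PP) ι) ∧
      (∀ g : Gal(Kvs v/v.Completion),
        Rst (ι.comp (Om (AS PP) (RatFunc F) (Kgs F)).val) g (rOm (PP := PP) ι g)) ∧
      ∀ (x : AS PP) g, hAS (RatFunc F) (Om (AS PP) (RatFunc F) (Kgs F)) (x : RatFunc F)
          (rOm (PP := PP) ι g) =
        hAS v.Completion (Kvs v) (algebraMap (RatFunc F) v.Completion (x : RatFunc F)) g) ∧
    H2Z (GS PP) ∧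
    (∀ h : GS PP → ZMod 2, Hom2 h → ∃ f : AS PP,
      h = hAS (RatFunc F) (Om (AS PP) (RatFunc F) (Kgs F)) (f : RatFunc F)) ∧
    ∀ x : AS PP, (∀ g, hAS (RatFunc F) (Om (AS PP) (RatFunc F) (Kgs F)) (x : RatFunc F) g = 0) ↔
      ∃ y : RatFunc F, y ^ 2 + y = x

/-- **Off** (150 lines, uses `S_Lc1`, `S_Has`, `S_Eps`, `S_Dgr`, `S_Drg`, `S_Fin2`, `S_LfP`, `S_LfI`,
`S_Asr`, `S_Hlo`). Evaluation of the principal parts at the `W w'`, `φ w'`.

Proof. Let `D ∈ Dw κ w e`, `w' ≠ w`. By `S_Drg` `‖D‖ ≤ 1` at `w'`, and `‖D‖ < 1` if `w' = none`. So by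
`S_Hlo` (3) and `A.Ok` (`wz`, `ph`) `h D = 0` on `W w'` and `h D (φ w') = eps D` (in the completion at
`w'`), which is `0` for `w' = none` (`S_Lc1` (8)). At `w' = w`: `h D (φ w) = 0` by `A.Ok.dz`. For the
constant `κ`, integral at all places: `h κ = 0` on all `W w`, and `h κ (φ none) = eps κ = 1` by
`S_Eps` (4) (`d = 1` at infinity, `S_LfI`). -/
def S_Off : Prop :=
  ∀ (F : Type) [Field F] [Finite F] [CharP F 2] (κ : F), eps κ = 1 → ∀ (PP : Finset F[X]),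
    (∀ P ∈ PP, P.Monic ∧ Irreducible P) → ∀ A : Dat F PP, A.Ok κ →
    (∀ w e, ∀ D ∈ Dw κ w e, ∀ x : AS PP, (x : RatFunc F) = D →
      (∀ w', w' ≠ w → (∀ g ∈ (famC κ A).W w', (famC κ A).h x g = 0) ∧
        (famC κ A).h x ((famC κ A).φ w') = eps (algebraMap (RatFunc F) (A.av w').Completion D)) ∧
      (famC κ A).h x ((famC κ A).φ w) = 0 ∧ (famC κ A).h x ((famC κ A).φ none) = 0) ∧
    (∀ x : AS PP, (x : RatFunc F) = RatFunc.C κ →
      (∀ w, ∀ g ∈ (famC κ A).W w, (famC κ A).h x g = 0) ∧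
      (famC κ A).h x ((famC κ A).φ none) = 1) ∧
    ∀ (w : Option PP) (e : ℕ) (x : AS PP),
      x ∈ (famC κ A).𝔇 w e ↔ (x : RatFunc F) ∈ Dw κ w e

/-- **Uex** (200 lines, uses `S_Pfs`, `S_Hlo`, `S_Off`). Unique existence for `famC`.

Proof. Let `h w` be `Hom2` on `W w = (A.W w).map r_w`, `r_w = rOm (A.emb w)` (continuous), and
`c ∈ ZMod 2`. The pull back `k_w g = h w (r_w g)` is `Hom2` on `A.W w`, so `k_w = hAS_{K_w} (D w)` on
`A.W w` for some `D w ∈ Dw κ w (e w)` (`A.Ok.ex`), i.e. (`S_Hlo` (3)) `h w = (famC κ A).h (D w)` on `W w`. Let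
`x = ∑ w, D w + c κ ∈ AS PP` and `H = hAS x`. By `S_Off` `H = h w` on `W w` (the other terms vanish there)
and `H (φ none) = c`. Uniqueness (differences: it suffices to consider `H` with all data `0`): by
`S_Hlo` (5) `H = hAS f`, `f ∈ AS PP`, and by `S_Pfs` `f = ∑ D w + ε κ + ℘(y)`, so `H = hAS (∑ D w + ε κ)`
(`hAS ℘(y) = 0` by `S_Hlo` (6)). On `W w` we get `0 = H = hAS (D w)`, i.e. `hAS_{K_w} (D w) = 0` on `A.W w`,
so `D w = 0` by `A.Ok.un`, for all `w`. Then `H = ε hAS κ` and `0 = H (φ none) = ε`. -/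
def S_Uex : Prop :=
  ∀ (F : Type) [Field F] [Finite F] [CharP F 2] (κ : F), eps κ = 1 → ∀ (PP : Finset F[X]),
    (∀ P ∈ PP, P.Monic ∧ Irreducible P) → ∀ A : Dat F PP, A.Ok κ →
    UEx (famC κ A).W ((famC κ A).φ none)

open Classical in
/-- **Ax1** (250 lines, uses `S_Lc1`, `S_Eps`, `S_LfP`, `S_PfP`, `S_PfI`, `S_Fin2`, `S_Hlo`, `S_Off`,
`S_Asr`). The principal part `δ` at `w` with prescribed classes at the places of `PP`.

Proof. For every `P ∈ PP` there is a polynomial `T_P` with `eps T_P = 1` in the completion at `P`: take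
`f ∈ K`, `v f ≤ 1`, with `eps f = 1` (`S_Eps` (3)) and a polynomial `T_P` with `v (f - T_P) < 1`
(`f = a / b`, `P ∤ b`, `T_P = a b'` with `b b' ≡ 1` modulo `P`); `S_Eps` (2).
Case `w = some P₁`, `v₀ ≠ P₁`. Choose `k ≥ 1` such that `k deg P₁` is at least the sum of the degrees of the
`P ∈ PP`, and (Chinese remainder theorem) a polynomial `g` with `g ≡ P₁ ^ k T_{v₀}` modulo `v₀`, `g ≡ 0`
modulo the other `P ∈ PP`, `P ≠ P₁`, `deg g < ∑_{P ≠ P₁} deg P`. Then `f = g / P₁ ^ k` satisfies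
`f ≡ T_{v₀}` at `v₀` and `f ≡ 0` at the other `P ≠ P₁`, so `eps f = [P = v₀]` for `P ≠ P₁`. By `S_PfP`
`f = δ + ℘(y)`, `y = s / P₁ ^ k`; so `eps δ = eps f` at the `P ≠ P₁` (the difference is `℘(y)`). Now use
`S_Off`: `h δ (φ P) = eps δ` for `P ≠ P₁`, and `h δ (φ P₁) = 0`.
Case `w = none`. Let `f` be a polynomial with `f ≡ T_{v₀}` modulo `v₀` and `f ≡ 0` modulo the other
`P ∈ PP`. Write `f = D + c + ℘(s)` as in `S_PfI`, `D ∈ DI κ k`, `c ∈ F`. If `eps c = 0`, then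
`c ∈ ℘(F)`, `f = D + ℘(..)`, `δ = D`. If `eps c = 1`: let `a ∈ F` with `eps a = 1` (`S_Fin2`), let
`M ≥ 1` with `t ^ M ≡ 1` modulo all `P ∈ PP` different from `t` and
`f' = f + a (t ^ (1 + 2 M) + t)`; then `f' ≡ f` modulo all `P ∈ PP`. The polynomial
`a (t ^ (1 + 2 M) + t)` is odd with coefficient `a` of `t`, so it is `D' + κ` with
`D' ∈ DI κ (1 + 2 M)` (`eps a = 1`, `κ + κ = 0`). So `f' = (D + D') + (c + κ) + ℘(s)` with
`eps (c + κ) = 0` (`S_Fin2`), and `D + D'` is a principal part (`S_Dgr` or by hand; it is in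
`DI κ e'` for `e' = max`). So `δ = D + D'` has `eps δ = eps f' = [P = v₀]` at all `P ∈ PP`, and
`h δ (φ P) = eps δ` by `S_Off`. -/
def S_Ax1 : Prop :=
  ∀ (F : Type) [Field F] [Finite F] [CharP F 2] (κ : F), eps κ = 1 → ∀ (PP : Finset F[X]),
    (∀ P ∈ PP, P.Monic ∧ Irreducible P) → ∀ A : Dat F PP, A.Ok κ →
    ∀ (v₀ : PP) (w : Option PP), w ≠ some v₀ → ∃ e, ∃ δ ∈ (famC κ A).𝔇 w e,
      ∀ v : PP, (famC κ A).h δ ((famC κ A).φ (some v)) = if v = v₀ then 1 else 0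

/-- **AxF** (150 lines). A function with one pole and prescribed values (abstract).

Proof. Let `𝔭 = {b ∈ B | a j₁ b < 1}`, a prime ideal, not `0`. Let `𝔭 ^ n = (α)`, `n > 0` (`hcl`). For
`j ≠ j₁` we have `a j α = 1`: otherwise `α` is in the prime ideal `𝔭_j = {b | a j b < 1}`, so
`𝔭 ^ n ≤ 𝔭_j`, `𝔭 ≤ 𝔭_j`, and `𝔭 = 𝔭_j` (`B` is Dedekind, nonzero primes are maximal); this contradicts
`hdist`. `α ≠ 0` and `a j₁ α < 1`, so `c i α > 1` for all `i` (`hinf`). By the Chinese remainder theorem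
for the different maximal ideals `𝔭_j` there is `y ∈ B` with `a j (y - t j) < 1` for all `j`
(`Ideal.quotientInfRingEquivPiQuotient` or `Ideal.exists_forall_sub_mem_ideal`, the `𝔭_j` are
pairwise coprime). Let `N > 0` be a multiple of all `Q j - 1` (`j ≠ j₁`) such that
`c i y < (c i α) ^ N` for all `i`. For `j ≠ j₁`: `a j (α ^ Q_j - α) < 1` and `a j α = 1` give
`a j (α ^ (Q_j - 1) - 1) < 1`, so `a j (α ^ N - 1) < 1`. Put `f = y / α ^ N`. Then
`f - t j = ((y - t j) - t j (α ^ N - 1)) / α ^ N` has `a j (..) < 1` for `j ≠ j₁`; `c i f < 1`. Finally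
`π ∈ 𝔭`, so `π ^ n ∈ 𝔭 ^ n`, `π ^ n = α α'`, and `π ^ (n N) f = y α' ^ N ∈ B`. -/
def S_AxF : Prop :=
  ∀ (B L : Type) [CommRing B] [IsDedekindDomain B] [Field L] [Algebra B L] [IsFractionRing B L]
    (J : Type) [Finite J] (a : J → AbsoluteValue L ℝ), (∀ j, IsNonarchimedean (a j)) →
    (∀ j (b : B), a j (algebraMap B L b) ≤ 1) →
    (∀ j, ∃ Q : ℕ, 1 < Q ∧ ∀ b : B, a j (algebraMap B L (b ^ Q - b)) < 1) →
    (∀ j, ∃ b : B, b ≠ 0 ∧ a j (algebraMap B L b) < 1) →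
    (∀ j j', j ≠ j' → ∃ b : B, a j (algebraMap B L b) < 1 ∧ a j' (algebraMap B L b) = 1) →
    ∀ (I : Type) [Finite I] (c : I → AbsoluteValue L ℝ) (j₁ : J),
    (∀ 𝔮 : Ideal B, 𝔮.IsPrime → 𝔮 ≠ ⊥ → ∃ n : ℕ, 0 < n ∧ ∃ α, 𝔮 ^ n = Ideal.span {α}) →
    (∀ α : B, α ≠ 0 → a j₁ (algebraMap B L α) < 1 → ∀ i, 1 < c i (algebraMap B L α)) →
    ∀ (t : J → B) (π : B), a j₁ (algebraMap B L π) < 1 →
    ∃ (f : L) (k : ℕ), (∃ b : B, algebraMap B L b = algebraMap B L π ^ k * f) ∧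
      (∀ j, j ≠ j₁ → a j (f - algebraMap B L (t j)) < 1) ∧ ∀ i, c i f < 1

/-- **AxB** (120 lines). The integral closure of `F[X]` in a finite extension.

Proof. `L / K` is finite and separable (a subfield of `K^s`), so the integral closure `B` of `F[X]` in
`L` is a Dedekind domain with fraction field `L` (`integralClosure.isDedekindDomain`,
`integralClosure.isFractionRing_of_finite_extension`) and its class group is finite
(`FunctionField.ringOfIntegers`, `NumberTheory/ClassNumber/FunctionField.lean`; `FunctionField F L`;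
choose a `Fintype F` instance). For a prime `𝔮 ≠ ⊥` take `n = ` order of the class of `𝔮`
(`ClassGroup.mk0`, `ClassGroup.mk0_eq_one_iff`, `pow_card_eq_one`). -/
def S_AxB : Prop :=
  ∀ (F : Type) [Field F] [Finite F] [CharP F 2] (L : IntermediateField (RatFunc F) (Kgs F)),
    FiniteDimensional (RatFunc F) L →
    IsDedekindDomain (integralClosure F[X] L) ∧ IsFractionRing (integralClosure F[X] L) L ∧
    ∀ 𝔮 : Ideal (integralClosure F[X] L), 𝔮.IsPrime → 𝔮 ≠ ⊥ →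
      ∃ n : ℕ, 0 < n ∧ ∃ α, 𝔮 ^ n = Ideal.span {α}

open Classical in
/-- **AxL** (400 lines, uses `S_Lc1`, `S_Lc2`, `S_LfP`, `S_LfI`, `S_Has`, `S_Res`, `S_Eps`, `S_AxF`,
`S_AxB`). The function `f` in the multiquadratic extension.

Proof. For `σ ∈ Gal(K^s/K)` let `δ(σ) ∈ V = (Fin m → ZMod 2)` be the vector of the
`hAS K K^s (δ j) σ`. Let `θ_j ∈ K^s` be a root of `θ ^ 2 + θ = δ j`, `L = K(θ_1, ..., θ_m)`, finite over `K`.
`σ` is trivial on `L` iff `δ(σ) = 0` (`S_Has` (2)), and for `x ∈ L` the element `σ x` depends only on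
`δ(σ)`. For every `τ ∈ V` let `g_τ ∈ Gal(Kvs/K_∞)` be as in the hypothesis and let `σ_τ` be its restriction
to `K^s` (`S_Res`); `δ(σ_τ) = τ` by `S_Res` (4). `Gal(L/K)` has the elements `σ_τ | L`, all different.
Let `B` be the integral closure of `F[X]` in `L`; apply `S_AxF` (with `S_AxB`) to:
`J = PP × V`, `a (P, τ) x = nm (emb_P (σ_τ x))` (an absolute value by `S_Lc2`), `I = V`,
`c τ x = nm (emb_∞ (σ_τ x))`, `j₁ = (w₁, 0)`, `π = w₁` (the polynomial), `t (P, τ)` = a polynomial `T_{v₀}` with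
`eps T_{v₀} = 1` at `v₀` if `P = v₀`, `τ = 1`, and `0` otherwise (`T_{v₀}` exists: `S_Eps` (3), (2), and every
`f ∈ K` with `v f ≤ 1` is congruent to a polynomial modulo the maximal ideal at `P`).
Hypotheses: elements of `B` are integral over `F[X]`, and polynomials have norm at most `1` at `P`, so
`a (P, τ) b ≤ 1`. `emb_P (σ_τ x) ∈ K_P` for `x ∈ L`: as `δ j = x_j ^ 2 + x_j` with `x_j ∈ K_P`, the images of
`θ_j` are `x_j` or `x_j + 1`. So `‖y ^ Q - y‖ < 1` for `y = emb_P (σ_τ b)`, `Q = q ^ deg P`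
(`S_Lc1` (6)). `P ∈ B` has norm `1 / 2` at `(P, τ)`. Different primes: for `P ≠ P'` take `b = P`. For the
same `P` and `τ ≠ τ'`, say `τ j ≠ τ' j`: let `y = emb_P (θ_j) ∈ K_P`, `‖y‖ ≤ 1`, and let `c` be a polynomial
with `‖y - c‖ < 1`; `b = θ_j + c + τ j` has `emb_P (σ_τ b) = y + τ j + c + τ j = y - c`, of norm less than
`1`, and `emb_P (σ_{τ'} b) = (y - c) + (τ' j + τ j) = (y - c) + 1` of norm `1`.
`hinf`: let `α ∈ B`, `α ≠ 0`, `nm (emb_{w₁} (σ_0 α)) < 1`. The product `N = ∏_τ σ_τ α` is fixed by all of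
`Gal(K^s/K)` (`σ σ_τ` acts on `L` as `σ_{δ(σ) + τ}`), so it is in `K` and integral over `F[X]`, so a
polynomial, `N ≠ 0`, and `v_{w₁} N < 1`, so `w₁ ∣ N` and `v_∞ N > 1`. All `nm (emb_∞ (σ_τ α))` are equal to
`nm (emb_∞ α)`, since `emb_∞ (σ_τ x) = g_τ (emb_∞ x)` and `nm` is invariant under `g_τ`; their product is
`v_∞ N > 1`; so they are all greater than `1`.
The result `f ∈ L`: `w₁ ^ k f ∈ B` gives that `f` is integral over `AS PP` (`w₁` is invertible there).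
For `σ ∈ Gal(K^s/K)` with `δ(σ) = τ` we have `σ f = σ_τ f`, which gives the last two properties (`t` is
the polynomial `t (P, τ)`; `eps 0 = 0`). -/
def S_AxL : Prop :=
  ∀ (F : Type) [Field F] [Finite F] [CharP F 2] (κ : F) (PP : Finset F[X]),
    (∀ P ∈ PP, P.Monic ∧ Irreducible P) → ∀ A : Dat F PP, A.Ok κ →
    ∀ (m : ℕ), 1 ≤ m → ∀ δ : Fin m → F[X],
    (∀ (P : PP) j, ∃ x : (A.av (some P)).Completion,
      x ^ 2 + x = algebraMap (RatFunc F) _ (algebraMap F[X] (RatFunc F) (δ j))) →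
    (∀ τ : Fin m → ZMod 2, ∃ g : Gal(Kvs (A.av none)/(A.av none).Completion), ∀ j,
      hAS _ (Kvs (A.av none)) (algebraMap (RatFunc F) (A.av none).Completion
        (algebraMap F[X] (RatFunc F) (δ j))) g = τ j) →
    ∀ w₁ v₀ : PP, ∃ f : Kgs F,
      (∀ σ : Gal(Kgs F/RatFunc F),
        (∀ j, hAS (RatFunc F) (Kgs F) (algebraMap F[X] (RatFunc F) (δ j)) σ = 0) → σ f = f) ∧
      IsIntegral (AS PP) f ∧
      (∀ (P : PP) (σ : Gal(Kgs F/RatFunc F)),
        (P ≠ w₁ ∨ ∃ j, hAS (RatFunc F) (Kgs F) (algebraMap F[X] (RatFunc F) (δ j)) σ ≠ 0) →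
        ∃ t : F[X],
          nm (A.av (some P)) (A.emb (some P) (σ f) -
            algebraMap (RatFunc F) _ (algebraMap F[X] (RatFunc F) t)) < 1 ∧
          eps (algebraMap (RatFunc F) (A.av (some P)).Completion
            (algebraMap F[X] (RatFunc F) t)) =
            if P = v₀ ∧ (∀ j, hAS (RatFunc F) (Kgs F)
              (algebraMap F[X] (RatFunc F) (δ j)) σ = 1) then 1 else 0) ∧
      ∀ σ : Gal(Kgs F/RatFunc F), nm (A.av none) (A.emb none (σ f)) < 1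

/-- **AxZ** (250 lines, uses `S_Lc2`, `S_Has`, `S_Twb`, `S_Omi`, `S_Asr`). The roots `Θ τ` and the
crossed homomorphism `ζ`.

Proof. For `σ ∈ Gal(K^s/K)` let `δ(σ) ∈ V = (Fin m → ZMod 2)` be the vector of the `hAS K K^s (δ j) σ`;
`δ(σ σ') = δ(σ) + δ(σ')`; `δ(σ)` depends only on the restriction of `σ` to `Ω` and is the vector of the
`hAS K Ω (δ j)` at this restriction (the roots `θ_j` are in `Ω`; `S_Has` (2) for both fields; the
restriction `Gal(K^s/K) → Gal(Ω/K)` is surjective). The element `f` is in `Ω`: it is fixed by the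
`σ` which are trivial on `Ω` (they have `δ(σ) = 0`). `σ f` depends only on `δ(σ)`: if `δ(σ) = δ(σ')` then
`σ⁻¹ σ'` fixes `f`. For `τ ∈ V` let `f_τ = σ f` for any `σ` with `δ(σ) = τ` (exists by hypothesis). It is
in `Ω` (`Ω / K` is normal) and integral over `AS PP`. Let `Θ τ` be the root of `θ ^ 2 + θ = f_τ` in `K^s`
with `nm (ι (Θ τ)) < 1`: the two roots in `K^s` are mapped by `ι` to the two roots in `Kvs`, and one of
them has norm less than `1` (`S_Lc2` (8), the other is this one plus `1`). `Θ τ ∈ Ω` by `S_Twb` (6).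
For `g ∈ Gal(Ω/K)` with `δ(g)` we have `g f_{τ + δ(g)} = f_τ` (lift `g` to `σ'`;
`δ(σ' σ) = δ(g) + τ + δ(g) = τ` for `σ` with `δ(σ) = τ + δ(g)`). So `g (Θ (τ + δ(g)))` is a root of
`θ ^ 2 + θ = f_τ` and equals `Θ τ + o2 (ζ g τ)` for a unique `ζ g τ ∈ ZMod 2`. Law:
`g g' Θ(τ + δ(g g')) = g (Θ(τ + δ(g)) + o2 (ζ g' (τ + δ(g)))) = Θ τ + o2 (ζ g τ) + o2 (ζ g' (τ + δ(g)))`.
Locally constant: `ζ g` depends only on the restriction of `g` to the finite extension generated by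
all `Θ τ` and `θ_j`. -/
def S_AxZ : Prop :=
  ∀ (F : Type) [Field F] [Finite F] [CharP F 2] (PP : Finset F[X]),
    (∀ P ∈ PP, P.Monic ∧ Irreducible P) → ∀ (m : ℕ) (δ : Fin m → AS PP) (f : Kgs F),
    (∀ σ : Gal(Kgs F/RatFunc F), (∀ j, hAS (RatFunc F) (Kgs F) (δ j : RatFunc F) σ = 0) →
      σ f = f) →
    IsIntegral (AS PP) f →
    (∀ τ : Fin m → ZMod 2, ∃ σ : Gal(Kgs F/RatFunc F), ∀ j,
      hAS (RatFunc F) (Kgs F) (δ j : RatFunc F) σ = τ j) →
    ∀ (v : AbsoluteValue (RatFunc F) ℝ) (d : ℕ) (ϖ : RatFunc F) (R : Finset (RatFunc F)),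
      LF v d ϖ R → ∀ ι : Kgs F →ₐ[RatFunc F] Kvs v,
    (∀ σ : Gal(Kgs F/RatFunc F), nm v (ι (σ f)) < 1) →
    ∃ (Θ : (Fin m → ZMod 2) → Om (AS PP) (RatFunc F) (Kgs F))
      (ζ : GS PP → (Fin m → ZMod 2) → ZMod 2), IsLocallyConstant ζ ∧
      (∀ g g' τ, ζ (g * g') τ = ζ g τ + ζ g' (fun j => τ j +
        hAS (RatFunc F) (Om (AS PP) (RatFunc F) (Kgs F)) (δ j : RatFunc F) g)) ∧
      (∀ (g : GS PP) τ, g (Θ (fun j => τ j +
        hAS (RatFunc F) (Om (AS PP) (RatFunc F) (Kgs F)) (δ j : RatFunc F) g)) =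
          Θ τ + o2 _ (ζ g τ)) ∧
      (∀ τ (σ : Gal(Kgs F/RatFunc F)),
        (∀ j, hAS (RatFunc F) (Kgs F) (δ j : RatFunc F) σ = τ j) →
        ((Θ τ : Kgs F)) ^ 2 + (Θ τ : Kgs F) = σ f) ∧
      ∀ τ, nm v (ι (Θ τ : Kgs F)) < 1

open Classical in
/-- **Axm** (350 lines, uses `S_Lc1`, `S_Lc2`, `S_LfP`, `S_LfI`, `S_Has`, `S_Twb`, `S_Res`, `S_Dgr`,
`S_Drg`, `S_Asr`, `S_Hlo`, `S_Off`, `S_AxL`, `S_AxZ`). The last axiom.

Proof. The `δ j ∈ DI κ e` (`S_Off` (3)) are (images of) polynomials. Hypotheses of `S_AxL`: (i) for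
`P ∈ PP`: `‖δ j‖ ≤ 1` at `P` (`S_Drg`), `0 = h (δ j) (φ P) = hAS_{K_P} (δ j) (A.φ P) = eps (δ j)` (`S_Hlo` (3),
`A.Ok.ph`), so `δ j ∈ ℘(K_P)`. (ii) The map `Gal(Kvs/K_∞) → (Fin m → ZMod 2)`, `g ↦ (hAS_{K_∞} (δ j) g)`, is a
homomorphism; if it were not surjective there would be `c ≠ 0` with `∑ c j hAS_{K_∞} (δ j) = 0`, i.e.
`hAS_{K_∞} D = 0` for `D = ∑ c j δ j ∈ DI κ e` (`S_Dgr`), so `D = 0` by `A.Ok.un`, and then
`∑ c j h (δ j) = h D = 0` on `GS`, so `c = 0` by hypothesis. Let `f` be as in `S_AxL`. Apply `S_AxZ` with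
`v = A.av none`, `ι = A.emb none` (third hypothesis: restrict the `g` of (ii) to `K^s`, `S_Res`). Let `Θ`,
`ζ` be the result; `δ(g) = (hAS K Ω (δ j) g)_j`.
At infinity: let `g = r g'`, `g' ∈ Gal(Kvs/K_∞)`, `r = rOm (A.emb none)`. `g (Θ (τ + δ(g)))` and `Θ τ` both
have images of norm less than `1` under `ι` (`ι (g x) = g' (ι x)`, `nm` is invariant), so
`nm (o2 (ζ g τ)) < 1` and `ζ g τ = 0`. This holds for `g ∈ W none` and `g = φ none`.
At `P ∈ PP`: let `g = r g'`, `r = rOm (A.emb P)`. By (i) `δ(g) = 0` (`hAS_{K_P} (δ j) = 0`, `S_Has` (4)). So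
`g (Θ τ) = Θ τ + o2 (ζ g τ)`. For `τ` choose `σ` with `δ(σ) = τ`; `x_τ = emb_P (σ f)` is in `K_P` (for
`g' ∈ Gal(Kvs/K_P)`: `g' x_τ = emb_P (σ'' σ f)` with `σ''` the restriction of `g'`, `δ(σ'') = 0`,
`σ'' σ f = σ f` since `σ f` depends only on `δ(σ)`), and `emb_P (Θ τ)` is a root of `θ ^ 2 + θ = x_τ`; so
`ζ g τ = hAS_{K_P} x_τ g'`. If `P ≠ w₁` or `τ ≠ 0`: `x_τ = t + y` with `‖y‖ < 1`, `y ∈ ℘(K_P)`, so
`hAS x_τ = hAS t`, which is `0` on `A.W P` and `eps t = [P = v₀ ∧ τ = 1]` at `A.φ P` (`A.Ok`). If `P = w₁`,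
`τ = 0`: `hAS x_0` restricted to `A.W w₁` is `Hom2`, so it is `hAS D` for some `D ∈ Dw κ w₁ e₁`
(`A.Ok.ex`); let `δ₁ = D ∈ AS PP`. At `φ w₁` only `τ = 1 ≠ 0` (`m ≥ 1`) is needed. -/
def S_Axm : Prop :=
  ∀ (F : Type) [Field F] [Finite F] [CharP F 2] (κ : F), eps κ = 1 → ∀ (PP : Finset F[X]),
    (∀ P ∈ PP, P.Monic ∧ Irreducible P) → ∀ A : Dat F PP, A.Ok κ →
    ∀ (m : ℕ), 1 ≤ m → ∀ δ : Fin m → AS PP, (∃ e, ∀ j, δ j ∈ (famC κ A).𝔇 none e) →
    (∀ j v, (famC κ A).h (δ j) ((famC κ A).φ v) = 0) →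
    (∀ c : Fin m → ZMod 2, (∀ g, ∑ j, c j * (famC κ A).h (δ j) g = 0) → c = 0) →
    ∀ w₁ v₀ : PP, ∃ e, ∃ δ₁ ∈ (famC κ A).𝔇 (some w₁) e,
      ∃ ζ : GS PP → (Fin m → ZMod 2) → ZMod 2,
      IsLocallyConstant ζ ∧
      (∀ g g' τ, ζ (g * g') τ = ζ g τ + ζ g' (fun j => τ j + (famC κ A).h (δ j) g)) ∧
      (∀ w, w ≠ some w₁ → ∀ g ∈ (famC κ A).W w, ∀ τ, ζ g τ = 0) ∧
      (∀ g ∈ (famC κ A).W (some w₁), ∀ τ, ζ g τ = if τ = 0 then (famC κ A).h δ₁ g else 0) ∧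
      (∀ τ, ζ ((famC κ A).φ none) τ = 0) ∧
      ∀ v : PP, ζ ((famC κ A).φ (some v)) (fun _ => 1) = if v = v₀ then 1 else 0

open Classical in
/-- **Goo** (120 lines, uses `S_Dgr`, `S_Asr`, `S_Tls`, `S_LfI`, `S_Hlo`, `S_Off`, `S_Uex`, `S_Ax1`,
`S_Axm`). The family satisfies the axioms of part A.

Proof. `hom`, `add`, `h2`: `S_Hlo`. `uex`: `S_Uex`. `fin`, `mono`, `big`: `S_Dgr` and `S_Off` (3)
(`x ↦ (x : K)` is a bijection from `𝔇 w e` to `Dw κ w e`, as `Dw κ w e ⊂ AS PP`; if `PP` is empty use only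
the statements about `DI`, for instance apply `S_Dgr` with `P = X`). `off`, `phi`: `S_Off`. `inj`: if
`h x = 0` on `GS` then `x ∈ ℘(K)` (`S_Hlo` (6)), `x = y ^ 2 + y`; by `S_Tls` (2) with `c = 0` at infinity (an
absolute value `A.av none`) `x = 0`. `ax1`: `S_Ax1`, `axm`: `S_Axm`. -/
def S_Goo : Prop :=
  ∀ (F : Type) [Field F] [Finite F] [CharP F 2] (κ : F), eps κ = 1 → ∀ (PP : Finset F[X]),
    (∀ P ∈ PP, P.Monic ∧ Irreducible P) → ∀ A : Dat F PP, A.Ok κ → (famC κ A).Good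

end Pool.Agent.MP72W
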