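import Pool.Agent.Lib.MP_72e2e6_nt.W2.G.Spec

/-!
# MP_72e2e6_nt, theorem T3, part G: Asr, the ring of `S`-integral functions
-/

set_option autoImplicit false

namespace Pool.Agent.MP72W

open Polynomial IntermediateField

private theorem asr_poly {F : Type} [Field F] (PP : Finset F[X]) (p : F[X]) :
    algebraMap F[X] (RatFunc F) p ∈ AS PP := ⟨0, p, by simp⟩

private theorem asr_N_ne {F : Type} [Field F] {PP : Finset F[X]}
    (h : ∀ P ∈ PP, P.Monic ∧ Irreducible P) : (∏ P ∈ PP, P : F[X]) ≠ 0 :=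
  Finset.prod_ne_zero_iff.mpr fun P hP => (h P hP).2.ne_zero

private theorem asr_map_ne {F : Type} [Field F] {p : F[X]} (h : p ≠ 0) :
    algebraMap F[X] (RatFunc F) p ≠ 0 := by
  intro h0
  exact h (RatFunc.algebraMap_injective F (by rw [h0, map_zero]))

/-- Two monic irreducible polynomials which divide each other are equal. -/
private theorem asr_eq {F : Type} [Field F] {P Q : F[X]} (hP : P.Monic) (hP' : Irreducible P)
    (hQ : Q.Monic) (hQ' : Irreducible Q) (h : P ∣ Q) : P = Q :=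
  eq_of_monic_of_associated hP hQ (hP'.associated_of_dvd hQ' h)

private theorem asr_isFrac {F : Type} [Field F] (PP : Finset F[X]) :
    IsFractionRing (AS PP) (RatFunc F) := by
  have : FaithfulSMul (AS PP) (RatFunc F) :=
    (faithfulSMul_iff_algebraMap_injective _ _).mpr Subtype.val_injective
  refine IsFractionRing.of_field _ _ fun z => ?_
  refine ⟨⟨algebraMap F[X] (RatFunc F) z.num, asr_poly PP _⟩,
    ⟨algebraMap F[X] (RatFunc F) z.denom, asr_poly PP _⟩, ?_⟩
  exact (RatFunc.num_div_denom z).symm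

private theorem asr_inv {F : Type} [Field F] {PP : Finset F[X]}
    (h : ∀ P ∈ PP, P.Monic ∧ Irreducible P) (n : ℕ) :
    (algebraMap F[X] (RatFunc F) ((∏ P ∈ PP, P) ^ n))⁻¹ ∈ AS PP :=
  ⟨n, 1, by
    rw [inv_mul_cancel₀ (asr_map_ne (pow_ne_zero n (asr_N_ne h))), map_one]⟩

private theorem asr_closed {F : Type} [Field F] {PP : Finset F[X]}
    (h : ∀ P ∈ PP, P.Monic ∧ Irreducible P) : IsIntegrallyClosed (AS PP) := by
  let f : F[X] →+* AS PP := (algebraMap F[X] (RatFunc F)).codRestrict (AS PP) (asr_poly PP)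
  let _ : Algebra F[X] (AS PP) := f.toAlgebra
  have hf : ∀ p : F[X], ((algebraMap F[X] (AS PP) p : AS PP) : RatFunc F) =
      algebraMap F[X] (RatFunc F) p := fun p => rfl
  have hloc : IsLocalization (Submonoid.powers (∏ P ∈ PP, P : F[X])) (AS PP) := by
    refine ⟨?_, ?_, ?_⟩
    · rintro ⟨_, n, rfl⟩
      refine IsUnit.of_mul_eq_one ⟨_, asr_inv h n⟩ (Subtype.ext ?_)
      change algebraMap F[X] (RatFunc F) ((∏ P ∈ PP, P) ^ n) *
        (algebraMap F[X] (RatFunc F) ((∏ P ∈ PP, P) ^ n))⁻¹ = 1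
      exact mul_inv_cancel₀ (asr_map_ne (pow_ne_zero n (asr_N_ne h)))
    · rintro ⟨z, n, p, hp⟩
      refine ⟨(p, ⟨(∏ P ∈ PP, P) ^ n, n, rfl⟩), Subtype.ext ?_⟩
      exact hp
    · intro x y hxy
      refine ⟨1, ?_⟩
      have h1 := congrArg (Subtype.val) hxy
      rw [hf, hf] at h1
      rw [RatFunc.algebraMap_injective F h1]
  refine isIntegrallyClosed_of_isLocalization (R := F[X]) (S := AS PP)
    (Submonoid.powers (∏ P ∈ PP, P : F[X])) ?_
  rw [Submonoid.powers_le]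
  exact mem_nonZeroDivisors_of_ne_zero (asr_N_ne h)

private theorem asr_dvd {F : Type} [Field F] (PP : Finset F[X]) (q : F[X]) (hq : q ≠ 0)
    (hd : ∀ P : F[X], P.Monic → Irreducible P → P ∣ q → P ∈ PP) :
    ∃ k : ℕ, q ∣ (∏ P ∈ PP, P) ^ k := by
  classical
  induction q using UniqueFactorizationMonoid.induction_on_prime with
  | h₁ => exact absurd rfl hq
  | h₂ x hx => exact ⟨0, hx.dvd⟩
  | h₃ a p ha hp ih =>
    obtain ⟨k, hk⟩ := ih ha fun P hP hP' h => hd P hP hP' (h.mul_left p)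
    have h1 : normalize p ∈ PP := by
      refine hd _ (monic_normalize hp.ne_zero) ?_ ?_
      · exact (normalize_associated p).symm.irreducible hp.irreducible
      · exact (normalize_associated p).dvd.trans (dvd_mul_right p a)
    have h2 : p ∣ ∏ P ∈ PP, P :=
      (normalize_associated p).symm.dvd.trans (Finset.dvd_prod_of_mem (fun P => P) h1)
    refine ⟨k + 1, ?_⟩
    rw [pow_succ']
    exact mul_dvd_mul h2 hk

private theorem asr_mem_iff {F : Type} [Field F] {PP : Finset F[X]}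
    (h : ∀ P ∈ PP, P.Monic ∧ Irreducible P) (f : RatFunc F) :
    f ∈ AS PP ↔ ∀ P : F[X], P.Monic → Irreducible P → P ∉ PP → ¬ P ∣ f.denom := by
  constructor
  · rintro ⟨n, p, hp⟩ P hP hP' hPP hPd
    have h1 : f.denom ∣ (∏ P ∈ PP, P) ^ n := by
      rw [RatFunc.denom_dvd (pow_ne_zero n (asr_N_ne h))]
      refine ⟨p, ?_⟩
      rw [eq_div_iff (asr_map_ne (pow_ne_zero n (asr_N_ne h)))]
      exact hp
    have h2 : P ∣ ∏ P ∈ PP, P := hP'.prime.dvd_of_dvd_pow (hPd.trans h1)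
    obtain ⟨Q, hQ, hPQ⟩ := (hP'.prime.dvd_finset_prod_iff _).mp h2
    rw [asr_eq hP hP' (h Q hQ).1 (h Q hQ).2 hPQ] at hPP
    exact hPP hQ
  · intro hd
    obtain ⟨k, r, hk⟩ := asr_dvd PP f.denom f.denom_ne_zero fun P hP hP' hPd => by
      by_contra hcon
      exact hd P hP hP' hcon hPd
    refine ⟨k, f.num * r, ?_⟩
    rw [hk, map_mul, map_mul, ← mul_assoc]
    congr 1
    have h1 := RatFunc.num_div_denom f
    rw [div_eq_iff (asr_map_ne f.denom_ne_zero)] at h1
    exact h1.symm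

private theorem asr_le {F : Type} [Field F] {PP : Finset F[X]}
    (h : ∀ P ∈ PP, P.Monic ∧ Irreducible P) {f : RatFunc F} (hf : f ∈ AS PP) {P : F[X]}
    {v : AbsoluteValue (RatFunc F) ℝ} (hP : P ∉ PP) (hv : IsPl (some P) v) : v f ≤ 1 := by
  obtain ⟨hPm, hPi, hv⟩ := hv
  obtain ⟨n, p, hp⟩ := hf
  have h1 : v (algebraMap F[X] (RatFunc F) ((∏ P ∈ PP, P) ^ n)) = 1 := by
    rw [hv _ (pow_ne_zero n (asr_N_ne h))]
    have h2 : multiplicity P ((∏ P ∈ PP, P) ^ n) = 0 := by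
      apply multiplicity_eq_zero.mpr
      intro hd
      obtain ⟨Q, hQ, hPQ⟩ := (hPi.prime.dvd_finset_prod_iff _).mp (hPi.prime.dvd_of_dvd_pow hd)
      rw [asr_eq hPm hPi (h Q hQ).1 (h Q hQ).2 hPQ] at hP
      exact hP hQ
    rw [h2, pow_zero]
  have h2 : v (algebraMap F[X] (RatFunc F) p) ≤ 1 := by
    by_cases hp0 : p = 0
    · rw [hp0, map_zero, map_zero]
      exact zero_le_one
    · rw [hv p hp0]
      exact pow_le_one₀ (by norm_num) (by norm_num)
  rw [← hp, map_mul, h1, mul_one] at h2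
  exact h2

private theorem asr_div {F : Type} [Field F] {PP : Finset F[X]}
    (h : ∀ P ∈ PP, P.Monic ∧ Irreducible P) {P : F[X]} (hP : P ∈ PP) (a : F[X]) (k : ℕ) :
    algebraMap F[X] (RatFunc F) a / algebraMap F[X] (RatFunc F) P ^ k ∈ AS PP := by
  obtain ⟨r, hr⟩ := Finset.dvd_prod_of_mem (fun P => P) hP
  refine ⟨k, a * r ^ k, ?_⟩
  have h1 : algebraMap F[X] (RatFunc F) P ≠ 0 := asr_map_ne (h P hP).2.ne_zero
  have h2 : (∏ P ∈ PP, P : F[X]) = P * r := hr
  rw [h2, mul_pow, map_mul, map_mul, map_pow]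
  field_simp

private theorem asr_Dw {F : Type} [Field F] {PP : Finset F[X]}
    (h : ∀ P ∈ PP, P.Monic ∧ Irreducible P) (κ : F) (w : Option PP) (e : ℕ) (D : RatFunc F)
    (hD : D ∈ Dw κ w e) : D ∈ AS PP := by
  have hC : ∀ c : F, RatFunc.C c ∈ AS PP := fun c => by
    rw [← RatFunc.algebraMap_C]
    exact asr_poly PP _
  have hX : (RatFunc.X : RatFunc F) ∈ AS PP := by
    rw [← RatFunc.algebraMap_X]
    exact asr_poly PP _
  match w with
  | none =>
    obtain ⟨c, rfl⟩ := hD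
    refine add_mem (sum_mem fun i _ => mul_mem (hC _) (pow_mem hX _)) ?_
    split_ifs
    · exact hC κ
    · exact zero_mem _
  | some P =>
    obtain ⟨a, -, rfl⟩ := hD
    exact sum_mem fun i _ => asr_div h P.2 _ _

theorem tAsr : S_Asr := by
  intro F _ _ _ κ PP h
  refine ⟨asr_isFrac PP, asr_closed h, asr_mem_iff h, fun f hf P v hP hv => asr_le h hf hP hv,
    asr_poly PP, fun c => ?_, asr_Dw h κ⟩
  rw [← RatFunc.algebraMap_C]
  exact asr_poly PP _

end Pool.Agent.MP72W
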