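import Pool.Agent.Lib.MP_72e2e6_nt.W2.G.Spec

/-!
# MP_72e2e6_nt, theorem T3, part G, Ax1 (helper19)
-/

namespace Pool.Agent.MP72W

open Polynomial IntermediateField

private theorem Ax1_z2 (a : ZMod 2) : a = 0 ∨ a = 1 := by
  revert a
  decide

private theorem Ax1_eps_zero {L : Type} [Field L] {f : L} (h : eps f = 0) :
    ∃ x : L, x ^ 2 + x = f := by
  classical
  unfold eps at h
  by_contra hcon
  rw [if_neg hcon] at h
  exact one_ne_zero h

private theorem Ax1_eps_of {L : Type} [Field L] {f : L} (h : ∃ x : L, x ^ 2 + x = f) :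
    eps f = 0 := by
  classical
  unfold eps
  rw [if_pos h]

private theorem Ax1_eps_add {L : Type} [Field L] [CharP L 2] (f y : L) :
    eps (f + (y ^ 2 + y)) = eps f := by
  classical
  have h2 : (2 : L) = 0 := by exact_mod_cast CharP.cast_eq_zero L 2
  have key : (∃ x : L, x ^ 2 + x = f + (y ^ 2 + y)) ↔ ∃ x : L, x ^ 2 + x = f := by
    constructor
    · rintro ⟨x, hx⟩
      refine ⟨x + y, ?_⟩
      linear_combination hx + (x * y + y ^ 2 + y) * h2
    · rintro ⟨x, hx⟩
      refine ⟨x + y, ?_⟩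
      linear_combination hx + (x * y) * h2
  unfold eps
  exact if_congr key rfl rfl

section places

variable {F : Type} [Field F] {P : F[X]} {v : AbsoluteValue (RatFunc F) ℝ}

private theorem Ax1_one (hv : IsPl (some P) v) {p : F[X]} (hp : ¬ P ∣ p) :
    v (algebraMap F[X] (RatFunc F) p) = 1 := by
  have h0 : p ≠ 0 := by
    rintro rfl
    exact hp (dvd_zero _)
  rw [hv.2.2 p h0, multiplicity_eq_zero.mpr hp, pow_zero]

private theorem Ax1_le (hv : IsPl (some P) v) (p : F[X]) :
    v (algebraMap F[X] (RatFunc F) p) ≤ 1 := by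
  by_cases h0 : p = 0
  · rw [h0, map_zero, map_zero]
    norm_num
  · rw [hv.2.2 p h0]
    exact pow_le_one₀ (by norm_num) (by norm_num)

private theorem Ax1_lt (hv : IsPl (some P) v) {p : F[X]} (hp : P ∣ p) :
    v (algebraMap F[X] (RatFunc F) p) < 1 := by
  by_cases h0 : p = 0
  · rw [h0, map_zero, map_zero]
    norm_num
  · rw [hv.2.2 p h0]
    apply pow_lt_one₀ (by norm_num) (by norm_num)
    intro h
    exact (multiplicity_eq_zero.mp h) hp

private theorem Ax1_dvd (hv : IsPl (some P) v) {p : F[X]}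
    (h : v (algebraMap F[X] (RatFunc F) p) < 1) : P ∣ p := by
  by_contra hcon
  rw [Ax1_one hv hcon] at h
  exact lt_irrefl _ h

private theorem Ax1_cop {Q : F[X]} (hP : P.Monic ∧ Irreducible P) (hQ : Q.Monic ∧ Irreducible Q)
    (hne : P ≠ Q) : ¬ P ∣ Q := by
  intro h
  exact hne (Polynomial.eq_of_monic_of_associated hP.1 hQ.1
    ((hP.2.dvd_irreducible_iff_associated hQ.2).mp h))

/-- Integral functions are congruent to polynomials. -/
private theorem Ax1_rep (hv : IsPl (some P) v) (f : RatFunc F) (hf : v f ≤ 1) :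
    ∃ T : F[X], v (f - algebraMap F[X] (RatFunc F) T) < 1 := by
  have hirr : Irreducible P := hv.2.1
  have inj := RatFunc.algebraMap_injective F
  have hd0 : f.denom ≠ 0 := f.denom_ne_zero
  have hbR : algebraMap F[X] (RatFunc F) f.denom ≠ 0 := by
    rw [Ne, map_eq_zero_iff _ inj]
    exact hd0
  have hPd : ¬ P ∣ f.denom := by
    intro h
    have hn : ¬ P ∣ f.num := by
      intro h'
      exact hirr.not_isUnit ((f.isCoprime_num_denom).isUnit_of_dvd' h' h)
    have h1 := RatFunc.num_div_denom f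
    have h2 := congrArg v h1
    rw [map_div₀, Ax1_one hv hn] at h2
    have h3 := Ax1_lt hv h
    have h4 : 0 < v (algebraMap F[X] (RatFunc F) f.denom) := v.pos hbR
    rw [← h2, div_le_one h4] at hf
    linarith
  obtain ⟨u, w, huw⟩ : IsCoprime P f.denom := (hirr.coprime_iff_not_dvd).mpr hPd
  refine ⟨f.num * w, ?_⟩
  have hdiff : f - algebraMap F[X] (RatFunc F) (f.num * w) =
      algebraMap F[X] (RatFunc F) (f.num * (u * P)) / algebraMap F[X] (RatFunc F) f.denom := by
    rw [eq_div_iff hbR, sub_mul]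
    have h3 := (div_eq_iff hbR).mp (RatFunc.num_div_denom f)
    have h5 := congrArg (algebraMap F[X] (RatFunc F)) huw
    simp only [map_mul, map_add, map_one] at h5 ⊢
    linear_combination (-algebraMap F[X] (RatFunc F) f.num) * h5 - h3
  rw [hdiff, map_div₀, Ax1_one hv hPd, div_one]
  exact Ax1_lt hv ⟨f.num * u, by ring⟩

end places

/-- The key computation. -/
private theorem Ax1_key {F : Type} [Field F] [Finite F] [CharP F 2]
    {v : AbsoluteValue (RatFunc F) ℝ} {d : ℕ} {ϖ : RatFunc F} {R : Finset (RatFunc F)}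
    (hLc1 : S_Lc1) (hEps : S_Eps) (hLF : LF v d ϖ R) {f T D y : RatFunc F} (hf : v f ≤ 1)
    (hfT : v (f - T) < 1) (hD : f = D + (y ^ 2 + y)) :
    eps (algebraMap (RatFunc F) v.Completion D) = eps (algebraMap (RatFunc F) v.Completion T) := by
  obtain ⟨l1, -, -, -, -, -, l7, -⟩ := hLc1 F v d ϖ R hLF
  have := l7
  obtain ⟨-, e2, -⟩ := hEps F v d ϖ R hLF
  have h1 := e2 (algebraMap (RatFunc F) v.Completion f) (algebraMap (RatFunc F) v.Completion T)
    (by rw [l1]; exact hf) (by rw [← map_sub, l1]; exact hfT)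
  rw [← h1, hD, map_add, map_add, map_pow, Ax1_eps_add]

theorem tAx1 (hLc1 : S_Lc1) (hEps : S_Eps) (hLfP : S_LfP) (hPfP : S_PfP) (hPfI : S_PfI)
    (hFin2 : S_Fin2) (_hHlo : S_Hlo) (hOff : S_Off) (hAsr : S_Asr) : S_Ax1 := by
  classical
  intro F _ _ _ κ hκ PP hPP A hA v₀ w hw
  obtain ⟨o1, -, o3⟩ := hOff F κ hκ PP hPP A hA
  obtain ⟨-, -, -, -, -, -, r7⟩ := hAsr F κ PP hPP
  have hpl : ∀ P : PP, IsPl (some P.1) (A.av (some P)) := fun P => hA.pl (some P)
  choose R hLF using fun P : PP => hLfP F P.1 (A.av (some P)) (hpl P)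
  -- the polynomial `T`
  obtain ⟨T, hT⟩ : ∃ T : F[X], eps (algebraMap (RatFunc F) (A.av (some v₀)).Completion
      (algebraMap F[X] (RatFunc F) T)) = 1 := by
    obtain ⟨-, -, ⟨f, hf, hfe⟩, -⟩ := hEps F (A.av (some v₀)) _ _ _ (hLF v₀)
    obtain ⟨T, hT⟩ := Ax1_rep (hpl v₀) f hf
    refine ⟨T, ?_⟩
    rw [← Ax1_key hLc1 hEps (hLF v₀) hf hT (D := f) (y := 0) (by ring)]
    exact hfe
  have heps0 : ∀ P : PP, eps (algebraMap (RatFunc F) (A.av (some P)).Completion 0) = 0 := by
    intro P
    rw [map_zero]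
    exact Ax1_eps_of ⟨0, by ring⟩
  -- the final step
  have fin : ∀ (e : ℕ) (D : RatFunc F), D ∈ Dw κ w e →
      (∀ P : PP, w ≠ some P → eps (algebraMap (RatFunc F) (A.av (some P)).Completion D) =
        if P = v₀ then 1 else 0) →
      ∃ e, ∃ δ ∈ (famC κ A).𝔇 w e,
        ∀ v : PP, (famC κ A).h δ ((famC κ A).φ (some v)) = if v = v₀ then 1 else 0 := by
    intro e D hD h
    refine ⟨e, ⟨D, r7 w e D hD⟩, (o3 w e _).mpr hD, fun P => ?_⟩
    obtain ⟨p1, p2, -⟩ := o1 w e D hD ⟨D, r7 w e D hD⟩ rfl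
    by_cases hwP : w = some P
    · subst hwP
      rw [p2, if_neg]
      rintro rfl
      exact hw rfl
    · rw [(p1 (some P) (fun h' => hwP h'.symm)).2]
      exact h P hwP
  rcases w with _ | P₁
  · -- the place at infinity
    set M : F[X] := ∏ P ∈ PP.erase v₀.1, P with hM
    have hcop : IsCoprime M v₀.1 := by
      apply IsCoprime.prod_left
      intro P hP
      rw [Finset.mem_erase] at hP
      exact ((hPP P hP.2).2.coprime_iff_not_dvd).mpr
        (Ax1_cop (hPP P hP.2) (hPP v₀.1 v₀.2) hP.1)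
    obtain ⟨M', u, hMu⟩ := hcop
    set f : F[X] := M * (M' * T) with hf
    have hf0 : v₀.1 ∣ f - T := ⟨-(u * T), by linear_combination T * hMu⟩
    have hf1 : ∀ P : PP, P ≠ v₀ → P.1 ∣ f := by
      intro P hP
      refine Dvd.dvd.mul_right (Finset.dvd_prod_of_mem (fun Q => Q) ?_) _
      rw [Finset.mem_erase]
      exact ⟨fun h => hP (Subtype.ext h), P.2⟩
    -- it suffices to find a polynomial congruent to `f` which is a principal part modulo `℘`
    have fin2 : ∀ (f' : F[X]), (∀ P : PP, P.1 ∣ f' - f) → ∀ (e : ℕ) (D y : RatFunc F),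
        D ∈ DI κ e → algebraMap F[X] (RatFunc F) f' = D + (y ^ 2 + y) →
        ∃ e, ∃ δ ∈ (famC κ A).𝔇 none e,
          ∀ v : PP, (famC κ A).h δ ((famC κ A).φ (some v)) = if v = v₀ then 1 else 0 := by
      intro f' hf' e D y hD hy
      refine fin e D hD fun P _ => ?_
      by_cases hP : P = v₀
      · subst hP
        rw [if_pos rfl, Ax1_key hLc1 hEps (hLF P) (Ax1_le (hpl P) f') (T := algebraMap _ _ T)
          ?_ hy]
        · exact hT
        · rw [← map_sub]
          apply Ax1_lt (hpl P)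
          have := dvd_add (hf' P) hf0
          rwa [sub_add_sub_cancel] at this
      · rw [if_neg hP, Ax1_key hLc1 hEps (hLF P) (Ax1_le (hpl P) f') (T := 0) ?_ hy]
        · exact heps0 P
        · rw [sub_zero]
          apply Ax1_lt (hpl P)
          have := dvd_add (hf' P) (hf1 P hP)
          rwa [sub_add_cancel] at this
    -- the exponent `N`
    set N : ℕ := ∏ P ∈ PP, (Nat.card F ^ P.natDegree - 1) with hN
    have hN1 : ∀ P : PP, P.1 ≠ X → P.1 ∣ X ^ N - 1 := by
      intro P hPX
      have h1 := (hLF P).frob (algebraMap F[X] (RatFunc F) X) (Ax1_le (hpl P) X)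
      rw [← map_pow, ← map_sub] at h1
      have h2 := Ax1_dvd (hpl P) h1
      have hQ : 1 ≤ Nat.card F ^ P.1.natDegree := Nat.one_le_pow _ _ Nat.card_pos
      have h3 : (X : F[X]) ^ (Nat.card F ^ P.1.natDegree) - X =
          X * (X ^ (Nat.card F ^ P.1.natDegree - 1) - 1) := by
        rw [mul_sub, mul_one, ← pow_succ', Nat.sub_add_cancel hQ]
      rw [h3] at h2
      have h4 : ¬ P.1 ∣ X := Ax1_cop (hPP P.1 P.2) ⟨monic_X, irreducible_X⟩ hPX
      have h5 := (((hPP P.1 P.2).2.prime.dvd_mul).mp h2).resolve_left h4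
      refine h5.trans ?_
      have h6 : Nat.card F ^ P.1.natDegree - 1 ∣ N :=
        Finset.dvd_prod_of_mem (fun P : F[X] => Nat.card F ^ P.natDegree - 1) P.2
      obtain ⟨j, hj⟩ := h6
      rw [hj, pow_mul]
      have := sub_one_dvd_pow_sub_one ((X : F[X]) ^ (Nat.card F ^ P.1.natDegree - 1)) j
      exact this
    have hNpos : 1 ≤ N := by
      rw [hN]
      refine Nat.one_le_iff_ne_zero.mpr (Finset.prod_ne_zero_iff.mpr fun P hP => ?_)
      have hd : 0 < P.natDegree := (hPP P hP).2.natDegree_pos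
      have hq : 1 < Nat.card F := Finite.one_lt_card
      have := Nat.one_lt_pow hd.ne' hq
      omega
    have h2F : (2 : F) = 0 := by exact_mod_cast CharP.cast_eq_zero F 2
    have h2P : (2 : F[X]) = 0 := by
      have := congrArg (C : F → F[X]) h2F
      rwa [map_zero, map_ofNat] at this
    set k : ℕ := f.natDegree + 1 + 2 * N with hk
    obtain ⟨D, hD, c, s, -, hs⟩ := hPfI F κ k f (by omega)
    rcases Ax1_z2 (eps c) with hc | hc
    · obtain ⟨x, hx⟩ := Ax1_eps_zero hc
      refine fin2 f (fun P => by rw [sub_self]; exact dvd_zero _) k D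
        (RatFunc.C x + algebraMap F[X] (RatFunc F) s) hD ?_
      have h2R : (2 : RatFunc F) = 0 := by
        have := congrArg (algebraMap F[X] (RatFunc F)) h2P
        rwa [map_zero, map_ofNat] at this
      rw [hs, ← hx, map_add, map_pow]
      linear_combination (-(RatFunc.C x * algebraMap F[X] (RatFunc F) s)) * h2R
    · have h2R : (2 : RatFunc F) = 0 := by
        have := congrArg (algebraMap F[X] (RatFunc F)) h2P
        rwa [map_zero, map_ofNat] at this
      have hcκ : eps (c + κ) = 0 := by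
        rw [(hFin2 F).1, hc, hκ]
        decide
      obtain ⟨x, hx⟩ := Ax1_eps_zero hcκ
      set D' : RatFunc F := RatFunc.C κ * RatFunc.X ^ (2 * N + 1) + RatFunc.C κ * RatFunc.X +
        RatFunc.C κ with hD'
      have hD'm : D' ∈ DI κ k := by
        refine ⟨fun i => if i = 0 ∨ i = N then κ else 0, ?_⟩
        have h1 : (1 ≤ k ∧ eps (if (0 : ℕ) = 0 ∨ 0 = N then κ else 0) ≠ 0) := by
          refine ⟨by omega, ?_⟩
          rw [if_pos (Or.inl rfl), hκ]
          exact one_ne_zero
        rw [if_pos h1, hD']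
        congr 1
        have h3 : ∀ i ∈ Finset.range ((k + 1) / 2), i ∉ ({0, N} : Finset ℕ) →
            RatFunc.C (if i = 0 ∨ i = N then κ else 0) * (RatFunc.X : RatFunc F) ^ (2 * i + 1) =
              0 := by
          intro i _ hi
          rw [Finset.mem_insert, Finset.mem_singleton] at hi
          rw [if_neg hi, map_zero, zero_mul]
        have h4 : ({0, N} : Finset ℕ) ⊆ Finset.range ((k + 1) / 2) := by
          intro i hi
          rw [Finset.mem_insert, Finset.mem_singleton] at hi
          rw [Finset.mem_range]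
          rcases hi with rfl | rfl <;> omega
        rw [← Finset.sum_subset h4 h3, Finset.sum_pair (by omega : (0 : ℕ) ≠ N),
          if_pos (Or.inl rfl), if_pos (Or.inr rfl)]
        rw [mul_zero, zero_add, pow_one]
        ring
      have hsum : D + D' ∈ DI κ k := by
        have hD1 := (o3 none k ⟨D, r7 none k D hD⟩).mpr hD
        have hD2 := (o3 none k ⟨D', r7 none k D' hD'm⟩).mpr hD'm
        exact (o3 none k _).mp (add_mem hD1 hD2)
      set f' : F[X] := f + C κ * (X ^ (2 * N + 1) + X) with hf'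
      refine fin2 f' (fun P => ?_) k (D + D')
        (RatFunc.C x + algebraMap F[X] (RatFunc F) s) hsum ?_
      · rw [hf', add_sub_cancel_left]
        refine Dvd.dvd.mul_left ?_ _
        by_cases hPX : P.1 = X
        · rw [hPX]
          exact ⟨X ^ (2 * N) + 1, by ring⟩
        · have h5 := hN1 P hPX
          have h6 : (X : F[X]) ^ (2 * N + 1) + X = (X ^ N - 1) * (X * (X ^ N + 1)) := by
            have : (X : F[X]) ^ (2 * N + 1) = X ^ N * X ^ N * X := by ring
            rw [this]
            linear_combination X * h2P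
          rw [h6]
          exact h5.mul_right _
      · have hCX : algebraMap F[X] (RatFunc F) (C κ * (X ^ (2 * N + 1) + X)) =
            D' + RatFunc.C κ := by
          rw [map_mul, map_add, map_pow, RatFunc.algebraMap_C, RatFunc.algebraMap_X, hD']
          linear_combination (-RatFunc.C κ) * h2R
        have hxC : RatFunc.C c + RatFunc.C κ = RatFunc.C x ^ 2 + RatFunc.C x := by
          rw [← map_add, ← hx, map_add, map_pow]
        rw [hf', map_add, hs, hCX]
        linear_combination hxC - (RatFunc.C x * algebraMap F[X] (RatFunc F) s) * h2R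
  · -- a finite place
    have hP₁ : P₁ ≠ v₀ := fun h => hw (by rw [h])
    set M : F[X] := ∏ P ∈ (PP.erase v₀.1).erase P₁.1, P with hM
    have hcop : IsCoprime M v₀.1 := by
      apply IsCoprime.prod_left
      intro P hP
      rw [Finset.mem_erase, Finset.mem_erase] at hP
      exact ((hPP P hP.2.2).2.coprime_iff_not_dvd).mpr
        (Ax1_cop (hPP P hP.2.2) (hPP v₀.1 v₀.2) hP.2.1)
    obtain ⟨M', u, hMu⟩ := hcop
    set k : ℕ := M.natDegree + v₀.1.natDegree with hk
    set r : F[X] := (M' * (P₁.1 ^ k * T)) %ₘ v₀.1 with hr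
    set q : F[X] := (M' * (P₁.1 ^ k * T)) /ₘ v₀.1 with hq
    have hrq : r + v₀.1 * q = M' * (P₁.1 ^ k * T) := Polynomial.modByMonic_add_div _ _
    set g : F[X] := M * r with hg
    have hP1d : 1 ≤ P₁.1.natDegree := (hPP P₁.1 P₁.2).2.natDegree_pos
    have hM0 : M ≠ 0 := by
      rw [hM]
      refine Finset.prod_ne_zero_iff.mpr fun P hP => ?_
      rw [Finset.mem_erase, Finset.mem_erase] at hP
      exact (hPP P hP.2.2).2.ne_zero
    have hgdeg : g.degree < ((k * P₁.1.natDegree : ℕ) : WithBot ℕ) := by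
      by_cases hr0 : r = 0
      · rw [hg, hr0, mul_zero, degree_zero]
        exact WithBot.bot_lt_coe _
      · have h1 : r.degree < v₀.1.degree := Polynomial.degree_modByMonic_lt _ (hPP v₀.1 v₀.2).1
        have h2 : r.natDegree < v₀.1.natDegree := Polynomial.natDegree_lt_natDegree hr0 h1
        have h3 : g.natDegree = M.natDegree + r.natDegree := by
          rw [hg]
          exact Polynomial.natDegree_mul hM0 hr0
        have h4 : g ≠ 0 := by
          rw [hg]
          exact mul_ne_zero hM0 hr0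
        rw [Polynomial.degree_eq_natDegree h4]
        have h5 : g.natDegree < k * P₁.1.natDegree := by
          rw [h3]
          nlinarith
        exact_mod_cast h5
    obtain ⟨D, hD, s, -, hs⟩ := hPfP F P₁.1 (hPP P₁.1 P₁.2).1 (hPP P₁.1 P₁.2).2 k g hgdeg
    refine fin k D hD fun P hP => ?_
    have hPP₁ : P ≠ P₁ := fun h => hP (by rw [h])
    have hdvd : ¬ P.1 ∣ P₁.1 := Ax1_cop (hPP P.1 P.2) (hPP P₁.1 P₁.2) fun h =>
      hPP₁ (Subtype.ext h)
    have hval1 : A.av (some P) (algebraMap F[X] (RatFunc F) P₁.1 ^ k) = 1 := by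
      rw [map_pow, Ax1_one (hpl P) hdvd, one_pow]
    have hne : algebraMap F[X] (RatFunc F) P₁.1 ^ k ≠ 0 := by
      intro h
      rw [h, map_zero] at hval1
      exact zero_ne_one hval1
    have hle : A.av (some P) (algebraMap F[X] (RatFunc F) g /
        algebraMap F[X] (RatFunc F) P₁.1 ^ k) ≤ 1 := by
      rw [map_div₀, hval1, div_one]
      exact Ax1_le (hpl P) g
    by_cases hPv : P = v₀
    · subst hPv
      rw [if_pos rfl, Ax1_key hLc1 hEps (hLF P) hle (T := algebraMap _ _ T) ?_ hs]
      · exact hT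
      · have h1 : algebraMap F[X] (RatFunc F) g / algebraMap F[X] (RatFunc F) P₁.1 ^ k -
            algebraMap F[X] (RatFunc F) T =
            algebraMap F[X] (RatFunc F) (g - P₁.1 ^ k * T) /
              algebraMap F[X] (RatFunc F) P₁.1 ^ k := by
          rw [eq_div_iff hne, sub_mul, div_mul_cancel₀ _ hne]
          simp only [map_sub, map_mul, map_pow]
          ring
        rw [h1, map_div₀, hval1, div_one]
        apply Ax1_lt (hpl P)
        refine ⟨-(u * (P₁.1 ^ k * T)) - M * q, ?_⟩
        rw [hg]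
        linear_combination M * hrq + (P₁.1 ^ k * T) * hMu
    · rw [if_neg hPv, Ax1_key hLc1 hEps (hLF P) hle (T := 0) ?_ hs]
      · exact heps0 P
      · rw [sub_zero, map_div₀, hval1, div_one]
        apply Ax1_lt (hpl P)
        refine Dvd.dvd.mul_right (Finset.dvd_prod_of_mem (fun Q => Q) ?_) _
        rw [Finset.mem_erase, Finset.mem_erase]
        exact ⟨fun h => hPP₁ (Subtype.ext h), fun h => hPv (Subtype.ext h), P.2⟩

end Pool.Agent.MP72W
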