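import Pool.Agent.Lib.MP_72e2e6_nt.W2.G.Spec

/-!
# MP_72e2e6_nt, theorem T3, part G: AxB, integral closure and class number
-/

set_option autoImplicit false

namespace Pool.Agent.MP72W

open Polynomial IntermediateField

private theorem axb_gen (F L : Type) [Field F] [Fintype F] [Field L] [Algebra F[X] L]
    [Algebra (RatFunc F) L] [IsScalarTower F[X] (RatFunc F) L] [FunctionField F L]
    [Algebra.IsSeparable (RatFunc F) L] :
    IsDedekindDomain (FunctionField.ringOfIntegers F L) ∧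
    IsFractionRing (FunctionField.ringOfIntegers F L) L ∧
    ∀ 𝔮 : Ideal (FunctionField.ringOfIntegers F L), 𝔮.IsPrime → 𝔮 ≠ ⊥ →
      ∃ n : ℕ, 0 < n ∧ ∃ α, 𝔮 ^ n = Ideal.span {α} := by
  refine ⟨inferInstance, inferInstance, fun 𝔮 _ h𝔮 => ?_⟩
  have h0 : 𝔮 ∈ nonZeroDivisors (Ideal (FunctionField.ringOfIntegers F L)) :=
    mem_nonZeroDivisors_of_ne_zero h𝔮
  have h1 : ClassGroup.mk0 (⟨𝔮, h0⟩ ^ Fintype.card (ClassGroup (FunctionField.ringOfIntegers F L))) = 1 := by
    rw [map_pow, pow_card_eq_one]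
  rw [ClassGroup.mk0_eq_one_iff] at h1
  obtain ⟨α, hα⟩ := h1
  exact ⟨_, Fintype.card_pos, α, hα⟩

theorem tAxB : S_AxB := by
  intro F _ _ _ L hL
  have := Fintype.ofFinite F
  exact axb_gen F L

end Pool.Agent.MP72W
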