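import Pool.Agent.Lib.MP_72e2e6_nt.W2.G.Spec

/-!
# MP_72e2e6_nt, T3, W2/G/AxL: the function in the multiquadratic extension (helper77)
-/

namespace Pool.Agent.MP72W

open Polynomial IntermediateField

/-! ### Nonarchimedean norms -/

/-- a multiplicative nonarchimedean norm on a field -/
structure AxL_NF {E : Type} [Field E] (n : E → ℝ) : Prop where
  nonneg : ∀ x, 0 ≤ n x
  zero : ∀ x, n x = 0 ↔ x = 0
  mul : ∀ x y, n (x * y) = n x * n y
  add : ∀ x y, n (x + y) ≤ max (n x) (n y)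

section NF

variable {E L : Type} [Field E] [Field L] {n : E → ℝ}

theorem AxL_NF.one (h : AxL_NF n) : n 1 = 1 := by
  have h1 := h.mul 1 1
  rw [mul_one] at h1
  have h2 : n 1 ≠ 0 := fun h3 => one_ne_zero ((h.zero 1).1 h3)
  exact (mul_left_cancel₀ h2 (by rw [← h1, mul_one])).symm

theorem AxL_NF.pow (h : AxL_NF n) (x : E) (k : ℕ) : n (x ^ k) = n x ^ k := by
  induction k with
  | zero => rw [pow_zero, pow_zero, h.one]
  | succ k ih => rw [pow_succ, pow_succ, h.mul, ih]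

theorem AxL_NF.neg (h : AxL_NF n) (x : E) : n (-x) = n x := by
  have h1 : n (-1) * n (-1) = 1 := by
    rw [← h.mul, neg_mul_neg, one_mul, h.one]
  have h2 : n (-1) = 1 := by nlinarith [h.nonneg (-1)]
  rw [← neg_one_mul, h.mul, h2, one_mul]

theorem AxL_NF.sub (h : AxL_NF n) (x y : E) : n (x - y) ≤ max (n x) (n y) := by
  rw [sub_eq_add_neg, ← h.neg y]
  exact h.add _ _

theorem AxL_NF.prod (h : AxL_NF n) {J : Type} (s : Finset J) (g : J → E) :
    n (∏ i ∈ s, g i) = ∏ i ∈ s, n (g i) := by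
  classical
  induction s using Finset.induction_on with
  | empty => rw [Finset.prod_empty, Finset.prod_empty, h.one]
  | insert a s ha ih => rw [Finset.prod_insert ha, Finset.prod_insert ha, h.mul, ih]

theorem AxL_NF.sum_le (h : AxL_NF n) {J : Type} (s : Finset J) (g : J → E) {C : ℝ} (hC : 0 ≤ C)
    (hg : ∀ i ∈ s, n (g i) ≤ C) : n (∑ i ∈ s, g i) ≤ C := by
  classical
  induction s using Finset.induction_on with
  | empty => rw [Finset.sum_empty, (h.zero 0).2 rfl]; exact hC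
  | insert a s ha ih =>
    rw [Finset.sum_insert ha]
    exact (h.add _ _).trans (max_le (hg a (Finset.mem_insert_self a s))
      (ih fun i hi => hg i (Finset.mem_insert_of_mem hi)))

theorem AxL_NF.one_add (h : AxL_NF n) {z : E} (hz : n z < 1) : n (z + 1) = 1 := by
  refine le_antisymm ((h.add _ _).trans (max_le hz.le h.one.le)) ?_
  have h1 : n 1 ≤ max (n (z + 1)) (n z) := by
    have := h.sub (z + 1) z
    rwa [add_sub_cancel_left] at this
  rw [h.one] at h1
  rcases le_max_iff.1 h1 with h2 | h2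
  · exact h2
  · exact absurd hz (not_lt.2 h2)

/-- integral elements have norm at most one -/
theorem AxL_NF.int (h : AxL_NF n) {R : Type} [CommRing R] (f : R →+* E) (hf : ∀ r, n (f r) ≤ 1)
    {x : E} {p : R[X]} (hp : p.Monic) (hx : p.eval₂ f x = 0) : n x ≤ 1 := by
  by_contra hcon
  rw [not_le] at hcon
  rw [eval₂_eq_sum_range, Finset.sum_range_succ, hp.coeff_natDegree, map_one, one_mul] at hx
  have h1 : x ^ p.natDegree = -∑ i ∈ Finset.range p.natDegree, f (p.coeff i) * x ^ i := by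
    linear_combination hx
  rcases Nat.eq_zero_or_pos p.natDegree with h0 | h0
  · rw [h0, pow_zero, Finset.range_zero, Finset.sum_empty, neg_zero] at h1
    exact one_ne_zero h1
  · have h2 : n (x ^ p.natDegree) ≤ n x ^ (p.natDegree - 1) := by
      rw [h1, h.neg]
      refine h.sum_le _ _ (pow_nonneg (h.nonneg x) _) fun i hi => ?_
      rw [h.mul, h.pow]
      have h3 : n x ^ i ≤ n x ^ (p.natDegree - 1) :=
        pow_le_pow_right₀ hcon.le (by rw [Finset.mem_range] at hi; omega)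
      calc n (f (p.coeff i)) * n x ^ i ≤ 1 * n x ^ i :=
            mul_le_mul_of_nonneg_right (hf _) (pow_nonneg (h.nonneg x) _)
        _ = n x ^ i := one_mul _
        _ ≤ _ := h3
    rw [h.pow] at h2
    exact absurd h2 (not_le.2 (pow_lt_pow_right₀ hcon (by omega)))

/-- the absolute value of a norm -/
def AxL_av (h : AxL_NF n) (φ : L →+* E) : AbsoluteValue L ℝ where
  toFun x := n (φ x)
  map_mul' x y := by rw [map_mul, h.mul]
  nonneg' x := h.nonneg _
  eq_zero' x := by rw [h.zero, map_eq_zero]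
  add_le' x y := by
    rw [map_add]
    refine (h.add _ _).trans (max_le ?_ ?_)
    · linarith [h.nonneg (φ y)]
    · linarith [h.nonneg (φ x)]

theorem AxL_av_apply (h : AxL_NF n) (φ : L →+* E) (x : L) : AxL_av h φ x = n (φ x) := rfl

end NF

/-! ### Elementary facts -/

theorem AxL_o2_add {L : Type} [Field L] [CharP L 2] (x y : ZMod 2) :
    o2 L (x + y) = o2 L x + o2 L y := by
  have h : ∀ x : ZMod 2, x = 0 ∨ x = 1 := by decide
  have h2 : (1 : ZMod 2) + 1 = 0 := by decide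
  rcases h x with rfl | rfl <;> rcases h y with rfl | rfl
  · simp [o2]
  · simp [o2]
  · simp [o2]
  · rw [h2]
    simp only [o2, if_true, one_ne_zero, if_false]
    exact (CharTwo.add_self_eq_zero (1 : L)).symm

theorem AxL_two (x : ZMod 2) : x = 0 ∨ x = 1 := by
  revert x
  decide

/-- polynomials approximate the integral elements -/
theorem AxL_poly {F : Type} [Field F] {P : F[X]} {v : AbsoluteValue (RatFunc F) ℝ}
    (hv : IsPl (some P) v) (hna : ∀ x y, v (x + y) ≤ max (v x) (v y)) {f : RatFunc F}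
    (hf : v f ≤ 1) : ∃ p : F[X], v (f - algebraMap F[X] (RatFunc F) p) < 1 := by
  obtain ⟨hm, hirr, hval⟩ := hv
  have hle : ∀ p : F[X], v (algebraMap F[X] (RatFunc F) p) ≤ 1 := by
    intro p
    by_cases hp : p = 0
    · rw [hp, map_zero, map_zero]
      exact zero_le_one
    · rw [hval p hp]
      exact pow_le_one₀ (by norm_num) (by norm_num)
  have hvP : v (algebraMap F[X] (RatFunc F) P) < 1 := by
    rw [hval P hm.ne_zero, multiplicity_self]
    norm_num
  have hb0 : f.denom ≠ 0 := RatFunc.denom_ne_zero f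
  have hb0' : algebraMap F[X] (RatFunc F) f.denom ≠ 0 := RatFunc.algebraMap_ne_zero hb0
  have hfe : algebraMap F[X] (RatFunc F) f.num = f * algebraMap F[X] (RatFunc F) f.denom := by
    conv_rhs => rw [← RatFunc.num_div_denom f]
    rw [RatFunc.num_div_denom, ← RatFunc.num_div_denom f]
    rw [RatFunc.num_div_denom]
    exact (div_eq_iff hb0').1 (RatFunc.num_div_denom f)
  have hPb : ¬ P ∣ f.denom := by
    intro hdvd
    have h1 : v (algebraMap F[X] (RatFunc F) f.denom) < 1 := by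
      obtain ⟨c, hc⟩ := hdvd
      rw [hc, map_mul, map_mul]
      calc v (algebraMap F[X] (RatFunc F) P) * v (algebraMap F[X] (RatFunc F) c)
          ≤ v (algebraMap F[X] (RatFunc F) P) * 1 :=
            mul_le_mul_of_nonneg_left (hle c) (v.nonneg _)
        _ < 1 := by rw [mul_one]; exact hvP
    have h2 : v (algebraMap F[X] (RatFunc F) f.num) < 1 := by
      rw [hfe, map_mul]
      calc v f * v (algebraMap F[X] (RatFunc F) f.denom)
          ≤ 1 * v (algebraMap F[X] (RatFunc F) f.denom) :=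
            mul_le_mul_of_nonneg_right hf (v.nonneg _)
        _ < 1 := by rw [one_mul]; exact h1
    have h3 : P ∣ f.num := by
      by_contra h4
      have h5 : f.num ≠ 0 := fun h6 => h4 (h6 ▸ dvd_zero P)
      rw [hval _ h5, multiplicity_eq_zero.2 h4, pow_zero] at h2
      exact lt_irrefl _ h2
    have h7 := (RatFunc.isCoprime_num_denom f).isUnit_of_dvd' h3 hdvd
    exact hirr.not_isUnit h7
  have hcop : IsCoprime P f.denom := (Irreducible.coprime_iff_not_dvd hirr).2 hPb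
  obtain ⟨c, b', hcb⟩ := hcop
  refine ⟨f.num * b', ?_⟩
  have hvb : v (algebraMap F[X] (RatFunc F) f.denom) = 1 := by
    rw [hval _ hb0, multiplicity_eq_zero.2 hPb, pow_zero]
  have h8 : (f - algebraMap F[X] (RatFunc F) (f.num * b')) *
      algebraMap F[X] (RatFunc F) f.denom = algebraMap F[X] (RatFunc F) (f.num * c) *
        algebraMap F[X] (RatFunc F) P := by
    have h9 := congrArg (algebraMap F[X] (RatFunc F)) hcb
    rw [map_add, map_mul, map_mul, map_one] at h9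
    rw [map_mul, map_mul]
    linear_combination (-1 : RatFunc F) * hfe - algebraMap F[X] (RatFunc F) f.num * h9
  have h9 : v (f - algebraMap F[X] (RatFunc F) (f.num * b')) =
      v (algebraMap F[X] (RatFunc F) (f.num * c)) * v (algebraMap F[X] (RatFunc F) P) := by
    rw [← map_mul v, ← h8, map_mul v, hvb, mul_one]
  rw [h9]
  calc _ ≤ 1 * v (algebraMap F[X] (RatFunc F) P) :=
        mul_le_mul_of_nonneg_right (hle _) (v.nonneg _)
    _ < 1 := by rw [one_mul]; exact hvP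

/-! ### The core -/

/-- the data at a finite place -/
structure AxL_Pl {F : Type} [Field F] {Ks : Type} [Field Ks] [Algebra (RatFunc F) Ks]
    [Algebra F[X] Ks] {m : ℕ} (θ : Fin m → Ks) {E : Type} [Field E] (n : E → ℝ) (ι : Ks →+* E)
    (S : Subfield E) (ϖ : F[X]) : Prop where
  nf : AxL_NF n
  irr : Irreducible ϖ
  mon : ϖ.Monic
  val : ∀ p : F[X], p ≠ 0 → n (ι (algebraMap F[X] Ks p)) = (1 / 2) ^ multiplicity ϖ p
  SK : ∀ x : RatFunc F, ι (algebraMap (RatFunc F) Ks x) ∈ S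
  Sθ : ∀ (j : Fin m) (σ : Gal(Ks/RatFunc F)), ι (σ (θ j)) ∈ S
  fro : ∃ Q : ℕ, 1 < Q ∧ ∀ y ∈ S, n y ≤ 1 → n (y ^ Q - y) < 1
  app : ∀ y ∈ S, n y ≤ 1 → ∃ c : F[X], n (y - ι (algebraMap F[X] Ks c)) < 1

section core

variable {F : Type} [Field F] {Ks : Type} [Field Ks] [Algebra (RatFunc F) Ks]
  [Algebra F[X] Ks] [IsScalarTower F[X] (RatFunc F) Ks] {m : ℕ} {θ : Fin m → Ks}

/-- automorphisms which agree on the generators -/
theorem AxL_agree {σ σ' : Gal(Ks/RatFunc F)} (h : ∀ j, σ (θ j) = σ' (θ j)) {x : Ks}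
    (hx : x ∈ adjoin (RatFunc F) (Set.range θ)) : σ x = σ' x := by
  induction hx using adjoin_induction with
  | mem x hx =>
    obtain ⟨j, rfl⟩ := hx
    exact h j
  | algebraMap x => rw [AlgEquiv.commutes, AlgEquiv.commutes]
  | add x y _ _ h1 h2 => rw [map_add, map_add, h1, h2]
  | inv x _ h1 => rw [map_inv₀, map_inv₀, h1]
  | mul x y _ _ h1 h2 => rw [map_mul, map_mul, h1, h2]

variable {E : Type} [Field E] {n : E → ℝ} {ι : Ks →+* E} {S : Subfield E} {ϖ : F[X]}

omit [IsScalarTower F[X] (RatFunc F) Ks] in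
theorem AxL_Pl.inS (h : AxL_Pl θ n ι S ϖ) (σ : Gal(Ks/RatFunc F)) {x : Ks}
    (hx : x ∈ adjoin (RatFunc F) (Set.range θ)) : ι (σ x) ∈ S := by
  induction hx using adjoin_induction with
  | mem x hx =>
    obtain ⟨j, rfl⟩ := hx
    exact h.Sθ j σ
  | algebraMap x => rw [AlgEquiv.commutes]; exact h.SK x
  | add x y _ _ h1 h2 => rw [map_add, map_add]; exact add_mem h1 h2
  | inv x _ h1 => rw [map_inv₀, map_inv₀]; exact inv_mem h1
  | mul x y _ _ h1 h2 => rw [map_mul, map_mul]; exact mul_mem h1 h2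

omit [IsScalarTower F[X] (RatFunc F) Ks] in
theorem AxL_Pl.pol (h : AxL_Pl θ n ι S ϖ) (p : F[X]) : n (ι (algebraMap F[X] Ks p)) ≤ 1 := by
  by_cases hp : p = 0
  · rw [hp, map_zero, map_zero, (h.nf.zero 0).2 rfl]
    exact zero_le_one
  · rw [h.val p hp]
    exact pow_le_one₀ (by norm_num) (by norm_num)

omit [Algebra (RatFunc F) Ks] [IsScalarTower F[X] (RatFunc F) Ks] in
theorem AxL_int' (hn : AxL_NF n) (h : ∀ p, n (ι (algebraMap F[X] Ks p)) ≤ 1) {x : Ks}
    (hx : IsIntegral F[X] x) : n (ι x) ≤ 1 := by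
  obtain ⟨p, hp, hpx⟩ := hx
  refine hn.int (ι.comp (algebraMap F[X] Ks)) h hp ?_
  rw [← hom_eval₂, hpx, map_zero]

theorem AxL_sig {σ : Gal(Ks/RatFunc F)} (p : F[X]) :
    σ (algebraMap F[X] Ks p) = algebraMap F[X] Ks p := by
  rw [IsScalarTower.algebraMap_apply F[X] (RatFunc F) Ks, AlgEquiv.commutes]

theorem AxL_sigint (σ : Gal(Ks/RatFunc F)) {x : Ks} (hx : IsIntegral F[X] x) :
    IsIntegral F[X] (σ x) := by
  obtain ⟨p, hp, hpx⟩ := hx
  refine ⟨p, hp, ?_⟩
  have h1 : algebraMap F[X] Ks = ((σ : Ks →ₐ[RatFunc F] Ks) : Ks →+* Ks).comp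
      (algebraMap F[X] Ks) := by
    refine RingHom.ext fun q => ?_
    exact (AxL_sig (σ := σ) q).symm
  have h2 : σ x = ((σ : Ks →ₐ[RatFunc F] Ks) : Ks →+* Ks) x := rfl
  rw [h2]
  conv_lhs => rw [h1]
  rw [← hom_eval₂, hpx, map_zero]

theorem AxL_root {x : Ks} {p : F[X]} (hx : x ^ 2 + x = algebraMap F[X] Ks p) :
    IsIntegral F[X] x := by
  refine ⟨X ^ 2 + (X - C p), ?_, ?_⟩
  · refine monic_X_pow_add ?_
    rw [degree_X_sub_C]
    norm_num
  · rw [eval₂_add, eval₂_pow, eval₂_sub, eval₂_X, eval₂_C, ← hx]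
    ring

end core

theorem AxL_o2_fix {F : Type} [Field F] {Ks : Type} [Field Ks] [Algebra (RatFunc F) Ks]
    (σ : Gal(Ks/RatFunc F)) (x : ZMod 2) : σ (o2 Ks x) = o2 Ks x := by
  rcases AxL_two x with rfl | rfl
  · simp [o2]
  · simp [o2]

/-- the norm of a nonzero element is a polynomial -/
theorem AxL_norm {F : Type} [Field F] {Ks : Type} [Field Ks] [Algebra (RatFunc F) Ks]
    [Algebra F[X] Ks] [IsScalarTower F[X] (RatFunc F) Ks] [CharP Ks 2] [IsGalois (RatFunc F) Ks]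
    {m : ℕ} {θ : Fin m → Ks} {d : Gal(Ks/RatFunc F) → Fin m → ZMod 2}
    (hd : ∀ σ j, σ (θ j) = θ j + o2 Ks (d σ j))
    {s : (Fin m → ZMod 2) → Gal(Ks/RatFunc F)} (hs : ∀ τ, d (s τ) = τ) {α : Ks}
    (hα : α ∈ adjoin (RatFunc F) (Set.range θ)) (hint : IsIntegral F[X] α) (h0 : α ≠ 0) :
    ∃ p : F[X], p ≠ 0 ∧ ∏ τ, s τ α = algebraMap F[X] Ks p := by
  have h1 : ∀ (σ : Gal(Ks/RatFunc F)) (τ : Fin m → ZMod 2), σ (s τ α) = s (d σ + τ) α := by
    intro σ τ
    have h2 : σ (s τ α) = (σ * s τ) α := rfl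
    rw [h2]
    refine AxL_agree (fun j => ?_) hα
    have h3 : (σ * s τ) (θ j) = σ (s τ (θ j)) := rfl
    rw [h3, hd (s τ) j, map_add, hd σ j, hd (s (d σ + τ)) j, hs, hs, AxL_o2_fix, Pi.add_apply,
      AxL_o2_add, add_assoc]
  have hfix : ∀ σ : Gal(Ks/RatFunc F), σ (∏ τ, s τ α) = ∏ τ, s τ α := by
    intro σ
    rw [map_prod]
    simp_rw [h1 σ]
    exact Fintype.prod_equiv (Equiv.addLeft (d σ)) _ _ fun τ => rfl
  obtain ⟨x, hx⟩ := IntermediateField.mem_bot.1 ((InfiniteGalois.mem_bot_iff_fixed _).2 hfix)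
  have hNint : IsIntegral F[X] (∏ τ, s τ α) :=
    IsIntegral.prod _ fun τ _ => AxL_sigint (s τ) hint
  rw [← hx] at hNint
  have hxint : IsIntegral F[X] x :=
    (isIntegral_algebraMap_iff (algebraMap (RatFunc F) Ks).injective).1 hNint
  obtain ⟨p, hp⟩ := IsIntegrallyClosed.isIntegral_iff.1 hxint
  refine ⟨p, ?_, ?_⟩
  · rintro rfl
    rw [map_zero] at hp
    rw [← hp, map_zero] at hx
    refine (Finset.prod_ne_zero_iff.2 fun τ _ => ?_) hx.symm
    exact fun h => h0 ((map_eq_zero (s τ)).1 h)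
  · rw [← hx, ← hp, ← IsScalarTower.algebraMap_apply]

/-- the core of the argument -/
theorem AxL_core (hAxF : S_AxF) {F : Type} [Field F] {Ks : Type} [Field Ks]
    [Algebra (RatFunc F) Ks]
    [Algebra F[X] Ks] [IsScalarTower F[X] (RatFunc F) Ks] [CharP Ks 2] [IsGalois (RatFunc F) Ks]
    {m : ℕ} (δ : Fin m → F[X]) (θ : Fin m → Ks)
    (hθ : ∀ j, θ j ^ 2 + θ j = algebraMap F[X] Ks (δ j))
    (d : Gal(Ks/RatFunc F) → Fin m → ZMod 2)
    (hd : ∀ σ j, σ (θ j) = θ j + o2 Ks (d σ j))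
    (s : (Fin m → ZMod 2) → Gal(Ks/RatFunc F)) (hs : ∀ τ, d (s τ) = τ)
    (hDed : IsDedekindDomain (integralClosure F[X] (adjoin (RatFunc F) (Set.range θ))))
    (hFr : IsFractionRing (integralClosure F[X] (adjoin (RatFunc F) (Set.range θ)))
      (adjoin (RatFunc F) (Set.range θ)))
    (hcl : ∀ 𝔮 : Ideal (integralClosure F[X] (adjoin (RatFunc F) (Set.range θ))),
      𝔮.IsPrime → 𝔮 ≠ ⊥ → ∃ n : ℕ, 0 < n ∧ ∃ α, 𝔮 ^ n = Ideal.span {α})
    (Pl : Type) [Finite Pl] (E : Pl → Type) [∀ P, Field (E P)] (n : ∀ P, E P → ℝ)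
    (ι : ∀ P, Ks →+* E P) (S : ∀ P, Subfield (E P)) (ϖ : Pl → F[X])
    (hϖ : Function.Injective ϖ) (hPl : ∀ P, AxL_Pl θ (n P) (ι P) (S P) (ϖ P))
    (E₀ : Type) [Field E₀] (n₀ : E₀ → ℝ) (ι₀ : Ks →+* E₀) (hn₀ : AxL_NF n₀)
    (hinv : ∀ τ x, n₀ (ι₀ (s τ x)) = n₀ (ι₀ x))
    (hdeg : ∀ p : F[X], p ≠ 0 → n₀ (ι₀ (algebraMap F[X] Ks p)) = 2 ^ p.natDegree)
    (w₁ : Pl) (T : Pl → (Fin m → ZMod 2) → F[X]) :
    ∃ f : Ks, (∀ σ : Gal(Ks/RatFunc F), d σ = 0 → σ f = f) ∧
      (∃ k, IsIntegral F[X] (algebraMap F[X] Ks (ϖ w₁) ^ k * f)) ∧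
      (∀ (P : Pl) (σ : Gal(Ks/RatFunc F)), (P ≠ w₁ ∨ d σ ≠ 0) →
        n P (ι P (σ f) - ι P (algebraMap F[X] Ks (T P (d σ)))) < 1) ∧
      ∀ σ : Gal(Ks/RatFunc F), n₀ (ι₀ (σ f)) < 1 := by
  classical
  set L := adjoin (RatFunc F) (Set.range θ) with hL
  haveI hST : IsScalarTower F[X] L Ks := IsScalarTower.of_algebraMap_eq fun _ => rfl
  have hBK : ∀ b : integralClosure F[X] L, IsIntegral F[X] (((b : L)) : Ks) := by
    intro b
    exact (b.2 : IsIntegral F[X] (b : L)).algebraMap (B := Ks)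
  have hpoly : ∀ p : F[X],
      (((algebraMap F[X] (integralClosure F[X] L) p : integralClosure F[X] L) : L) : Ks) =
        algebraMap F[X] Ks p := fun p => rfl
  -- the absolute values
  let a : Pl × (Fin m → ZMod 2) → AbsoluteValue L ℝ := fun j =>
    AxL_av (hPl j.1).nf ((ι j.1).comp (((s j.2 : Gal(Ks/RatFunc F)) : Ks →+* Ks).comp
      (algebraMap L Ks)))
  let c : (Fin m → ZMod 2) → AbsoluteValue L ℝ := fun τ =>
    AxL_av hn₀ (ι₀.comp (((s τ : Gal(Ks/RatFunc F)) : Ks →+* Ks).comp (algebraMap L Ks)))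
  have ha : ∀ P τ (x : L), a (P, τ) x = n P (ι P (s τ (x : Ks))) := fun P τ x => rfl
  have hc : ∀ τ (x : L), c τ x = n₀ (ι₀ (s τ (x : Ks))) := fun τ x => rfl
  have hbint : ∀ P τ (b : integralClosure F[X] L), n P (ι P (s τ ((b : L) : Ks))) ≤ 1 :=
    fun P τ b => AxL_int' (hPl P).nf (hPl P).pol (AxL_sigint (s τ) (hBK b))
  have hpolv : ∀ P τ (p : F[X]),
      a (P, τ) (algebraMap (integralClosure F[X] L) L (algebraMap F[X] _ p)) =
        n P (ι P (algebraMap F[X] Ks p)) := by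
    intro P τ p
    rw [ha]
    have h1 : ((algebraMap (integralClosure F[X] L) L (algebraMap F[X] _ p) : L) : Ks) =
      algebraMap F[X] Ks p := rfl
    rw [h1, AxL_sig]
  have hself : ∀ P τ,
      a (P, τ) (algebraMap (integralClosure F[X] L) L (algebraMap F[X] _ (ϖ P))) = 1 / 2 := by
    intro P τ
    rw [hpolv, (hPl P).val _ (hPl P).irr.ne_zero, multiplicity_self, pow_one]
  have hother : ∀ P P' τ, P ≠ P' →
      a (P', τ) (algebraMap (integralClosure F[X] L) L (algebraMap F[X] _ (ϖ P))) = 1 := by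
    intro P P' τ hne
    rw [hpolv, (hPl P').val _ (hPl P).irr.ne_zero, multiplicity_eq_zero.2, pow_zero]
    intro hdvd
    refine hne (hϖ ?_)
    exact (eq_of_monic_of_associated (hPl P').mon (hPl P).mon
      ((hPl P').irr.associated_of_dvd (hPl P).irr hdvd)).symm
  have H1 : ∀ j, IsNonarchimedean (a j) := by
    rintro ⟨P, τ⟩ x y
    rw [ha, ha, ha]
    have h1 : (((x + y : L)) : Ks) = (x : Ks) + (y : Ks) := rfl
    rw [h1, map_add, map_add]
    exact (hPl P).nf.add _ _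
  have H2 : ∀ j (b : integralClosure F[X] L), a j (algebraMap _ L b) ≤ 1 := by
    rintro ⟨P, τ⟩ b
    rw [ha]
    exact hbint P τ b
  have H3 : ∀ j, ∃ Q : ℕ, 1 < Q ∧ ∀ b : integralClosure F[X] L,
      a j (algebraMap _ L (b ^ Q - b)) < 1 := by
    rintro ⟨P, τ⟩
    obtain ⟨Q, hQ1, hQ⟩ := (hPl P).fro
    refine ⟨Q, hQ1, fun b => ?_⟩
    rw [ha]
    have h1 : ((algebraMap (integralClosure F[X] L) L (b ^ Q - b) : L) : Ks) =
      ((b : L) : Ks) ^ Q - ((b : L) : Ks) := rfl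
    rw [h1, map_sub, map_sub, map_pow, map_pow]
    exact hQ _ ((hPl P).inS (s τ) (b : L).2) (hbint P τ b)
  have H4 : ∀ j, ∃ b : integralClosure F[X] L, b ≠ 0 ∧ a j (algebraMap _ L b) < 1 := by
    rintro ⟨P, τ⟩
    refine ⟨algebraMap F[X] _ (ϖ P), ?_, ?_⟩
    · intro h0
      have h1 := hself P τ
      rw [h0, map_zero, map_zero] at h1
      norm_num at h1
    · rw [hself]
      norm_num
  have H5 : ∀ j j', j ≠ j' → ∃ b : integralClosure F[X] L,
      a j (algebraMap _ L b) < 1 ∧ a j' (algebraMap _ L b) = 1 := by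
    rintro ⟨P, τ⟩ ⟨P', τ'⟩ hne
    by_cases hPP : P = P'
    · subst hPP
      have hττ : ∃ j, τ j ≠ τ' j := by
        by_contra hcon
        push_neg at hcon
        exact hne (by rw [funext hcon])
      obtain ⟨j, hj⟩ := hττ
      have hθint : IsIntegral F[X] (θ j) := AxL_root (hθ j)
      have hθL : θ j ∈ L := subset_adjoin _ _ ⟨j, rfl⟩
      obtain ⟨p, hp⟩ := (hPl P).app (ι P (θ j)) (by
        have := (hPl P).Sθ j 1
        exact this) (AxL_int' (hPl P).nf (hPl P).pol hθint)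
      have hoL : ∀ x : ZMod 2, o2 Ks x ∈ L := by
        intro x
        rcases AxL_two x with rfl | rfl
        · simp [o2]
        · simp [o2]
      have hoint : ∀ x : ZMod 2, IsIntegral F[X] (o2 Ks x) := by
        intro x
        rcases AxL_two x with rfl | rfl
        · simp only [o2, if_true]
          exact isIntegral_zero
        · simp only [o2, one_ne_zero, if_false]
          exact isIntegral_one
      have hpL : algebraMap F[X] Ks p ∈ L := by
        rw [IsScalarTower.algebraMap_apply F[X] (RatFunc F) Ks]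
        exact L.algebraMap_mem _
      have hxint : IsIntegral F[X] (θ j + algebraMap F[X] Ks p + o2 Ks (τ j)) :=
        (hθint.add isIntegral_algebraMap).add (hoint _)
      let x : L := ⟨θ j + algebraMap F[X] Ks p + o2 Ks (τ j),
        add_mem (add_mem hθL hpL) (hoL _)⟩
      have hxi : IsIntegral F[X] x :=
        (isIntegral_algebraMap_iff (algebraMap L Ks).injective).1 hxint
      have hval : ∀ ρ : Fin m → ZMod 2, s ρ (x : Ks) =
          (θ j + algebraMap F[X] Ks p) + (o2 Ks (ρ j) + o2 Ks (τ j)) := by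
        intro ρ
        have h1 : (x : Ks) = θ j + algebraMap F[X] Ks p + o2 Ks (τ j) := rfl
        rw [h1, map_add, map_add, hd, hs, AxL_sig, AxL_o2_fix]
        ring
      have hch : θ j + algebraMap F[X] Ks p = θ j - algebraMap F[X] Ks p :=
        (CharTwo.sub_eq_add _ _).symm
      have hlt : n P (ι P (θ j + algebraMap F[X] Ks p)) < 1 := by
        rw [hch, map_sub]
        exact hp
      refine ⟨⟨x, hxi⟩, ?_, ?_⟩
      · rw [ha]
        have h1 : ((algebraMap (integralClosure F[X] L) L ⟨x, hxi⟩ : L) : Ks) = (x : Ks) := rfl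
        rw [h1, hval, CharTwo.add_self_eq_zero, add_zero]
        exact hlt
      · rw [ha]
        have h1 : ((algebraMap (integralClosure F[X] L) L ⟨x, hxi⟩ : L) : Ks) = (x : Ks) := rfl
        have h2 : τ' j + τ j = 1 := by
          have h3 : ∀ x y : ZMod 2, x ≠ y → y + x = 1 := by decide
          exact h3 _ _ hj
        have h4 : o2 Ks (1 : ZMod 2) = 1 := by simp [o2]
        rw [h1, hval, ← AxL_o2_add, h2, h4, map_add, map_one]
        exact (hPl P).nf.one_add hlt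
    · refine ⟨algebraMap F[X] _ (ϖ P), ?_, ?_⟩
      · rw [hself]
        norm_num
      · exact hother P P' τ' hPP
  have H6 : ∀ α : integralClosure F[X] L, α ≠ 0 → a (w₁, 0) (algebraMap _ L α) < 1 →
      ∀ i, 1 < c i (algebraMap _ L α) := by
    intro α hα0 hα i
    have hαK : ((α : L) : Ks) ≠ 0 := by
      intro h1
      refine hα0 (Subtype.ext (Subtype.ext ?_))
      exact h1
    obtain ⟨p, hp0, hp⟩ := AxL_norm hd hs (α : L).2 (hBK α) hαK
    have h1 : n w₁ (ι w₁ (algebraMap F[X] Ks p)) < 1 := by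
      rw [← hp, map_prod, (hPl w₁).nf.prod]
      have h2 : ∏ τ, n w₁ (ι w₁ (s τ ((α : L) : Ks))) =
          n w₁ (ι w₁ (s 0 ((α : L) : Ks))) *
            ∏ τ ∈ Finset.univ.erase 0, n w₁ (ι w₁ (s τ ((α : L) : Ks))) :=
        (Finset.mul_prod_erase _ _ (Finset.mem_univ _)).symm
      rw [h2]
      have h3 : ∏ τ ∈ Finset.univ.erase (0 : Fin m → ZMod 2),
          n w₁ (ι w₁ (s τ ((α : L) : Ks))) ≤ 1 :=
        Finset.prod_le_one (fun τ _ => (hPl w₁).nf.nonneg _) fun τ _ => hbint w₁ τ α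
      have h4 : n w₁ (ι w₁ (s 0 ((α : L) : Ks))) < 1 := by
        rw [ha] at hα
        exact hα
      calc _ ≤ n w₁ (ι w₁ (s 0 ((α : L) : Ks))) * 1 :=
            mul_le_mul_of_nonneg_left h3 ((hPl w₁).nf.nonneg _)
        _ < 1 := by rw [mul_one]; exact h4
    have h5 : ϖ w₁ ∣ p := by
      by_contra h6
      rw [(hPl w₁).val p hp0, multiplicity_eq_zero.2 h6, pow_zero] at h1
      exact lt_irrefl _ h1
    have h6 : 1 ≤ p.natDegree :=
      (hPl w₁).irr.natDegree_pos.trans_le (natDegree_le_of_dvd h5 hp0)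
    have h7 : 1 < n₀ (ι₀ (algebraMap F[X] Ks p)) := by
      rw [hdeg p hp0]
      exact one_lt_pow₀ (by norm_num) (by omega)
    have h8 : n₀ (ι₀ (algebraMap F[X] Ks p)) =
        n₀ (ι₀ ((α : L) : Ks)) ^ Fintype.card (Fin m → ZMod 2) := by
      rw [← hp, map_prod, hn₀.prod, Finset.prod_congr rfl fun τ _ => hinv τ ((α : L) : Ks),
        Finset.prod_const, Finset.card_univ]
    rw [hc, hinv]
    by_contra hcon
    rw [not_lt] at hcon
    rw [h8] at h7
    exact absurd h7 (not_lt.2 (pow_le_one₀ (hn₀.nonneg _) hcon))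
  have H7 : a (w₁, 0) (algebraMap (integralClosure F[X] L) L (algebraMap F[X] _ (ϖ w₁))) < 1 := by
    rw [hself]
    norm_num
  obtain ⟨f, k, ⟨b, hb⟩, hf1, hf2⟩ := hAxF (integralClosure F[X] L) L
    (Pl × (Fin m → ZMod 2)) a H1 H2 H3 H4 H5 (Fin m → ZMod 2) c (w₁, 0) hcl H6
    (fun j => algebraMap F[X] _ (T j.1 j.2)) (algebraMap F[X] _ (ϖ w₁)) H7
  have hsig : ∀ σ : Gal(Ks/RatFunc F), σ (f : Ks) = s (d σ) (f : Ks) := by
    intro σ
    refine AxL_agree (fun j => ?_) f.2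
    rw [hd, hd, hs]
  refine ⟨f, ?_, ⟨k, ?_⟩, ?_, ?_⟩
  · intro σ hσ
    have h1 : σ (f : Ks) = (1 : Gal(Ks/RatFunc F)) (f : Ks) := by
      refine AxL_agree (fun j => ?_) f.2
      rw [hd, hσ]
      simp [o2]
    exact h1
  · have h1 := hBK b
    have h2 : ((b : L) : Ks) = algebraMap F[X] Ks (ϖ w₁) ^ k * (f : Ks) :=
      congrArg (fun x : L => (x : Ks)) hb
    rw [← h2]
    exact h1
  · intro P σ hPσ
    have h1 : (P, d σ) ≠ (w₁, (0 : Fin m → ZMod 2)) := by
      intro h2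
      rw [Prod.mk.injEq] at h2
      rcases hPσ with h3 | h3
      · exact h3 h2.1
      · exact h3 h2.2
    have h2 := hf1 (P, d σ) h1
    rw [ha] at h2
    have h3 : (((f - algebraMap (integralClosure F[X] L) L (algebraMap F[X] _ (T P (d σ))) : L)) :
      Ks) = (f : Ks) - algebraMap F[X] Ks (T P (d σ)) := rfl
    rw [h3, map_sub, map_sub, AxL_sig, ← hsig] at h2
    exact h2
  · intro σ
    have h1 := hf2 (d σ)
    rw [hc, ← hsig] at h1
    exact h1

/-! ### The data at the places -/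

theorem AxL_nf (hLc2 : S_Lc2) {F : Type} [Field F] [Finite F] [CharP F 2]
    {v : AbsoluteValue (RatFunc F) ℝ} {d : ℕ} {ϖ : RatFunc F} {R : Finset (RatFunc F)}
    (h : LF v d ϖ R) : AxL_NF (nm v) := by
  obtain ⟨h1, h2, h3, h4, -⟩ := hLc2 F v d ϖ R h
  exact ⟨h1, h2, h3, h4⟩

theorem AxL_emb {F : Type} [Field F] {v : AbsoluteValue (RatFunc F) ℝ}
    (ι : Kgs F →ₐ[RatFunc F] Kvs v) (x : RatFunc F) :
    (ι : Kgs F →+* Kvs v) (algebraMap (RatFunc F) (Kgs F) x) =
      algebraMap v.Completion (Kvs v) (algebraMap (RatFunc F) v.Completion x) := by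
  rw [← IsScalarTower.algebraMap_apply]
  exact ι.commutes x

theorem AxL_embp {F : Type} [Field F] {v : AbsoluteValue (RatFunc F) ℝ}
    (ι : Kgs F →ₐ[RatFunc F] Kvs v) (p : F[X]) :
    (ι : Kgs F →+* Kvs v) (algebraMap F[X] (Kgs F) p) =
      algebraMap v.Completion (Kvs v) (algebraMap (RatFunc F) v.Completion
        (algebraMap F[X] (RatFunc F) p)) := by
  rw [← AxL_emb, ← IsScalarTower.algebraMap_apply F[X] (RatFunc F) (Kgs F)]

theorem AxL_nmv (hLc1 : S_Lc1) (hLc2 : S_Lc2) {F : Type} [Field F] [Finite F] [CharP F 2]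
    {v : AbsoluteValue (RatFunc F) ℝ} {d : ℕ} {ϖ : RatFunc F} {R : Finset (RatFunc F)}
    (h : LF v d ϖ R) (ι : Kgs F →ₐ[RatFunc F] Kvs v) (p : F[X]) :
    nm v ((ι : Kgs F →+* Kvs v) (algebraMap F[X] (Kgs F) p)) =
      v (algebraMap F[X] (RatFunc F) p) := by
  rw [AxL_embp, (hLc2 F v d ϖ R h).2.2.2.2.1, (hLc1 F v d ϖ R h).1]

theorem AxL_mkPl (hLc1 : S_Lc1) (hLc2 : S_Lc2) (hLfP : S_LfP) {F : Type} [Field F] [Finite F]
    [CharP F 2] {m : ℕ} {θ : Fin m → Kgs F} {δ : Fin m → F[X]}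
    (hθ : ∀ j, θ j ^ 2 + θ j = algebraMap F[X] (Kgs F) (δ j)) {P : F[X]}
    {v : AbsoluteValue (RatFunc F) ℝ} (hv : IsPl (some P) v) (ι : Kgs F →ₐ[RatFunc F] Kvs v)
    (hx : ∀ j, ∃ x : v.Completion, x ^ 2 + x = algebraMap (RatFunc F) _
      (algebraMap F[X] (RatFunc F) (δ j))) :
    AxL_Pl θ (nm v) (ι : Kgs F →+* Kvs v) (algebraMap v.Completion (Kvs v)).fieldRange P := by
  obtain ⟨R, hR⟩ := hLfP F P v hv
  have hnf := AxL_nf hLc2 hR
  obtain ⟨l1, l2, l3, l4, l5, l6, l7, -⟩ := hLc1 F v _ _ R hR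
  obtain ⟨m1, m2, m3, m4, m5, m6, m7, m8, m9⟩ := hLc2 F v _ _ R hR
  haveI : CharP (Kvs v) 2 := m9
  refine ⟨hnf, hv.2.1, hv.1, ?_, ?_, ?_, ?_, ?_⟩
  · intro p hp
    rw [AxL_nmv hLc1 hLc2 hR, hv.2.2 p hp]
  · intro x
    rw [AxL_emb]
    exact ⟨_, rfl⟩
  · intro j σ
    obtain ⟨x, hx⟩ := hx j
    have h1 : σ (θ j) ^ 2 + σ (θ j) = algebraMap F[X] (Kgs F) (δ j) := by
      rw [← map_pow, ← map_add, hθ, AxL_sig]
    have h2 : (ι : Kgs F →+* Kvs v) (σ (θ j)) ^ 2 + (ι : Kgs F →+* Kvs v) (σ (θ j)) =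
        algebraMap v.Completion (Kvs v) x ^ 2 + algebraMap v.Completion (Kvs v) x := by
      rw [← map_pow, ← map_add, h1, AxL_embp, ← hx, map_add, map_pow]
    have h3 : ((ι : Kgs F →+* Kvs v) (σ (θ j)) - algebraMap v.Completion (Kvs v) x) *
        ((ι : Kgs F →+* Kvs v) (σ (θ j)) - (algebraMap v.Completion (Kvs v) x + 1)) = 0 := by
      have h4 : (2 : Kvs v) = 0 := CharTwo.two_eq_zero
      linear_combination h2 + (algebraMap v.Completion (Kvs v) x ^ 2 -
        (ι : Kgs F →+* Kvs v) (σ (θ j)) * algebraMap v.Completion (Kvs v) x -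
        (ι : Kgs F →+* Kvs v) (σ (θ j)) + algebraMap v.Completion (Kvs v) x) * h4
    rcases mul_eq_zero.1 h3 with h4 | h4
    · rw [sub_eq_zero.1 h4]
      exact ⟨_, rfl⟩
    · rw [sub_eq_zero.1 h4]
      exact ⟨x + 1, by rw [map_add, map_one]⟩
  · refine ⟨Nat.card F ^ P.natDegree, ?_, ?_⟩
    · exact Nat.one_lt_pow hR.dpos.ne' Finite.one_lt_card
    · rintro y ⟨z, rfl⟩ hy
      rw [m5] at hy
      rw [← map_pow, ← map_sub, m5]
      exact l6 z hy
  · rintro y ⟨z, rfl⟩ hy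
    rw [m5] at hy
    obtain ⟨r, hr, hzr⟩ := l5 z hy
    obtain ⟨p, hp⟩ := AxL_poly hv hR.na (hR.int r hr)
    refine ⟨p, ?_⟩
    have h1 : algebraMap v.Completion (Kvs v) z -
        (ι : Kgs F →+* Kvs v) (algebraMap F[X] (Kgs F) p) =
        algebraMap v.Completion (Kvs v) (z - algebraMap (RatFunc F) v.Completion r) +
        algebraMap v.Completion (Kvs v) (algebraMap (RatFunc F) v.Completion
          (r - algebraMap F[X] (RatFunc F) p)) := by
      rw [AxL_embp, ← map_add, map_sub (algebraMap (RatFunc F) v.Completion), sub_add_sub_cancel,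
        map_sub]
    rw [h1]
    refine (m4 _ _).trans_lt (max_lt ?_ ?_)
    · rw [m5]
      exact hzr
    · rw [m5, l1]
      exact hp

/-- integrality over the ring of functions regular outside `PP` and infinity -/
theorem AxL_AS {F : Type} [Field F] {PP : Finset F[X]} {P : F[X]} (hP : P ∈ PP) (hP0 : P ≠ 0)
    {f : Kgs F} {k : ℕ} (hf : IsIntegral F[X] (algebraMap F[X] (Kgs F) P ^ k * f)) :
    IsIntegral (AS PP) f := by
  classical
  have hmem : ∀ p : F[X], algebraMap F[X] (RatFunc F) p ∈ AS PP := fun p => ⟨0, p, by simp⟩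
  have hu : (algebraMap F[X] (RatFunc F) P)⁻¹ ∈ AS PP := by
    refine ⟨1, ∏ Q ∈ PP.erase P, Q, ?_⟩
    rw [pow_one, ← Finset.mul_prod_erase _ _ hP, map_mul,
      inv_mul_cancel_left₀ (RatFunc.algebraMap_ne_zero hP0)]
  let φ : F[X] →+* AS PP := (algebraMap F[X] (RatFunc F)).codRestrict (AS PP) hmem
  have hcomp : (algebraMap (AS PP) (Kgs F)).comp φ = algebraMap F[X] (Kgs F) := by
    refine RingHom.ext fun p => ?_
    rw [IsScalarTower.algebraMap_apply F[X] (RatFunc F) (Kgs F)]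
    rfl
  have h1 : IsIntegral (AS PP) (algebraMap F[X] (Kgs F) P ^ k * f) := by
    obtain ⟨p, hp, hpx⟩ := hf
    refine ⟨p.map φ, hp.map φ, ?_⟩
    rw [eval₂_map, hcomp]
    exact hpx
  have h2 : f = algebraMap (AS PP) (Kgs F) (⟨_, hu⟩ ^ k) * (algebraMap F[X] (Kgs F) P ^ k * f) := by
    have h3 : algebraMap (AS PP) (Kgs F) ⟨_, hu⟩ * algebraMap F[X] (Kgs F) P = 1 := by
      have h4 : algebraMap (AS PP) (Kgs F) ⟨_, hu⟩ =
        algebraMap (RatFunc F) (Kgs F) (algebraMap F[X] (RatFunc F) P)⁻¹ := rfl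
      rw [h4, IsScalarTower.algebraMap_apply F[X] (RatFunc F) (Kgs F), ← map_mul,
        inv_mul_cancel₀ (RatFunc.algebraMap_ne_zero hP0), map_one]
    rw [map_pow, ← mul_assoc, ← mul_pow, h3, one_pow, one_mul]
  rw [h2]
  exact isIntegral_algebraMap.mul h1

theorem tAxL (hLc1 : S_Lc1) (hLc2 : S_Lc2) (hLfP : S_LfP) (hLfI : S_LfI) (hHas : S_Has)
    (hRes : S_Res) (hEps : S_Eps) (hAxF : S_AxF) (hAxB : S_AxB) : S_AxL := by
  intro F _ _ _ κ PP hPP A hA m hm δ hδ hg w₁ v₀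
  classical
  haveI hK2 : CharP (RatFunc F) 2 := charP_of_injective_algebraMap
    (algebraMap F (RatFunc F)).injective 2
  haveI hKs2 : CharP (Kgs F) 2 := charP_of_injective_algebraMap
    (algebraMap (RatFunc F) (Kgs F)).injective 2
  -- the roots
  have hroot : ∀ j, ∃ θ : Kgs F, θ ^ 2 + θ =
      algebraMap (RatFunc F) (Kgs F) (algebraMap F[X] (RatFunc F) (δ j)) := by
    intro j
    set x := algebraMap (RatFunc F) (Kgs F) (algebraMap F[X] (RatFunc F) (δ j)) with hx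
    have hdeg : (X ^ 2 + (X - C x) : (Kgs F)[X]).degree = 2 := by
      have h1 : ((X - C x) : (Kgs F)[X]).degree < ((X : (Kgs F)[X]) ^ 2).degree := by
        rw [degree_X_sub_C, degree_X_pow]
        norm_num
      rw [degree_add_eq_left_of_degree_lt h1, degree_X_pow]
      rfl
    have hsep : (X ^ 2 + (X - C x) : (Kgs F)[X]).Separable := by
      refine ⟨0, 1, ?_⟩
      have h2 : ((2 : ℕ) : (Kgs F)[X]) = 0 := by
        have h3 : ((2 : ℕ) : Kgs F) = 0 := CharP.cast_eq_zero (Kgs F) 2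
        rw [← map_natCast (C : Kgs F →+* (Kgs F)[X]), h3, map_zero]
      rw [derivative_add, derivative_sub, derivative_X_pow, derivative_X, derivative_C,
        map_natCast, h2]
      ring
    obtain ⟨θ, hθ⟩ := IsSepClosed.exists_root _ (by rw [hdeg]; norm_num) hsep
    refine ⟨θ, ?_⟩
    rw [IsRoot.def, eval_add, eval_sub, eval_pow, eval_X, eval_C] at hθ
    linear_combination hθ
  choose θ hθ using hroot
  have hθ' : ∀ j, θ j ^ 2 + θ j = algebraMap F[X] (Kgs F) (δ j) := by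
    intro j
    rw [hθ, ← IsScalarTower.algebraMap_apply]
  choose g hg' using hg
  -- infinity
  have hplI : IsPl none (A.av none) := hA.pl none
  obtain ⟨R₀, hR₀⟩ := hLfI F (A.av none) hplI
  have hnf₀ := AxL_nf hLc2 hR₀
  obtain ⟨a1, a2, a3, a4, a5, a6, a7, a8, a9⟩ := hLc2 F _ _ _ R₀ hR₀
  obtain ⟨r1, r2, r3, r4⟩ := hRes (RatFunc F) (Kgs F) (A.av none).Completion (Kvs (A.av none))
    (A.emb none)
  obtain ⟨b1, b2, b3, b4⟩ := hHas (RatFunc F) (Kgs F)
  -- finite places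
  have hpl : ∀ P : PP, IsPl (some (P : F[X])) (A.av (some P)) := fun P => hA.pl (some P)
  have hPl : ∀ P : PP, AxL_Pl θ (nm (A.av (some P)))
      (A.emb (some P) : Kgs F →+* Kvs (A.av (some P)))
      (algebraMap (A.av (some P)).Completion (Kvs (A.av (some P)))).fieldRange (P : F[X]) :=
    fun P => AxL_mkPl hLc1 hLc2 hLfP hθ' (hpl P) (A.emb (some P)) (hδ P)
  -- the polynomial at v₀
  obtain ⟨T₀, hT₀⟩ : ∃ T₀ : F[X], eps (algebraMap (RatFunc F) (A.av (some v₀)).Completion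
      (algebraMap F[X] (RatFunc F) T₀)) = 1 := by
    obtain ⟨R, hR⟩ := hLfP F _ _ (hpl v₀)
    obtain ⟨l1, -⟩ := hLc1 F _ _ _ R hR
    obtain ⟨e1, e2, ⟨f, hf, hf1⟩, -⟩ := hEps F _ _ _ R hR
    obtain ⟨p, hp⟩ := AxL_poly (hpl v₀) hR.na hf
    refine ⟨p, ?_⟩
    rw [← hf1]
    refine (e2 _ _ ?_ ?_).symm
    · rw [l1]; exact hf
    · rw [← map_sub, l1]; exact hp
  let T : PP → (Fin m → ZMod 2) → F[X] := fun P τ =>
    if P = v₀ ∧ (∀ j, τ j = 1) then T₀ else 0
  haveI hfd : FiniteDimensional (RatFunc F) (adjoin (RatFunc F) (Set.range θ)) :=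
    finiteDimensional_adjoin fun x _ => Algebra.IsIntegral.isIntegral x
  obtain ⟨hDed, hFr, hcl⟩ := hAxB F (adjoin (RatFunc F) (Set.range θ)) hfd
  obtain ⟨f, hf1, ⟨k, hf2⟩, hf3, hf4⟩ := AxL_core hAxF δ θ hθ'
    (fun σ j => hAS (RatFunc F) (Kgs F) (algebraMap F[X] (RatFunc F) (δ j)) σ)
    (fun σ j => b2 _ (θ j) (hθ j) σ)
    (fun τ => rsH (M := (A.av none).Completion) (A.emb none) (g τ))
    (fun τ => funext fun j => by rw [r4 _ _ ⟨θ j, hθ j⟩]; exact hg' τ j)
    hDed hFr hcl PP (fun P => Kvs (A.av (some P))) (fun P => nm (A.av (some P)))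
    (fun P => (A.emb (some P) : Kgs F →+* Kvs (A.av (some P))))
    (fun P => (algebraMap (A.av (some P)).Completion (Kvs (A.av (some P)))).fieldRange)
    (fun P => (P : F[X])) Subtype.val_injective hPl (Kvs (A.av none)) (nm (A.av none))
    (A.emb none : Kgs F →+* Kvs (A.av none)) hnf₀
    (fun τ x => by
      have h1 := r2 (g τ) x
      have h2 := a6 (g τ) (A.emb none x)
      rw [h1] at h2
      exact h2)
    (fun p hp => by
      rw [AxL_nmv hLc1 hLc2 hR₀, hplI _ (RatFunc.algebraMap_ne_zero hp),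
        RatFunc.intDegree_polynomial, zpow_natCast]) w₁ T
  refine ⟨f, fun σ hσ => hf1 σ (funext hσ),
    AxL_AS w₁.2 (hPP _ w₁.2).2.ne_zero hf2, fun P σ hPσ => ?_, hf4⟩
  refine ⟨T P (fun j => hAS (RatFunc F) (Kgs F) (algebraMap F[X] (RatFunc F) (δ j)) σ), ?_, ?_⟩
  · have h1 := hf3 P σ (hPσ.imp_right fun ⟨j, hj⟩ h2 => hj (congrFun h2 j))
    rw [AxL_embp, ← IsScalarTower.algebraMap_apply] at h1
    exact h1
  · by_cases hc : P = v₀ ∧ (∀ j, hAS (RatFunc F) (Kgs F)
      (algebraMap F[X] (RatFunc F) (δ j)) σ = 1)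
    · have h1 : T P (fun j => hAS (RatFunc F) (Kgs F) (algebraMap F[X] (RatFunc F) (δ j)) σ) = T₀ :=
        if_pos hc
      rw [h1, if_pos hc]
      obtain ⟨rfl, -⟩ := hc
      exact hT₀
    · have h1 : T P (fun j => hAS (RatFunc F) (Kgs F) (algebraMap F[X] (RatFunc F) (δ j)) σ) = 0 :=
        if_neg hc
      rw [h1, if_neg hc, map_zero, map_zero]
      exact if_pos ⟨0, by simp⟩

end Pool.Agent.MP72W
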