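import Pool.Agent.Lib.MP_72e2e6_nt.W2.G.Spec

/-!
# MP_72e2e6_nt, theorem T3, G/AxZ: the roots and the crossed homomorphism (helper59)
-/

namespace Pool.Agent.MP72W

open Polynomial IntermediateField

section field

variable {L : Type} [Field L]

private theorem axz_root (h2 : (2 : L) = 0) {f x y : L} (hx : x ^ 2 + x = f)
    (hy : y ^ 2 + y = f) : x = y ∨ x = y + 1 := by
  have h : (x - y) * (x - (y + 1)) = 0 := by
    linear_combination hx - hy + (y ^ 2 - x * y - x + y) * h2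
  rcases mul_eq_zero.1 h with h | h
  · exact Or.inl (sub_eq_zero.1 h)
  · exact Or.inr (sub_eq_zero.1 h)

private theorem axz_o2_zero : o2 L 0 = 0 := if_pos rfl

private theorem axz_o2_one : o2 L 1 = 1 := if_neg (by decide)

private theorem axz_o2_add (h2 : (2 : L) = 0) (a b : ZMod 2) : o2 L (a + b) = o2 L a + o2 L b := by
  have key : ∀ x : ZMod 2, x = 0 ∨ x = 1 := by decide
  rcases key a with ha | ha <;> rcases key b with hb | hb <;> subst ha <;> subst hb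
  · rw [add_zero, axz_o2_zero, add_zero]
  · rw [zero_add, axz_o2_zero, zero_add]
  · rw [add_zero, axz_o2_zero, add_zero]
  · have h : (1 : ZMod 2) + 1 = 0 := by decide
    rw [h, axz_o2_zero, axz_o2_one]
    linear_combination - h2

private theorem axz_o2_inj {a b : ZMod 2} (h : o2 L a = o2 L b) : a = b := by
  have key : ∀ x : ZMod 2, x = 0 ∨ x = 1 := by decide
  rcases key a with ha | ha <;> rcases key b with hb | hb <;> subst ha <;> subst hb
  · rfl
  · rw [axz_o2_zero, axz_o2_one] at h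
    exact absurd h zero_ne_one
  · rw [axz_o2_zero, axz_o2_one] at h
    exact absurd h.symm zero_ne_one
  · rfl

private theorem axz_as [IsSepClosed L] (h2 : (2 : L) = 0) (m : L) : ∃ θ : L, θ ^ 2 + θ = m := by
  obtain ⟨x, hx⟩ := IsSepClosed.exists_root_C_mul_X_pow_add_C_mul_X_add_C (n := 2) (1 : L) 1 m
    (by exact_mod_cast h2) le_rfl one_ne_zero
  refine ⟨x, ?_⟩
  linear_combination hx - m * h2

end field

section gal

variable {K L : Type} [Field K] [Field L] [Algebra K L]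

private theorem axz_map_o2 (g : Gal(L/K)) (x : ZMod 2) : g (o2 L x) = o2 L x := by
  unfold o2
  split_ifs
  · exact map_zero g
  · exact map_one g

private theorem axz_coe_o2 (M : IntermediateField K L) (x : ZMod 2) :
    ((o2 M x : M) : L) = o2 L x := by
  unfold o2
  split_ifs
  · rfl
  · rfl

private theorem axz_two [CharP K 2] : (2 : L) = 0 := by
  have h : (2 : K) = 0 := CharP.cast_eq_zero K 2
  have h' : algebraMap K L 2 = algebraMap K L 0 := by rw [h]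
  rw [map_zero, map_ofNat] at h'
  exact h'

private theorem axz_open [IsGalois K L] (g : Gal(L/K)) (x : L) :
    IsOpen {g' : Gal(L/K) | g' x = g x} := by
  have h : {g' : Gal(L/K) | g' x = g x} = {g' | g⁻¹ * g' ∈ MulAction.stabilizer Gal(L/K) x} := by
    ext g'
    constructor
    · intro h
      show (g⁻¹ * g') x = x
      have h' : g' x = g x := h
      rw [AlgEquiv.mul_apply, h', ← AlgEquiv.mul_apply, inv_mul_cancel]
      rfl
    · intro h
      have h' : (g⁻¹ * g') x = x := h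
      have h5 : g' = g * (g⁻¹ * g') := by group
      show g' x = g x
      conv_lhs => rw [h5]
      rw [AlgEquiv.mul_apply, h']
  rw [h]
  exact (stabilizer_isOpen_of_isIntegral (K := K) x).preimage (continuous_const_mul g⁻¹)

end gal

private theorem axz_core (hHas : S_Has) (hTwb : S_Twb) (A K Ks : Type) [CommRing A] [Field K]
    [Algebra A K] [Field Ks] [Algebra K Ks] [Algebra A Ks] [IsScalarTower A K Ks] [CharP K 2]
    [IsGalois K Ks] [IsSepClosed Ks] (m : ℕ) (δ : Fin m → K)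
    (hδ : ∀ j, ∃ θ : Om A K Ks, θ ^ 2 + θ = algebraMap K (Om A K Ks) (δ j)) (f : Ks)
    (H1 : ∀ σ : Gal(Ks/K), (∀ j, hAS K Ks (δ j) σ = 0) → σ f = f) (H2 : IsIntegral A f)
    (H3 : ∀ τ : Fin m → ZMod 2, ∃ σ : Gal(Ks/K), ∀ j, hAS K Ks (δ j) σ = τ j)
    (N : Ks → ℝ) (hN : ∀ θ : Ks, N (θ ^ 2 + θ) < 1 → N θ < 1 ∨ N (θ + 1) < 1)
    (H4 : ∀ σ : Gal(Ks/K), N (σ f) < 1) :
    ∃ (Θ : (Fin m → ZMod 2) → Om A K Ks)
      (ζ : Gal((Om A K Ks)/K) → (Fin m → ZMod 2) → ZMod 2), IsLocallyConstant ζ ∧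
      (∀ g g' τ, ζ (g * g') τ =
        ζ g τ + ζ g' (fun j => τ j + hAS K (Om A K Ks) (δ j) g)) ∧
      (∀ (g : Gal((Om A K Ks)/K)) τ,
        g (Θ (fun j => τ j + hAS K (Om A K Ks) (δ j) g)) = Θ τ + o2 _ (ζ g τ)) ∧
      (∀ τ (σ : Gal(Ks/K)), (∀ j, hAS K Ks (δ j) σ = τ j) →
        ((Θ τ : Ks)) ^ 2 + (Θ τ : Ks) = σ f) ∧
      ∀ τ, N (Θ τ : Ks) < 1 := by
  classical
  obtain ⟨-, -, -, -, hgal, hroot⟩ := hTwb A K Ks
  have : IsGalois K (Om A K Ks) := hgal
  have h2K : (2 : Ks) = 0 := axz_two (K := K)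
  have h2O : (2 : Om A K Ks) = 0 := axz_two (K := K)
  obtain ⟨hs1, hs2, -, -⟩ := hHas K Ks
  obtain ⟨ho1, ho2, -, -⟩ := hHas K (Om A K Ks)
  have hrs : ∀ (σ : Gal(Ks/K)) (x : Om A K Ks),
      ((AlgEquiv.restrictNormalHom (Om A K Ks) σ x : Om A K Ks) : Ks) = σ (x : Ks) := fun σ x =>
    AlgEquiv.restrictNormalHom_apply (Om A K Ks) σ x
  have hcoe : ∀ j (θ : Om A K Ks), θ ^ 2 + θ = algebraMap K (Om A K Ks) (δ j) →
      (θ : Ks) ^ 2 + (θ : Ks) = algebraMap K Ks (δ j) := by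
    intro j θ hθ
    exact congrArg (fun x : Om A K Ks => (x : Ks)) hθ
  have hδ' : ∀ j, ∃ θ : Ks, θ ^ 2 + θ = algebraMap K Ks (δ j) := by
    intro j
    obtain ⟨θ, hθ⟩ := hδ j
    exact ⟨θ, hcoe j θ hθ⟩
  have hres : ∀ (σ : Gal(Ks/K)) j, hAS K Ks (δ j) σ =
      hAS K (Om A K Ks) (δ j) (AlgEquiv.restrictNormalHom (Om A K Ks) σ) := by
    intro σ j
    obtain ⟨θ, hθ⟩ := hδ j
    have e1 := ho2 (δ j) θ hθ (AlgEquiv.restrictNormalHom (Om A K Ks) σ)
    have e2 := hs2 (δ j) (θ : Ks) (hcoe j θ hθ) σ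
    have e3 := hrs σ θ
    rw [e1, e2] at e3
    have e4 : (θ : Ks) + ((o2 (Om A K Ks) (hAS K (Om A K Ks) (δ j)
        (AlgEquiv.restrictNormalHom (Om A K Ks) σ)) : Om A K Ks) : Ks) =
        (θ : Ks) + o2 Ks (hAS K Ks (δ j) σ) := e3
    rw [axz_coe_o2] at e4
    exact (axz_o2_inj (add_left_cancel e4)).symm
  have hadd : ∀ (σ σ' : Gal(Ks/K)) j, hAS K Ks (δ j) (σ * σ') =
      hAS K Ks (δ j) σ + hAS K Ks (δ j) σ' := fun σ σ' j => (hs1 _ (hδ' j)).add σ σ'
  have hone : ∀ j, hAS K Ks (δ j) 1 = 0 := by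
    intro j
    have := hadd 1 1 j
    rw [mul_one] at this
    exact left_eq_add.1 this
  have hsame : ∀ σ σ' : Gal(Ks/K), (∀ j, hAS K Ks (δ j) σ = hAS K Ks (δ j) σ') → σ f = σ' f := by
    intro σ σ' h
    have h1 : ∀ j, hAS K Ks (δ j) (σ'⁻¹ * σ) = 0 := by
      intro j
      have h3 := hadd σ'⁻¹ σ' j
      rw [inv_mul_cancel, hone] at h3
      rw [hadd, h, ← h3]
    have h2 := H1 _ h1
    have h4 : σ' ((σ'⁻¹ * σ) f) = σ' f := by rw [h2]
    rw [← AlgEquiv.mul_apply, mul_inv_cancel_left] at h4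
    exact h4
  have hfO : f ∈ Om A K Ks := by
    have h1 : f ∈ fixedField (fixingSubgroup (Om A K Ks)) := by
      rw [mem_fixedField_iff]
      intro σ hσ
      refine H1 σ fun j => ?_
      obtain ⟨θ, hθ⟩ := hδ j
      have e2 := hs2 (δ j) (θ : Ks) (hcoe j θ hθ) σ
      have e4 : σ (θ : Ks) = θ := (mem_fixingSubgroup_iff _ _).1 hσ θ θ.2
      rw [e4] at e2
      apply axz_o2_inj (L := Ks)
      rw [axz_o2_zero]
      exact left_eq_add.1 e2
    rwa [InfiniteGalois.fixedField_fixingSubgroup] at h1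
  choose s hs using H3
  have hT : ∀ τ, ∃ θ : Om A K Ks, (θ : Ks) ^ 2 + (θ : Ks) = s τ f ∧ N (θ : Ks) < 1 := by
    intro τ
    obtain ⟨θ, hθ⟩ := axz_as h2K (s τ f)
    have hmem : ∀ θ' : Ks, θ' ^ 2 + θ' = s τ f → θ' ∈ Om A K Ks := by
      intro θ' hθ'
      refine hroot θ' ?_ ?_
      · rw [hθ']
        have := hrs (s τ) ⟨f, hfO⟩
        rw [show s τ f = s τ ((⟨f, hfO⟩ : Om A K Ks) : Ks) from rfl, ← this]
        exact Subtype.coe_prop _
      · rw [hθ']
        exact H2.map ((s τ : Ks →ₐ[K] Ks).restrictScalars A)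
    rcases hN θ (by
      rw [hθ]
      exact H4 _) with h | h
    · exact ⟨⟨θ, hmem θ hθ⟩, hθ, h⟩
    · have hθ1 : (θ + 1) ^ 2 + (θ + 1) = s τ f := by
        linear_combination hθ + (θ + 1) * h2K
      exact ⟨⟨θ + 1, hmem _ hθ1⟩, hθ1, h⟩
  choose Θ hΘ1 hΘ2 using hT
  have hΘr : ∀ τ (σ : Gal(Ks/K)), (∀ j, hAS K Ks (δ j) σ = τ j) →
      ((Θ τ : Ks)) ^ 2 + (Θ τ : Ks) = σ f := by
    intro τ σ h
    rw [hΘ1]
    exact hsame _ _ fun j => by rw [hs, h]
  have htt : ∀ x : ZMod 2, x + x = 0 := by decide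
  have hact : ∀ (g : Gal((Om A K Ks)/K)) τ, ∃ z : ZMod 2,
      g (Θ (fun j => τ j + hAS K (Om A K Ks) (δ j) g)) = Θ τ + o2 _ z := by
    intro g τ
    obtain ⟨σ', rfl⟩ := AlgEquiv.restrictNormalHom_surjective (F := K) (K₁ := Om A K Ks) Ks g
    have e1 : (AlgEquiv.restrictNormalHom (Om A K Ks) σ' (Θ (fun j => τ j +
          hAS K (Om A K Ks) (δ j) (AlgEquiv.restrictNormalHom (Om A K Ks) σ')))) ^ 2 +
        AlgEquiv.restrictNormalHom (Om A K Ks) σ' (Θ (fun j => τ j +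
          hAS K (Om A K Ks) (δ j) (AlgEquiv.restrictNormalHom (Om A K Ks) σ'))) =
        (Θ τ) ^ 2 + Θ τ := by
      rw [← map_pow, ← map_add]
      apply Subtype.ext
      rw [hrs]
      set ρ : Fin m → ZMod 2 := fun j => τ j +
        hAS K (Om A K Ks) (δ j) (AlgEquiv.restrictNormalHom (Om A K Ks) σ') with hρ
      have e2 : (((Θ ρ) ^ 2 + Θ ρ : Om A K Ks) : Ks) = s ρ f := hΘ1 ρ
      have e3 : (((Θ τ) ^ 2 + Θ τ : Om A K Ks) : Ks) = (σ' * s ρ) f := by
        refine hΘr τ (σ' * s ρ) fun j => ?_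
        rw [hadd, hs, hρ]
        simp only
        rw [← hres, add_comm (τ j), ← add_assoc, htt, zero_add]
      rw [e2, e3]
      rfl
    rcases axz_root h2O e1 rfl with h | h
    · exact ⟨0, by rw [h, axz_o2_zero, add_zero]⟩
    · exact ⟨1, by rw [h, axz_o2_one]⟩
  choose ζ hζ using hact
  refine ⟨Θ, ζ, ?_, ?_, hζ, hΘr, hΘ2⟩
  · rw [IsLocallyConstant.iff_exists_open]
    intro g₀
    refine ⟨(⋂ j, {g | hAS K (Om A K Ks) (δ j) g = hAS K (Om A K Ks) (δ j) g₀}) ∩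
      ⋂ ρ, {g | g (Θ ρ) = g₀ (Θ ρ)}, ?_, ?_, ?_⟩
    · refine (isOpen_iInter_of_finite fun j => ?_).inter
        (isOpen_iInter_of_finite fun ρ => axz_open g₀ (Θ ρ))
      exact (ho1 (δ j) (hδ j)).loc.isOpen_fiber _
    · exact ⟨Set.mem_iInter.2 fun j => rfl, Set.mem_iInter.2 fun ρ => rfl⟩
    · rintro g ⟨hg1, hg2⟩
      funext τ
      have k1 : (fun j => τ j + hAS K (Om A K Ks) (δ j) g) =
          fun j => τ j + hAS K (Om A K Ks) (δ j) g₀ := by
        funext j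
        have := Set.mem_iInter.1 hg1 j
        rw [show hAS K (Om A K Ks) (δ j) g = hAS K (Om A K Ks) (δ j) g₀ from this]
      have k2 := Set.mem_iInter.1 hg2 (fun j => τ j + hAS K (Om A K Ks) (δ j) g₀)
      have k3 : g (Θ (fun j => τ j + hAS K (Om A K Ks) (δ j) g₀)) =
          g₀ (Θ (fun j => τ j + hAS K (Om A K Ks) (δ j) g₀)) := k2
      have k4 := hζ g τ
      rw [k1, k3, hζ g₀ τ] at k4
      exact (axz_o2_inj (add_left_cancel k4)).symm
  · intro g g' τ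
    have k1 : (fun j => τ j + hAS K (Om A K Ks) (δ j) (g * g')) =
        fun j => (fun i => τ i + hAS K (Om A K Ks) (δ i) g) j + hAS K (Om A K Ks) (δ j) g' := by
      funext j
      simp only
      rw [(ho1 (δ j) (hδ j)).add, add_assoc]
    have k2 := hζ (g * g') τ
    rw [k1, AlgEquiv.mul_apply, hζ g', map_add, hζ g, axz_map_o2, add_assoc,
      ← axz_o2_add h2O] at k2
    exact (axz_o2_inj (add_left_cancel k2)).symm

/-- **AxZ.** The roots and the crossed homomorphism. -/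
theorem tAxZ (h1 : S_Lc2) (h2 : S_Has) (h3 : S_Twb) (h4 : S_Omi) (h5 : S_Asr) : S_AxZ := by
  intro F _ _ _ PP hPP m δ f H1 H2 H3 v d ϖ R hLF ι H4
  have hchar : CharP (RatFunc F) 2 := charP_of_injective_algebraMap
    (FaithfulSMul.algebraMap_injective F (RatFunc F)) 2
  obtain ⟨hfr, hic, -⟩ := h5 F 0 PP hPP
  have := hfr
  have := hic
  obtain ⟨-, -, -, -, -, -, -, hl8, hl9⟩ := h1 F v d ϖ R hLF
  have := hl9
  have h2v : (2 : Kvs v) = 0 := CharP.cast_eq_zero (Kvs v) 2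
  exact axz_core h2 h3 (AS PP) (RatFunc F) (Kgs F) m (fun j => (δ j : RatFunc F))
    (fun j => (h4 (AS PP) (RatFunc F) (Kgs F)).2.2 (δ j)) f H1 H2 H3 (fun x => nm v (ι x)) (by
      intro θ hθ
      show nm v (ι θ) < 1 ∨ nm v (ι (θ + 1)) < 1
      obtain ⟨θ', hθ1, hθ2⟩ := hl8 _ hθ
      rw [map_add, map_pow] at hθ2
      rcases axz_root h2v hθ2 rfl with h | h
      · left
        rw [← h]
        exact hθ1
      · right
        rw [map_add, map_one, ← h]
        exact hθ1) H4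

end Pool.Agent.MP72W
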