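import Pool.Agent.Lib.MP_72e2e6_nt.W2.G.Spec

/-!
# MP_72e2e6_nt, theorem T3, part G, Axm (helper19)
-/

namespace Pool.Agent.MP72W

open Polynomial IntermediateField

private theorem Axm_z2 (a : ZMod 2) : a = 0 ∨ a = 1 := by
  revert a
  decide

private theorem Axm_self {a : ZMod 2} (h : a = a + a) : a = 0 := by
  revert a
  decide

private theorem Axm_eps_zero {L : Type} [Field L] {f : L} (h : eps f = 0) :
    ∃ x : L, x ^ 2 + x = f := by
  classical
  unfold eps at h
  by_contra hcon
  rw [if_neg hcon] at h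
  exact one_ne_zero h

/-- Artin-Schreier roots in separably closed fields of characteristic two. -/
private theorem Axm_root {L : Type} [Field L] [CharP L 2] [IsSepClosed L] (f : L) :
    ∃ θ : L, θ ^ 2 + θ = f := by
  have h2 : (2 : L) = 0 := by exact_mod_cast CharP.cast_eq_zero L 2
  set p : L[X] := X ^ 2 + X + C f with hp
  have hdeg : p.degree = 2 := by
    rw [hp]
    compute_degree!
  have hsep : p.Separable := by
    have hder : derivative p = 1 := by
      rw [hp]
      simp only [derivative_add, derivative_X_pow, derivative_X, derivative_C, add_zero]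
      have : (C (((2 : ℕ) : L)) : L[X]) = 0 := by
        rw [Nat.cast_ofNat, h2, map_zero]
      rw [this, zero_mul, zero_add]
    unfold Polynomial.Separable
    rw [hder]
    exact isCoprime_one_right
  obtain ⟨x, hx⟩ := IsSepClosed.exists_root p (by rw [hdeg]; norm_num) hsep
  refine ⟨x, ?_⟩
  have h3 : x ^ 2 + x + f = 0 := by
    have := hx
    rw [IsRoot.def, hp] at this
    simpa using this
  linear_combination h3 - f * h2

/-- Principal parts at infinity are polynomials. -/
private theorem Axm_poly {F : Type} [Field F] {κ : F} {e : ℕ} {D : RatFunc F} (hD : D ∈ DI κ e) :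
    ∃ p : F[X], algebraMap F[X] (RatFunc F) p = D := by
  classical
  obtain ⟨c, rfl⟩ := hD
  refine ⟨(∑ i ∈ Finset.range ((e + 1) / 2), C (c i) * X ^ (2 * i + 1)) +
    if 1 ≤ e ∧ eps (c 0) ≠ 0 then C κ else 0, ?_⟩
  rw [map_add, map_sum]
  congr 1
  · refine Finset.sum_congr rfl fun i _ => ?_
    rw [map_mul, map_pow, RatFunc.algebraMap_C, RatFunc.algebraMap_X]
  · split_ifs
    · rw [RatFunc.algebraMap_C]
    · rw [map_zero]

private theorem Axm_le {F : Type} [Field F] {P : F[X]} {v : AbsoluteValue (RatFunc F) ℝ}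
    (hv : IsPl (some P) v) (p : F[X]) : v (algebraMap F[X] (RatFunc F) p) ≤ 1 := by
  by_cases h0 : p = 0
  · rw [h0, map_zero, map_zero]
    norm_num
  · rw [hv.2.2 p h0]
    exact pow_le_one₀ (by norm_num) (by norm_num)

/-- Surjectivity of a family of homomorphisms without linear relations. -/
private theorem Axm_surj {Γ : Type*} [Group Γ] [TopologicalSpace Γ] {m : ℕ}
    (h : Fin m → Γ → ZMod 2) (hh : ∀ j, Hom2 (h j))
    (hc : ∀ c : Fin m → ZMod 2, (∀ g, ∑ j, c j * h j g = 0) → c = 0) (τ : Fin m → ZMod 2) :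
    ∃ g, ∀ j, h j g = τ j := by
  have h1 : ∀ j, h j 1 = 0 := fun j => by
    have := (hh j).add 1 1
    rw [mul_one] at this
    exact Axm_self this
  let p : Submodule (ZMod 2) (Fin m → ZMod 2) :=
    { carrier := {x | ∃ g, ∀ j, h j g = x j}
      zero_mem' := ⟨1, fun j => h1 j⟩
      add_mem' := by
        rintro a b ⟨g, hg⟩ ⟨g', hg'⟩
        exact ⟨g * g', fun j => by rw [(hh j).add, hg, hg']; rfl⟩
      smul_mem' := by
        rintro c x ⟨g, hg⟩
        rcases Axm_z2 c with rfl | rfl
        · exact ⟨1, fun j => by rw [h1, Pi.smul_apply, zero_smul]⟩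
        · exact ⟨g, fun j => by rw [one_smul]; exact hg j⟩ }
  by_contra hcon
  have hp : p < ⊤ := by
    rw [lt_top_iff_ne_top]
    intro htop
    have : τ ∈ p := by rw [htop]; exact Submodule.mem_top
    exact hcon this
  obtain ⟨f, hf, hpf⟩ := Submodule.exists_le_ker_of_lt_top p hp
  apply hf
  have hc0 := hc (fun j => f (fun i => if j = i then 1 else 0)) (by
    intro g
    have h2 : (fun j => h j g) ∈ p := ⟨g, fun _ => rfl⟩
    have h3 : f (fun j => h j g) = 0 := hpf h2
    rw [LinearMap.pi_apply_eq_sum_univ f] at h3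
    refine Eq.trans ?_ h3
    refine Finset.sum_congr rfl fun j _ => ?_
    rw [smul_eq_mul, mul_comm])
  apply LinearMap.ext
  intro x
  rw [LinearMap.pi_apply_eq_sum_univ f x, LinearMap.zero_apply]
  refine Finset.sum_eq_zero fun j _ => ?_
  have := congrFun hc0 j
  simp only [Pi.zero_apply] at this
  rw [this, smul_zero]

private theorem Axm_o2_map {L M : Type*} [Field L] [Field M] (f : L →+* M) (a : ZMod 2) :
    f (o2 L a) = o2 M a := by
  unfold o2
  split_ifs
  · exact map_zero f
  · exact map_one f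

private theorem Axm_o2_add {L : Type*} [Field L] [CharP L 2] (a b : ZMod 2) :
    o2 L a + o2 L b = o2 L (a + b) := by
  have h2 : (1 : L) + 1 = 0 := by
    have : (2 : L) = 0 := by exact_mod_cast CharP.cast_eq_zero L 2
    rw [← this]
    norm_num
  rcases Axm_z2 a with rfl | rfl <;> rcases Axm_z2 b with rfl | rfl
  · simp [o2]
  · simp [o2]
  · simp [o2]
  · have h11 : (1 : ZMod 2) + 1 = 0 := by decide
    simp [o2, h11, h2]

theorem tAxm (hLc1 : S_Lc1) (hLc2 : S_Lc2) (hLfP : S_LfP) (hLfI : S_LfI) (hHas : S_Has)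
    (_hTwb : S_Twb) (hRes : S_Res) (_hDgr : S_Dgr) (_hDrg : S_Drg) (hAsr : S_Asr) (hHlo : S_Hlo)
    (hOff : S_Off) (hAxL : S_AxL) (hAxZ : S_AxZ) : S_Axm := by
  classical
  intro F _ _ _ κ hκ PP hPP A hA m hm δ hδ hδφ hδc w₁ v₀
  obtain ⟨e, he⟩ := hδ
  obtain ⟨hl1, hl2, hl3, -, -, -⟩ := hHlo F PP hPP
  obtain ⟨-, -, o3⟩ := hOff F κ hκ PP hPP A hA
  obtain ⟨-, -, -, -, -, -, r7⟩ := hAsr F κ PP hPP
  have hpl : ∀ P : PP, IsPl (some P.1) (A.av (some P)) := fun P => hA.pl (some P)
  choose R hLF using fun P : PP => hLfP F P.1 (A.av (some P)) (hpl P)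
  obtain ⟨Ri, hLFi⟩ := hLfI F (A.av none) (hA.pl none)
  have hchar : CharP (RatFunc F) 2 :=
    charP_of_injective_algebraMap (algebraMap F (RatFunc F)).injective 2
  have hev : ∀ g : GS PP, ∀ (s : Finset (Fin m)) (x : Fin m → AS PP),
      (famC κ A).h (∑ j ∈ s, x j) g = ∑ j ∈ s, (famC κ A).h (x j) g := by
    intro g s x
    let ev : AS PP →+ ZMod 2 := AddMonoidHom.mk' (fun x => (famC κ A).h x g)
      (fun x y => hl2 x y g)
    exact map_sum ev x s
  have hh0 : ∀ g : GS PP, (famC κ A).h 0 g = 0 := by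
    intro g
    have := hev g ∅ (fun _ => 0)
    simpa using this
  have hloc : ∀ w (x : AS PP) g, (famC κ A).h x (rOm (PP := PP) (A.emb w) g) =
      hAS (A.av w).Completion (Kvs (A.av w))
        (algebraMap (RatFunc F) (A.av w).Completion (x : RatFunc F)) g :=
    fun w x g => (hl3 (A.av w) (A.emb w)).2.2 x g
  have hδD : ∀ j, (δ j : RatFunc F) ∈ DI κ e := fun j => (o3 none e (δ j)).mp (he j)
  choose p hp using fun j => Axm_poly (hδD j)
  -- (i)
  have hi : ∀ (P : PP) j, ∃ x : (A.av (some P)).Completion,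
      x ^ 2 + x = algebraMap (RatFunc F) _ (δ j : RatFunc F) := by
    intro P j
    apply Axm_eps_zero
    obtain ⟨l1, -⟩ := hLc1 F _ _ _ _ (hLF P)
    rw [← hA.ph (some P) _ (by rw [l1, ← hp j]; exact Axm_le (hpl P) _), ← hloc (some P)]
    exact hδφ j (some P)
  -- (ii)
  have hrooti : ∀ f : (A.av none).Completion, ∃ θ : Kvs (A.av none),
      θ ^ 2 + θ = algebraMap (A.av none).Completion (Kvs (A.av none)) f := by
    have := (hLc2 F (A.av none) _ _ _ hLFi).2.2.2.2.2.2.2.2
    exact fun f => Axm_root _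
  have hii : ∀ τ : Fin m → ZMod 2, ∃ g : Gal(Kvs (A.av none)/(A.av none).Completion), ∀ j,
      hAS _ (Kvs (A.av none)) (algebraMap (RatFunc F) (A.av none).Completion
        (δ j : RatFunc F)) g = τ j := by
    intro τ
    obtain ⟨-, -, -, -, -, -, l7, -⟩ := hLc1 F (A.av none) _ _ _ hLFi
    have := l7
    refine Axm_surj (fun j g => hAS _ (Kvs (A.av none)) (algebraMap (RatFunc F)
      (A.av none).Completion (δ j : RatFunc F)) g)
      (fun j => (hHas (A.av none).Completion (Kvs (A.av none))).1 _ (hrooti _)) ?_ τ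
    intro c hc
    set X0 : AS PP := ∑ j, if c j = 0 then 0 else δ j with hX0
    have hX0h : ∀ g, (famC κ A).h X0 g = ∑ j, c j * (famC κ A).h (δ j) g := by
      intro g
      rw [hX0, hev]
      refine Finset.sum_congr rfl fun j _ => ?_
      rcases Axm_z2 (c j) with h0 | h0
      · rw [if_pos h0, h0, zero_mul, hh0]
      · rw [h0, if_neg one_ne_zero, one_mul]
    have hX0m : X0 ∈ (famC κ A).𝔇 none e := by
      rw [hX0]
      refine sum_mem fun j _ => ?_
      split_ifs
      · exact zero_mem _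
      · exact he j
    have hX00 : (X0 : RatFunc F) = 0 := by
      refine hA.un none e _ ((o3 none e X0).mp hX0m) fun g _ => ?_
      rw [← hloc none, hX0h, ← hc g]
      refine Finset.sum_congr rfl fun j _ => ?_
      rw [hloc none]
    apply hδc c
    intro g
    rw [← hX0h]
    have : X0 = 0 := Subtype.ext hX00
    rw [this, hh0]
  -- the function `f`
  obtain ⟨f, f1, f2, f3, f4⟩ := hAxL F κ PP hPP A hA m hm p
    (fun P j => by rw [hp j]; exact hi P j)
    (fun τ => by
      obtain ⟨g, hg⟩ := hii τ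
      exact ⟨g, fun j => by rw [hp j]; exact hg j⟩) w₁ v₀
  have h3 : ∀ τ : Fin m → ZMod 2, ∃ σ : Gal(Kgs F/RatFunc F), ∀ j,
      hAS (RatFunc F) (Kgs F) (δ j : RatFunc F) σ = τ j := by
    intro τ
    obtain ⟨g, hg⟩ := hii τ
    have hcs : CharP (Kgs F) 2 :=
      charP_of_injective_algebraMap (algebraMap (RatFunc F) (Kgs F)).injective 2
    obtain ⟨-, -, -, q4⟩ := hRes (RatFunc F) (Kgs F) (A.av none).Completion (Kvs (A.av none))
      (A.emb none)
    refine ⟨rsH (M := (A.av none).Completion) (A.emb none) g, fun j => ?_⟩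
    rw [q4 _ g (Axm_root _)]
    exact hg j
  obtain ⟨Θ, ζ, z1, z2, z3, z4, z5⟩ := hAxZ F PP hPP m δ f
    (fun σ hσ => f1 σ fun j => by rw [hp j]; exact hσ j) f2 h3 (A.av none) _ _ _ hLFi
    (A.emb none) f4
  -- at infinity
  have hinf : ∀ (g' : Gal(Kvs (A.av none)/(A.av none).Completion)) τ,
      ζ (rOm (PP := PP) (A.emb none) g') τ = 0 := by
    intro g' τ
    obtain ⟨n1, n2, n3, n4, n5, n6, n7, n8, n9⟩ := hLc2 F (A.av none) _ _ _ hLFi
    have := n9
    have h2 : (2 : Kvs (A.av none)) = 0 := by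
      exact_mod_cast CharP.cast_eq_zero (Kvs (A.av none)) 2
    set g := rOm (PP := PP) (A.emb none) g' with hg
    have hR := (hl3 (A.av none) (A.emb none)).2.1 g'
    have e1 := z3 g τ
    set Θ' := Θ (fun j => τ j + hAS (RatFunc F) (Om (AS PP) (RatFunc F) (Kgs F))
      (δ j : RatFunc F) g) with hΘ'
    have e2 := congrArg ((A.emb none).comp (Om (AS PP) (RatFunc F) (Kgs F)).val) e1
    rw [← hR, map_add] at e2
    have e3 : ((A.emb none).comp (Om (AS PP) (RatFunc F) (Kgs F)).val)
        (o2 (Om (AS PP) (RatFunc F) (Kgs F)) (ζ g τ)) = o2 (Kvs (A.av none)) (ζ g τ) :=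
      Axm_o2_map ((A.emb none).comp (Om (AS PP) (RatFunc F) (Kgs F)).val).toRingHom _
    rw [e3] at e2
    have hlt1 : nm (A.av none) (g' (((A.emb none).comp
        (Om (AS PP) (RatFunc F) (Kgs F)).val) Θ')) < 1 := by
      rw [n6]
      exact z5 _
    have hlt2 : nm (A.av none) (((A.emb none).comp
        (Om (AS PP) (RatFunc F) (Kgs F)).val) (Θ τ)) < 1 := z5 τ
    have e4 : o2 (Kvs (A.av none)) (ζ g τ) = g' (((A.emb none).comp
        (Om (AS PP) (RatFunc F) (Kgs F)).val) Θ') + ((A.emb none).comp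
        (Om (AS PP) (RatFunc F) (Kgs F)).val) (Θ τ) := by
      linear_combination (-1 : Kvs (A.av none)) * e2 - (((A.emb none).comp
        (Om (AS PP) (RatFunc F) (Kgs F)).val) (Θ τ)) * h2
    have e5 : nm (A.av none) (o2 (Kvs (A.av none)) (ζ g τ)) < 1 := by
      rw [e4]
      exact (n4 _ _).trans_lt (max_lt hlt1 hlt2)
    rcases Axm_z2 (ζ g τ) with h0 | h0
    · exact h0
    · exfalso
      rw [h0] at e5
      have h6 : o2 (Kvs (A.av none)) 1 = algebraMap (A.av none).Completion (Kvs (A.av none)) 1 := by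
        rw [map_one]
        unfold o2
        rw [if_neg one_ne_zero]
      rw [h6, n5, norm_one] at e5
      exact lt_irrefl _ e5
  -- `δ(g) = 0` for the local elements at `P`
  have hzero : ∀ (P : PP) (g' : Gal(Kvs (A.av (some P))/(A.av (some P)).Completion)) j,
      (famC κ A).h (δ j) (rOm (PP := PP) (A.emb (some P)) g') = 0 := by
    intro P g' j
    obtain ⟨-, -, -, -, -, -, l7, -⟩ := hLc1 F _ _ _ _ (hLF P)
    have := l7
    have hroot : ∀ f : (A.av (some P)).Completion, ∃ θ : Kvs (A.av (some P)),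
        θ ^ 2 + θ = algebraMap (A.av (some P)).Completion (Kvs (A.av (some P))) f := by
      have := (hLc2 F _ _ _ _ (hLF P)).2.2.2.2.2.2.2.2
      exact fun f => Axm_root _
    rw [hloc (some P)]
    exact ((hHas (A.av (some P)).Completion (Kvs (A.av (some P)))).2.2.2 _ (hroot _)).mpr
      (hi P j) g'
  -- at the places of `PP`
  have hP : ∀ (P : PP) (τ : Fin m → ZMod 2), (P ≠ w₁ ∨ τ ≠ 0) →
      ∃ t : (A.av (some P)).Completion, ‖t‖ ≤ 1 ∧
        eps t = (if P = v₀ ∧ (∀ j, τ j = 1) then 1 else 0) ∧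
        ∀ g' : Gal(Kvs (A.av (some P))/(A.av (some P)).Completion),
          ζ (rOm (PP := PP) (A.emb (some P)) g') τ =
            hAS (A.av (some P)).Completion (Kvs (A.av (some P))) t g' := by
    intro P τ hτ
    obtain ⟨l1, -, -, -, -, -, l7, -⟩ := hLc1 F _ _ _ _ (hLF P)
    have := l7
    obtain ⟨n1, n2, n3, n4, n5, n6, n7, n8, n9⟩ := hLc2 F _ _ _ _ (hLF P)
    have := n9
    have h2 : (2 : Kvs (A.av (some P))) = 0 := by
      exact_mod_cast CharP.cast_eq_zero (Kvs (A.av (some P))) 2
    obtain ⟨σ, hσ⟩ := h3 τ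
    have hcond : P ≠ w₁ ∨ ∃ j, hAS (RatFunc F) (Kgs F)
        (algebraMap F[X] (RatFunc F) (p j)) σ ≠ 0 := by
      rcases hτ with h | h
      · exact Or.inl h
      · right
        by_contra hcon
        push Not at hcon
        apply h
        funext j
        rw [← hσ j, ← hp j]
        exact hcon j
    obtain ⟨t, ht1, ht2⟩ := f3 P σ hcond
    refine ⟨algebraMap (RatFunc F) _ (algebraMap F[X] (RatFunc F) t), ?_, ?_, ?_⟩
    · rw [l1]
      exact Axm_le (hpl P) t
    · rw [ht2]
      refine if_congr (and_congr_right fun _ => forall_congr' fun j => ?_) rfl rfl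
      rw [hp j, hσ j]
    · intro g'
      have hR := (hl3 (A.av (some P)) (A.emb (some P))).2.1 g'
      set g := rOm (PP := PP) (A.emb (some P)) g' with hg
      set ι := (A.emb (some P)).comp (Om (AS PP) (RatFunc F) (Kgs F)).val with hι
      have e1 := z3 g τ
      have hτg : (fun j => τ j + hAS (RatFunc F) (Om (AS PP) (RatFunc F) (Kgs F))
          (δ j : RatFunc F) g) = τ := by
        funext j
        have := hzero P g' j
        rw [← hg] at this
        have h' : hAS (RatFunc F) (Om (AS PP) (RatFunc F) (Kgs F)) (δ j : RatFunc F) g = 0 := this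
        rw [h', add_zero]
      rw [hτg] at e1
      have e2 := congrArg ι e1
      rw [← hR, map_add] at e2
      have e3 : ι (o2 (Om (AS PP) (RatFunc F) (Kgs F)) (ζ g τ)) =
          o2 (Kvs (A.av (some P))) (ζ g τ) := Axm_o2_map ι.toRingHom _
      rw [e3] at e2
      -- `e2 : g' (ι (Θ τ)) = ι (Θ τ) + o2 (ζ g τ)`
      obtain ⟨θ, hθ1, hθ2⟩ := n8 _ ht1
      have e4 := z4 τ σ hσ
      have e5 : ι (Θ τ) ^ 2 + ι (Θ τ) = A.emb (some P) (σ f) := by
        rw [← e4, map_add, map_pow]
        rfl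
      set T' : Kvs (A.av (some P)) := algebraMap (RatFunc F) _ (algebraMap F[X] (RatFunc F) t)
        with hT'
      have hT'' : T' = algebraMap (A.av (some P)).Completion (Kvs (A.av (some P)))
          (algebraMap (RatFunc F) (A.av (some P)).Completion (algebraMap F[X] (RatFunc F) t)) :=
        IsScalarTower.algebraMap_apply _ _ _ _
      have e6 : (ι (Θ τ) + θ) ^ 2 + (ι (Θ τ) + θ) = T' := by
        linear_combination e5 + hθ2 + (ι (Θ τ) * θ + A.emb (some P) (σ f) - T') * h2
      rw [hT''] at e6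
      have e7 := (hHas (A.av (some P)).Completion (Kvs (A.av (some P)))).2.1 _ _ e6 g'
      rw [map_add, e2] at e7
      -- `e7 : ι (Θ τ) + o2 (ζ g τ) + g' θ = ι (Θ τ) + θ + o2 (hAS t g')`
      set a := hAS (A.av (some P)).Completion (Kvs (A.av (some P)))
        (algebraMap (RatFunc F) (A.av (some P)).Completion (algebraMap F[X] (RatFunc F) t)) g'
        with ha
      have e8 : o2 (Kvs (A.av (some P))) (ζ g τ + a) = g' θ + θ := by
        rw [← Axm_o2_add]
        linear_combination e7 - (g' θ - o2 (Kvs (A.av (some P))) a) * h2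
      have e9 : nm (A.av (some P)) (o2 (Kvs (A.av (some P))) (ζ g τ + a)) < 1 := by
        rw [e8]
        refine (n4 _ _).trans_lt (max_lt ?_ hθ1)
        rw [n6]
        exact hθ1
      have hsum : ζ g τ + a = 0 := by
        rcases Axm_z2 (ζ g τ + a) with h0 | h0
        · exact h0
        · exfalso
          rw [h0] at e9
          have h6 : o2 (Kvs (A.av (some P))) 1 =
              algebraMap (A.av (some P)).Completion (Kvs (A.av (some P))) 1 := by
            rw [map_one]
            unfold o2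
            rw [if_neg one_ne_zero]
          rw [h6, n5, norm_one] at e9
          exact lt_irrefl _ e9
      have key : ∀ a b : ZMod 2, a + b = 0 → a = b := by decide
      exact key _ _ hsum
  -- the principal part `δ₁`
  have hHom : Hom2 fun g : A.W (some w₁) =>
      ζ (rOm (PP := PP) (A.emb (some w₁)) g.1) 0 := by
    constructor
    · have h1 : IsLocallyConstant fun g : GS PP => ζ g 0 := z1.comp fun F => F 0
      exact h1.comp_continuous ((hl3 (A.av (some w₁)) (A.emb (some w₁))).1.comp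
        continuous_subtype_val)
    · intro a b
      have h1 := z2 (rOm (PP := PP) (A.emb (some w₁)) a.1) (rOm (PP := PP) (A.emb (some w₁)) b.1) 0
      have h2 : (fun j => (0 : Fin m → ZMod 2) j +
          hAS (RatFunc F) (Om (AS PP) (RatFunc F) (Kgs F)) (δ j : RatFunc F)
            (rOm (PP := PP) (A.emb (some w₁)) a.1)) = 0 := by
        funext j
        have h' : hAS (RatFunc F) (Om (AS PP) (RatFunc F) (Kgs F)) (δ j : RatFunc F)
          (rOm (PP := PP) (A.emb (some w₁)) a.1) = 0 := hzero w₁ a.1 j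
        rw [h']
        rfl
      rw [h2, ← map_mul] at h1
      exact h1
  obtain ⟨e₁, D, hD, hDk⟩ := hA.ex (some w₁) _ hHom
  refine ⟨e₁, ⟨D, r7 _ _ _ hD⟩, (o3 _ _ _).mpr hD, ζ, z1, z2, ?_, ?_, ?_, ?_⟩
  · intro w hw g hg τ
    obtain ⟨g', hg', rfl⟩ := Subgroup.mem_map.mp hg
    rcases w with _ | P
    · exact hinf g' τ
    · obtain ⟨t, ht1, -, ht3⟩ := hP P τ (Or.inl fun h => hw (by rw [h]))
      exact (ht3 g').trans (hA.wz (some P) t ht1 g' hg')
  · intro g hg τ
    obtain ⟨g', hg', rfl⟩ := Subgroup.mem_map.mp hg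
    by_cases hτ : τ = 0
    · rw [if_pos hτ, hτ, hloc (some w₁)]
      exact hDk ⟨g', hg'⟩
    · rw [if_neg hτ]
      obtain ⟨t, ht1, -, ht3⟩ := hP w₁ τ (Or.inr hτ)
      exact (ht3 g').trans (hA.wz (some w₁) t ht1 g' hg')
  · intro τ
    exact hinf (A.φ none) τ
  · intro P
    have hne : (fun _ : Fin m => (1 : ZMod 2)) ≠ 0 := by
      intro h
      have := congrFun h ⟨0, hm⟩
      simp only [Pi.zero_apply] at this
      exact one_ne_zero this
    obtain ⟨t, ht1, ht2, ht3⟩ := hP P (fun _ => 1) (Or.inr hne)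
    have h1 := (ht3 (A.φ (some P))).trans (hA.ph (some P) t ht1)
    rw [ht2] at h1
    refine h1.trans (if_congr ?_ rfl rfl)
    exact ⟨fun h => h.1, fun h => ⟨h, fun _ => rfl⟩⟩

end Pool.Agent.MP72W
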