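import Pool.Agent.Lib.MP_72e2e6_nt.W2.G.Spec

/-!
# MP_72e2e6_nt, theorem T3, part G: Goo, the family satisfies the axioms
-/

set_option autoImplicit false

namespace Pool.Agent.MP72W

open Polynomial IntermediateField

private theorem goo_Dw (h1 : S_Dgr) {F : Type} [Field F] [Finite F] [CharP F 2] (κ : F)
    {PP : Finset F[X]} (hPP : ∀ P ∈ PP, P.Monic ∧ Irreducible P) (w : Option PP) :
    (∀ e, (Dw κ w e).Finite) ∧ (∀ e e', e ≤ e' → Dw κ w e ⊆ Dw κ w e') := by
  match w with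
  | none =>
    obtain ⟨a1, a2, -⟩ := h1 F κ X monic_X irreducible_X
    exact ⟨fun e => (a1 e).2.2.2, fun e e' h => (a2 e e' h).2⟩
  | some P =>
    obtain ⟨a1, a2, -⟩ := h1 F κ P.1 (hPP P.1 P.2).1 (hPP P.1 P.2).2
    exact ⟨fun e => (a1 e).1.2.2, fun e e' h => (a2 e e' h).1⟩

open Classical in
theorem tGoo (h1 : S_Dgr) (h2 : S_Asr) (h3 : S_Tls) (_h4 : S_LfI) (h5 : S_Hlo) (h6 : S_Off)
    (h7 : S_Uex) (h8 : S_Ax1) (h9 : S_Axm) : S_Goo := by
  intro F _ _ _ κ hκ PP hPP A hA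
  obtain ⟨f1, -, f3⟩ := h6 F κ hκ PP hPP A hA
  obtain ⟨l1, l2, -, l4, -, l6⟩ := h5 F PP hPP
  obtain ⟨-, -, -, -, -, -, s7⟩ := h2 F κ PP hPP
  refine
    { hom := l1
      add := l2
      uex := h7 F κ hκ PP hPP A hA
      h2 := l4
      fin := ?_
      mono := ?_
      off := ?_
      phi := ?_
      inj := ?_
      big := ?_
      ax1 := ?_
      axm := ?_ }
  · intro w e
    have h : (((famC κ A).𝔇 w e : AddSubgroup (AS PP)) : Set (AS PP)) =
        Subtype.val ⁻¹' (Dw κ w e) := by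
      ext x
      exact f3 w e x
    rw [h]
    exact ((goo_Dw h1 κ hPP w).1 e).preimage Subtype.val_injective.injOn
  · intro w e e' hee x hx
    rw [f3] at hx ⊢
    exact (goo_Dw h1 κ hPP w).2 e e' hee hx
  · intro w e x hx w' hw' g hg
    rw [f3] at hx
    exact ((f1 w e _ hx x rfl).1 w' hw').1 g hg
  · intro w e x hx
    rw [f3] at hx
    exact (f1 w e _ hx x rfl).2
  · intro e x hx hg
    rw [f3] at hx
    obtain ⟨y, hy⟩ := (l6 x).mp hg
    have h := (h3 F κ none (A.av none) (hA.pl none)).2 e (x : RatFunc F) hx 0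
      (algebraMap (RatFunc F) (A.av none).Completion y) (by rw [norm_zero]; exact zero_le_one) (by
        rw [← hy, zero_add, map_add, map_pow])
    exact Subtype.ext h
  · intro B
    obtain ⟨e, he⟩ := (h1 F κ X monic_X irreducible_X).2.2 B
    refine ⟨e, he.trans (le_of_eq ?_)⟩
    have h : Dw κ (none : Option PP) e =
        Subtype.val '' (((famC κ A).𝔇 none e : AddSubgroup (AS PP)) : Set (AS PP)) := by
      ext z
      constructor
      · intro hz
        exact ⟨⟨z, s7 none e z hz⟩, (f3 none e ⟨z, s7 none e z hz⟩).mpr hz, rfl⟩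
      · rintro ⟨x, hx, rfl⟩
        exact (f3 none e x).mp hx
    change (Dw κ (none : Option PP) e).ncard = _
    rw [h, Set.ncard_image_of_injective _ Subtype.val_injective]
    rfl
  · intro v₀ w hw
    obtain ⟨e, δ, hδ, hv⟩ := h8 F κ hκ PP hPP A hA v₀ w hw
    refine ⟨e, δ, hδ, fun v => ?_⟩
    rw [hv v]
  · intro m hm δ hδ hφ hc w₁ v₀
    obtain ⟨e, δ₁, hδ₁, ζ, z1, z2, z3, z4, z5, z6⟩ := h9 F κ hκ PP hPP A hA m hm δ hδ hφ hc w₁ v₀
    refine ⟨e, δ₁, hδ₁, ζ, z1, z2, z3, ?_, z5, ?_⟩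
    · intro g hg τ
      rw [z4 g hg τ]
    · intro v
      rw [z6 v]

end Pool.Agent.MP72W
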