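import Pool.Agent.Lib.MP_72e2e6_nt.W2.G.Spec

/-!
# MP_72e2e6_nt, theorem T3, part G: Hlo, homomorphisms of the family and their restrictions
-/

set_option autoImplicit false

namespace Pool.Agent.MP72W

open Polynomial IntermediateField

theorem tHlo (h1 : S_Has) (h2 : S_Twb) (h3 : S_Omi) (h4 : S_Res) (h5 : S_Asr) : S_Hlo := by
  intro F _ _ _ PP hPP
  obtain ⟨hfrac, hcl, -⟩ := h5 F 0 PP hPP
  obtain ⟨-, -, -, -, hgal, -⟩ := h2 (AS PP) (RatFunc F) (Kgs F)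
  obtain ⟨o1, o2, o3⟩ := h3 (AS PP) (RatFunc F) (Kgs F)
  obtain ⟨a1, -, a3, a4⟩ := h1 (RatFunc F) (Om (AS PP) (RatFunc F) (Kgs F))
  have hroot : ∀ x : AS PP, ∃ θ : Om (AS PP) (RatFunc F) (Kgs F),
      θ ^ 2 + θ = algebraMap (RatFunc F) (Om (AS PP) (RatFunc F) (Kgs F)) (x : RatFunc F) := o3
  refine ⟨fun x => a1 _ (hroot x), fun x y g => a3 _ _ (hroot x) (hroot y) g, ?_, o1, o2,
    fun x => a4 _ (hroot x)⟩
  intro v ι
  obtain ⟨r1, r2, -, r4⟩ := h4 (RatFunc F) (Om (AS PP) (RatFunc F) (Kgs F)) v.Completion (Kvs v)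
    (ι.comp (Om (AS PP) (RatFunc F) (Kgs F)).val)
  exact ⟨r1, r2, fun x g => r4 _ g (hroot x)⟩

end Pool.Agent.MP72W
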