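import Pool.Agent.Lib.MP_72e2e6_nt.W2.G.Spec

/-!
# MP_72e2e6_nt, theorem T3, part G: `S_Off`, evaluation of the principal parts
-/

namespace Pool.Agent.MP72W

open Polynomial IntermediateField

theorem tOff : S_Lc1 → S_Has → S_Eps → S_Dgr → S_Drg → S_Fin2 → S_LfP → S_LfI → S_Asr → S_Hlo →
    S_Off := by
  classical
  intro hLc1 _ hEps hDgr hDrg _ hLfP hLfI _ hHlo F _ _ _ κ hκ PP hPP A hA
  obtain ⟨-, -, hloc, -, -, -⟩ := hHlo F PP hPP
  have h2 : (2 : RatFunc F) = 0 := by
    have h : (2 : F) = 0 := CharTwo.two_eq_zero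
    calc (2 : RatFunc F) = RatFunc.C (2 : F) := (map_ofNat _ 2).symm
      _ = 0 := by rw [h, map_zero]
  have hneg : ∀ a : RatFunc F, -a = a := fun a => by
    linear_combination (-a) * h2
  have hLF : ∀ w : Option PP, ∃ (d : ℕ) (ϖ : RatFunc F) (R : Finset (RatFunc F)),
      LF (A.av w) d ϖ R := by
    intro w
    have hpl := hA.pl w
    cases w with
    | none =>
      obtain ⟨R, hR⟩ := hLfI F (A.av none) hpl
      exact ⟨_, _, R, hR⟩
    | some P =>
      obtain ⟨R, hR⟩ := hLfP F P.1 (A.av (some P)) hpl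
      exact ⟨_, _, R, hR⟩
  have hnorm : ∀ (w : Option PP) (a : RatFunc F),
      ‖algebraMap (RatFunc F) (A.av w).Completion a‖ = A.av w a := by
    intro w a
    obtain ⟨d, ϖ, R, h⟩ := hLF w
    exact (hLc1 F (A.av w) d ϖ R h).1 a
  have hint : ∀ (w' : Option PP) (x : AS PP), A.av w' (x : RatFunc F) ≤ 1 →
      (∀ g ∈ (famC κ A).W w', (famC κ A).h x g = 0) ∧
        (famC κ A).h x ((famC κ A).φ w') =
          eps (algebraMap (RatFunc F) (A.av w').Completion (x : RatFunc F)) := by
    intro w' x hx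
    have hx' : ‖algebraMap (RatFunc F) (A.av w').Completion (x : RatFunc F)‖ ≤ 1 := by
      rw [hnorm]
      exact hx
    refine ⟨?_, ?_⟩
    · rintro g ⟨g', hg', rfl⟩
      have h := (hloc (A.av w') (A.emb w')).2.2 x g'
      exact h.trans (hA.wz w' _ hx' g' hg')
    · have h := (hloc (A.av w') (A.emb w')).2.2 x (A.φ w')
      exact h.trans (hA.ph w' _ hx')
  have hX : (X : F[X]).Monic ∧ Irreducible (X : F[X]) := ⟨monic_X, irreducible_X⟩
  have hsm : ∀ (w : Option PP) (e : ℕ), ∀ D ∈ Dw κ w e, ∀ w', w' ≠ w → A.av w' D ≤ 1 := by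
    intro w e D hD w' hw
    have hpl := hA.pl w'
    cases w with
    | none =>
      have h := (hDrg F κ X hX.1 hX.2 _ _ hpl e).2 D hD
      refine h.2 ?_
      cases w' with
      | none => exact absurd rfl hw
      | some P' => simp
    | some P =>
      have h := (hDrg F κ P.1 (hPP P.1 P.2).1 (hPP P.1 P.2).2 _ _ hpl e).1 D hD
      refine h.2.1 ?_
      cases w' with
      | none => simp
      | some P' =>
        intro h'
        apply hw
        simp only [Option.map_some, Option.some.injEq] at h'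
        rw [Subtype.ext h']
  have hφ : ∀ (w : Option PP) (e : ℕ), ∀ D ∈ Dw κ w e, ∀ x : AS PP, (x : RatFunc F) = D →
      (famC κ A).h x ((famC κ A).φ w) = 0 := by
    intro w e D hD x hx
    have h := (hloc (A.av w) (A.emb w)).2.2 x (A.φ w)
    refine h.trans ?_
    rw [hx]
    exact hA.dz w e D hD
  refine ⟨fun w e D hD x hx => ⟨fun w' hw => ?_, hφ w e D hD x hx, ?_⟩, fun x hx => ⟨fun w => ?_, ?_⟩,
    fun w e x => ⟨fun hx => ?_, fun hx => ?_⟩⟩
  · have := hint w' x (by rw [hx]; exact hsm w e D hD w' hw)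
    rw [← hx]
    exact this
  · cases w with
    | none => exact hφ none e D hD x hx
    | some P =>
      have hne : (none : Option PP) ≠ some P := by simp
      have h1 := (hint none x (by rw [hx]; exact hsm (some P) e D hD none hne)).2
      rw [h1]
      have hlt : A.av none D < 1 :=
        ((hDrg F κ P.1 (hPP P.1 P.2).1 (hPP P.1 P.2).2 _ _ (hA.pl none) e).1 D hD).2.2 rfl
      obtain ⟨d, ϖ, R, hL⟩ := hLF none
      obtain ⟨-, -, -, -, -, -, -, h8, -, -⟩ := hLc1 F (A.av none) d ϖ R hL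
      obtain ⟨θ, -, hθ⟩ := h8 (algebraMap (RatFunc F) (A.av none).Completion (x : RatFunc F))
        (by rw [hnorm, hx]; exact hlt)
      unfold eps
      rw [if_pos ⟨θ, hθ⟩]
  · obtain ⟨d, ϖ, R, hL⟩ := hLF w
    refine (hint w x ?_).1
    rw [hx]
    by_cases h0 : κ = 0
    · rw [h0, map_zero, map_zero]
      exact zero_le_one
    · exact (hL.one κ h0).le
  · obtain ⟨R, hR⟩ := hLfI F (A.av none) (hA.pl none)
    have hle : A.av none (x : RatFunc F) ≤ 1 := by
      rw [hx]
      by_cases h0 : κ = 0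
      · rw [h0, map_zero, map_zero]
        exact zero_le_one
      · exact (hR.one κ h0).le
    rw [(hint none x hle).2, hx, (hEps F (A.av none) 1 _ R hR).2.2.2 rfl κ]
    exact hκ
  · -- the closure
    have hgrp : (0 : RatFunc F) ∈ Dw κ w e ∧
        ∀ f ∈ Dw κ w e, ∀ g ∈ Dw κ w e, f + g ∈ Dw κ w e := by
      cases w with
      | none => exact ⟨((hDgr F κ X hX.1 hX.2).1 e).2.1, ((hDgr F κ X hX.1 hX.2).1 e).2.2.1⟩
      | some P =>
        have h := ((hDgr F κ P.1 (hPP P.1 P.2).1 (hPP P.1 P.2).2).1 e).1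
        exact ⟨h.1, h.2.1⟩
    let S : AddSubgroup (AS PP) :=
      { carrier := {x | (x : RatFunc F) ∈ Dw κ w e}
        zero_mem' := hgrp.1
        add_mem' := fun {a b} ha hb => hgrp.2 _ ha _ hb
        neg_mem' := fun {a} ha => by
          show (-(a : RatFunc F)) ∈ Dw κ w e
          rw [hneg]
          exact ha }
    have hle : (famC κ A).𝔇 w e ≤ S := (AddSubgroup.closure_le S).2 fun y hy => hy
    exact hle hx
  · exact AddSubgroup.subset_closure hx

end Pool.Agent.MP72W
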