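import Pool.Agent.Lib.MP_72e2e6_nt.W2.G.Spec

/-!
# MP_72e2e6_nt, theorem T3, part G: `S_Pfs`, partial fractions modulo Artin-Schreier
-/

namespace Pool.Agent.MP72W

open Polynomial IntermediateField

namespace PfsAux

theorem two_zero {F : Type} [Field F] [CharP F 2] : (2 : RatFunc F) = 0 := by
  have h : (2 : F) = 0 := CharTwo.two_eq_zero
  calc (2 : RatFunc F) = RatFunc.C (2 : F) := (map_ofNat _ 2).symm
    _ = 0 := by rw [h, map_zero]

/-- The map `y ↦ y ^ 2 + y`. -/
noncomputable def wp (F : Type) [Field F] [CharP F 2] : RatFunc F →+ RatFunc F where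
  toFun y := y ^ 2 + y
  map_zero' := by simp
  map_add' y y' := by
    linear_combination (y * y') * (two_zero (F := F))

theorem wp_apply {F : Type} [Field F] [CharP F 2] (y : RatFunc F) : wp F y = y ^ 2 + y := rfl

theorem mem_frac {F : Type} [Field F] {PP : Finset F[X]} {P : F[X]} (hP : P ∈ PP)
    (h0 : P ≠ 0) (s : F[X]) (n : ℕ) :
    algebraMap F[X] (RatFunc F) s / algebraMap F[X] (RatFunc F) P ^ n ∈ AS PP := by
  obtain ⟨N', hN'⟩ := Finset.dvd_prod_of_mem (fun P : F[X] => P) hP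
  refine ⟨n, s * N' ^ n, ?_⟩
  have hP0 : algebraMap F[X] (RatFunc F) P ≠ 0 := by
    simpa using h0
  have hN : (∏ P ∈ PP, P) = P * N' := hN'
  rw [hN, mul_pow, map_mul, map_mul, map_pow, map_pow]
  field_simp

end PfsAux

open PfsAux in
theorem tPfs : S_Fin2 → S_PfP → S_PfI → S_Asr → S_Pfs := by
  classical
  intro hFin hPfP hPfI hAsr F _ _ _ κ hκ PP hPP f hf
  obtain ⟨n, p, hp⟩ := hf
  obtain ⟨-, -, -, -, hpol, hcon, -⟩ := hAsr F κ PP hPP
  have hne : ∀ P ∈ PP, P ≠ 0 := fun P hP => (hPP P hP).2.ne_zero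
  have hN0 : algebraMap F[X] (RatFunc F) ((∏ P ∈ PP, P) ^ n) ≠ 0 := by
    rw [Ne, FaithfulSMul.algebraMap_eq_zero_iff]
    exact pow_ne_zero _ (Finset.prod_ne_zero_iff.2 hne)
  have hcop : Set.Pairwise (↑PP : Set F[X]) fun P Q => IsCoprime (P ^ n) (Q ^ n) := by
    intro P hP Q hQ hPQ
    refine IsCoprime.pow ?_
    have h1 := hPP P hP
    have h2 := hPP Q hQ
    refine h1.2.coprime_iff_not_dvd.2 fun h => hPQ ?_
    exact Polynomial.eq_of_monic_of_associated h1.1 h2.1 (h1.2.associated_of_dvd h2.2 h)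
  obtain ⟨q, r, hr, hfr⟩ := Polynomial.div_prod_eq_quo_add_sum_rem_div (RatFunc F) p
    (s := PP) (g := fun P => P ^ n) (fun P hP => (hPP P hP).1.pow n) hcop
  -- the pieces
  have hP : ∀ P : PP, ∃ D ∈ DP P.1 n, ∃ s : F[X],
      algebraMap F[X] (RatFunc F) (r P.1) / algebraMap F[X] (RatFunc F) P.1 ^ n = D +
        ((algebraMap F[X] (RatFunc F) s / algebraMap F[X] (RatFunc F) P.1 ^ n) ^ 2 +
          algebraMap F[X] (RatFunc F) s / algebraMap F[X] (RatFunc F) P.1 ^ n) := by
    intro P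
    have hm := (hPP P.1 P.2).1
    have hdeg : (r P.1).degree < ((n * P.1.natDegree : ℕ) : WithBot ℕ) := by
      have := hr P.1 P.2
      rwa [Polynomial.degree_eq_natDegree ((hm.pow n).ne_zero), hm.natDegree_pow] at this
    obtain ⟨D, hD, s, -, hs⟩ := hPfP F P.1 hm (hPP P.1 P.2).2 n (r P.1) hdeg
    exact ⟨D, hD, s, hs⟩
  choose DP' hDP' sP hsP using hP
  obtain ⟨D0, hD0, c, s0, -, hq⟩ := hPfI F κ q.natDegree q le_rfl
  obtain ⟨z, hz⟩ := (hFin F).2.2 c κ hκ
  have hfeq : f = algebraMap F[X] (RatFunc F) q + ∑ P : PP,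
      algebraMap F[X] (RatFunc F) (r P.1) / algebraMap F[X] (RatFunc F) P.1 ^ n := by
    have h1 : f = algebraMap F[X] (RatFunc F) p /
        algebraMap F[X] (RatFunc F) ((∏ P ∈ PP, P) ^ n) := by
      rw [eq_div_iff hN0]
      exact hp
    rw [h1, ← Finset.prod_pow, map_prod]
    rw [← Finset.sum_attach] at hfr
    have h2 : ∑ P : PP, algebraMap F[X] (RatFunc F) (r P.1) /
        algebraMap F[X] (RatFunc F) P.1 ^ n =
        ∑ P ∈ PP.attach, algebraMap F[X] (RatFunc F) (r P.1) /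
          algebraMap F[X] (RatFunc F) (P.1 ^ n) := by
      rw [Finset.univ_eq_attach]
      refine Finset.sum_congr rfl fun P _ => ?_
      rw [map_pow]
    rw [h2]
    exact hfr
  set c' : ZMod 2 := if c = z ^ 2 + z then 0 else 1 with hc'
  have hcc : RatFunc.C c = (if c' = 0 then 0 else RatFunc.C κ) + wp F (RatFunc.C z) := by
    rw [wp_apply, hc']
    by_cases h : c = z ^ 2 + z
    · rw [if_pos h, if_pos rfl, zero_add, h, map_add, map_pow]
    · rw [if_neg h, if_neg one_ne_zero]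
      rcases hz with h' | h'
      · exact absurd h' h
      · rw [h', map_add, map_add, map_pow]
        ring
  refine ⟨fun w => match w with
    | none => q.natDegree
    | some _ => n, fun w => match w with
    | none => D0
    | some P => DP' P, fun w => ?_, c', algebraMap F[X] (RatFunc F) s0 + RatFunc.C z +
      ∑ P : PP, algebraMap F[X] (RatFunc F) (sP P) / algebraMap F[X] (RatFunc F) P.1 ^ n, ?_, ?_⟩
  · rcases w with _ | P
    · exact hD0
    · exact hDP' P
  · refine add_mem (add_mem (hpol s0) (hcon z)) (sum_mem fun P _ => ?_)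
    exact mem_frac P.2 (hne P.1 P.2) _ _
  · rw [← wp_apply, map_add, map_add, map_sum, Fintype.sum_option, hfeq, hq]
    have h3 : ∑ P : PP, algebraMap F[X] (RatFunc F) (r P.1) /
        algebraMap F[X] (RatFunc F) P.1 ^ n = ∑ P : PP, DP' P + ∑ P : PP,
        wp F (algebraMap F[X] (RatFunc F) (sP P) / algebraMap F[X] (RatFunc F) P.1 ^ n) := by
      rw [← Finset.sum_add_distrib]
      exact Finset.sum_congr rfl fun P _ => hsP P
    rw [h3, hcc, ← wp_apply]
    show _ = (D0 + ∑ P : PP, DP' P) + _ + _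
    ring

end Pool.Agent.MP72W
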