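import Pool.Agent.Lib.MP_72e2e6_nt.W2.G.Spec

/-!
# MP_72e2e6_nt, theorem T3, part G, Uex (helper19)
-/

namespace Pool.Agent.MP72W

open Polynomial IntermediateField

private theorem Uex_z2 (a : ZMod 2) : a = 0 ∨ a = 1 := by
  revert a
  decide

private theorem Uex_add_self (a : ZMod 2) : a + a = 0 := by
  revert a
  decide

private theorem Uex_eq (a b : ZMod 2) (h : a + b = 0) : a = b := by
  revert a b
  decide

private theorem Uex_hom {G : Type*} [Group G] [TopologicalSpace G] {h h' : G → ZMod 2}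
    (hh : Hom2 h) (hh' : Hom2 h') : Hom2 fun g => h g + h' g where
  loc := (hh.loc.prodMk hh'.loc).comp fun p : ZMod 2 × ZMod 2 => p.1 + p.2
  add a b := by
    rw [hh.add, hh'.add]
    ring

private theorem Uex_poly {F : Type} [Field F] (PP : Finset F[X]) (p : F[X]) :
    algebraMap F[X] (RatFunc F) p ∈ AS PP := ⟨0, p, by simp⟩

private theorem Uex_C {F : Type} [Field F] (PP : Finset F[X]) (c : F) :
    RatFunc.C c ∈ AS PP := by
  rw [← RatFunc.algebraMap_C]
  exact Uex_poly PP _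

private theorem Uex_inv {F : Type} [Field F] {PP : Finset F[X]} {P : F[X]} (hP : P ∈ PP)
    (h0 : P ≠ 0) : (algebraMap F[X] (RatFunc F) P)⁻¹ ∈ AS PP := by
  classical
  refine ⟨1, ∏ Q ∈ PP.erase P, Q, ?_⟩
  have h1 : algebraMap F[X] (RatFunc F) P ≠ 0 := by
    rw [Ne, map_eq_zero_iff _ (RatFunc.algebraMap_injective F)]
    exact h0
  rw [pow_one, ← Finset.mul_prod_erase PP (fun Q => Q) hP, map_mul, inv_mul_cancel_left₀ h1]

private theorem Uex_mem {F : Type} [Field F] {PP : Finset F[X]}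
    (hPP : ∀ P ∈ PP, P.Monic ∧ Irreducible P) (κ : F) (w : Option PP) (e : ℕ) (D : RatFunc F)
    (hD : D ∈ Dw κ w e) : D ∈ AS PP := by
  classical
  rcases w with _ | P
  · obtain ⟨c, rfl⟩ : D ∈ DI κ e := hD
    refine add_mem (sum_mem fun i _ => mul_mem (Uex_C PP _) (pow_mem ?_ _)) ?_
    · rw [← RatFunc.algebraMap_X]
      exact Uex_poly PP _
    · split_ifs
      · exact Uex_C PP κ
      · exact zero_mem _
  · obtain ⟨a, -, rfl⟩ : D ∈ DP P.1 e := hD
    refine sum_mem fun i _ => ?_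
    rw [div_eq_mul_inv, ← inv_pow]
    exact mul_mem (Uex_poly PP _) (pow_mem (Uex_inv P.2 (hPP P.1 P.2).2.ne_zero) _)

theorem tUex (hPfs : S_Pfs) (hHlo : S_Hlo) (hOff : S_Off) : S_Uex := by
  classical
  intro F _ _ _ κ hκ PP hPP A hA h hh c
  obtain ⟨hl1, hl2, hl3, -, hl5, hl6⟩ := hHlo F PP hPP
  obtain ⟨o1, o2, -⟩ := hOff F κ hκ PP hPP A hA
  -- evaluation as a homomorphism
  let ev : GS PP → AS PP →+ ZMod 2 := fun g =>
    AddMonoidHom.mk' (fun x => (famC κ A).h x g) (fun x y => hl2 x y g)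
  have hev : ∀ g x, ev g x = (famC κ A).h x g := fun g x => rfl
  have hr : ∀ w, Continuous (rOm (PP := PP) (A.emb w)) := fun w => (hl3 (A.av w) (A.emb w)).1
  have hloc : ∀ w (x : AS PP) g, (famC κ A).h x (rOm (PP := PP) (A.emb w) g) =
      hAS (A.av w).Completion (Kvs (A.av w))
        (algebraMap (RatFunc F) (A.av w).Completion (x : RatFunc F)) g :=
    fun w x g => (hl3 (A.av w) (A.emb w)).2.2 x g
  have hmap : ∀ w (g : A.W w), rOm (PP := PP) (A.emb w) g.1 ∈ (famC κ A).W w := fun w g =>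
    Subgroup.mem_map_of_mem _ g.2
  have hk : ∀ w, Hom2 fun g : A.W w => h w ⟨rOm (PP := PP) (A.emb w) g.1, hmap w g⟩ := by
    intro w
    constructor
    · refine (hh w).loc.comp_continuous (f := fun g : A.W w =>
        (⟨rOm (PP := PP) (A.emb w) g.1, hmap w g⟩ : (famC κ A).W w)) ?_
      exact Continuous.subtype_mk ((hr w).comp continuous_subtype_val) _
    · intro a b
      rw [← (hh w).add]
      congr 1
      apply Subtype.ext
      exact map_mul (rOm (PP := PP) (A.emb w)) a.1 b.1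
  choose e D hD hDk using fun w => hA.ex w _ (hk w)
  let x : Option PP → AS PP := fun w => ⟨D w, Uex_mem hPP κ w (e w) (D w) (hD w)⟩
  let K0 : AS PP := ⟨RatFunc.C κ, Uex_C PP κ⟩
  -- values of a combination
  have hval : ∀ (x : Option PP → AS PP) (c : ZMod 2) g,
      (famC κ A).h (∑ w, x w + (if c = 0 then 0 else K0)) g =
        ∑ w, (famC κ A).h (x w) g + c * (famC κ A).h K0 g := by
    intro x c g
    rw [← hev, map_add, map_sum]
    rcases Uex_z2 c with h0 | h0
    · rw [if_pos h0, h0, map_zero, zero_mul]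
      rfl
    · rw [h0, if_neg one_ne_zero, one_mul]
      rfl
  have hK0 := o2 K0 rfl
  -- restriction to `W w`
  have hres : ∀ (e : Option PP → ℕ) (x : Option PP → AS PP),
      (∀ w, (x w : RatFunc F) ∈ Dw κ w (e w)) → ∀ (c : ZMod 2) w, ∀ g ∈ (famC κ A).W w,
      ∑ w, (famC κ A).h (x w) g + c * (famC κ A).h K0 g = (famC κ A).h (x w) g := by
    intro e x hx c w g hg
    rw [hK0.1 w g hg, mul_zero, add_zero]
    refine Finset.sum_eq_single w (fun w' _ hw' => ?_) fun h => absurd (Finset.mem_univ w) h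
    exact ((o1 w' (e w') _ (hx w') (x w') rfl).1 w hw'.symm).1 g hg
  have hphi : ∀ (e : Option PP → ℕ) (x : Option PP → AS PP),
      (∀ w, (x w : RatFunc F) ∈ Dw κ w (e w)) → ∀ (c : ZMod 2),
      ∑ w, (famC κ A).h (x w) ((famC κ A).φ none) +
        c * (famC κ A).h K0 ((famC κ A).φ none) = c := by
    intro e x hx c
    rw [hK0.2, mul_one, Finset.sum_eq_zero, zero_add]
    intro w _
    exact (o1 w (e w) _ (hx w) (x w) rfl).2.2
  set X0 : AS PP := ∑ w, x w + (if c = 0 then 0 else K0) with hX0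
  have hXhom : Hom2 ((famC κ A).h X0) := hl1 X0
  have hXW : ∀ w (g : (famC κ A).W w), (famC κ A).h X0 g = h w g := by
    intro w g
    rw [hX0, hval, hres e x hD c w g g.2]
    obtain ⟨g', hg', hgg⟩ := Subgroup.mem_map.mp g.2
    have h1 := hDk w ⟨g', hg'⟩
    have h2 : (⟨rOm (PP := PP) (A.emb w) g', hmap w ⟨g', hg'⟩⟩ : (famC κ A).W w) = g :=
      Subtype.ext hgg
    simp only [h2] at h1
    rw [h1, ← hgg, hloc]
  have hXφ : (famC κ A).h X0 ((famC κ A).φ none) = c := by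
    rw [hX0, hval, hphi e x hD c]
  refine ⟨(famC κ A).h X0, ⟨hXhom, hXW, hXφ⟩, ?_⟩
  rintro H' ⟨hH', hH'W, hH'φ⟩
  obtain ⟨f, hf⟩ := hl5 _ (Uex_hom hH' hXhom)
  obtain ⟨e', D', hD', ε, y, hy, hfy⟩ := hPfs F κ hκ PP hPP f f.2
  let x' : Option PP → AS PP := fun w => ⟨D' w, Uex_mem hPP κ w (e' w) (D' w) (hD' w)⟩
  let Yy : AS PP := ⟨y ^ 2 + y, add_mem (pow_mem hy 2) hy⟩
  have hfx : f = (∑ w, x' w + (if ε = 0 then 0 else K0)) + Yy := by
    apply Subtype.ext
    rw [hfy]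
    have h1 : ((∑ w, x' w + (if ε = 0 then 0 else K0) + Yy : AS PP) : RatFunc F) =
        ∑ w, D' w + ((if ε = 0 then 0 else K0 : AS PP) : RatFunc F) + (y ^ 2 + y) := by
      push_cast
      rfl
    rw [h1]
    congr 2
    split_ifs <;> rfl
  have hYy : ∀ g, (famC κ A).h Yy g = 0 := (hl6 Yy).mpr ⟨y, rfl⟩
  have hdiff : ∀ g, H' g + (famC κ A).h X0 g =
      ∑ w, (famC κ A).h (x' w) g + ε * (famC κ A).h K0 g := by
    intro g
    have h1 : H' g + (famC κ A).h X0 g = (famC κ A).h f g := congrFun hf g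
    rw [h1, hfx, ← hev, map_add, hev, hev, hYy, add_zero, hval]
  have hx'0 : ∀ w, x' w = 0 := by
    intro w
    apply Subtype.ext
    refine hA.un w (e' w) (D' w) (hD' w) fun g hg => ?_
    have h1 := hdiff (rOm (PP := PP) (A.emb w) g)
    rw [hres e' x' hD' ε w _ (hmap w ⟨g, hg⟩), hH'W w ⟨_, hmap w ⟨g, hg⟩⟩,
      hXW w ⟨_, hmap w ⟨g, hg⟩⟩, Uex_add_self, hloc] at h1
    exact h1.symm
  have hε : ε = 0 := by
    have h1 := hdiff ((famC κ A).φ none)
    rw [hphi e' x' hD' ε, hH'φ, hXφ, Uex_add_self] at h1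
    exact h1.symm
  funext g
  apply Uex_eq
  rw [hdiff, hε, zero_mul, add_zero]
  refine Finset.sum_eq_zero fun w _ => ?_
  rw [hx'0 w, ← hev, map_zero]

end Pool.Agent.MP72W
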