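import Pool.Agent.Lib.MP_72e2e6_nt.W2.G.Spec

/-!
# MP_72e2e6_nt, theorem T3, part G: `S_AxF`, a function with one pole and prescribed values
-/

namespace Pool.Agent.MP72W

open Polynomial IntermediateField

namespace AxFAux

variable {B L : Type} [CommRing B] [Field L] [Algebra B L]

/-- The prime ideal of a nonarchimedean absolute value. -/
def idl (a : AbsoluteValue L ℝ) (hna : IsNonarchimedean a)
    (h1 : ∀ b : B, a (algebraMap B L b) ≤ 1) : Ideal B where
  carrier := {b | a (algebraMap B L b) < 1}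
  add_mem' := by
    intro x y hx hy
    show a (algebraMap B L (x + y)) < 1
    rw [map_add]
    exact (hna _ _).trans_lt (max_lt hx hy)
  zero_mem' := by
    show a (algebraMap B L 0) < 1
    simp
  smul_mem' := by
    intro c x hx
    show a (algebraMap B L (c * x)) < 1
    rw [map_mul, map_mul]
    have hx' : a (algebraMap B L x) < 1 := hx
    calc a (algebraMap B L c) * a (algebraMap B L x) ≤ 1 * a (algebraMap B L x) :=
          mul_le_mul_of_nonneg_right (h1 c) (a.nonneg _)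
      _ < 1 := by rw [one_mul]; exact hx'

theorem mem_idl {a : AbsoluteValue L ℝ} {hna : IsNonarchimedean a}
    {h1 : ∀ b : B, a (algebraMap B L b) ≤ 1} {b : B} :
    b ∈ idl a hna h1 ↔ a (algebraMap B L b) < 1 := Iff.rfl

theorem prime_idl (a : AbsoluteValue L ℝ) (hna : IsNonarchimedean a)
    (h1 : ∀ b : B, a (algebraMap B L b) ≤ 1) : (idl a hna h1).IsPrime := by
  refine Ideal.isPrime_iff.2 ⟨?_, ?_⟩
  · rw [Ne, Ideal.eq_top_iff_one, mem_idl]
    simp
  · intro x y hxy
    rw [mem_idl] at hxy ⊢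
    rw [mem_idl]
    by_contra hcon
    rw [not_or, not_lt, not_lt] at hcon
    have hx : a (algebraMap B L x) = 1 := le_antisymm (h1 x) hcon.1
    have hy : a (algebraMap B L y) = 1 := le_antisymm (h1 y) hcon.2
    rw [map_mul, map_mul, hx, hy] at hxy
    simp at hxy

end AxFAux

open AxFAux in
theorem tAxF : S_AxF := by
  classical
  intro B L _ _ _ _ _ J _ a hna h1 hQ hnz hdist I _ c j₁ hcl hinf t π hπ
  have : Fintype J := Fintype.ofFinite J
  have : Fintype I := Fintype.ofFinite I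
  let 𝔭 : J → Ideal B := fun j => idl (a j) (hna j) (h1 j)
  have hp : ∀ j, (𝔭 j).IsPrime := fun j => prime_idl _ _ _
  have hne : ∀ j, 𝔭 j ≠ ⊥ := by
    intro j hj
    obtain ⟨b, hb, hb1⟩ := hnz j
    have : b ∈ 𝔭 j := hb1
    rw [hj, Ideal.mem_bot] at this
    exact hb this
  have hmax : ∀ j, (𝔭 j).IsMaximal := fun j => (hp j).isMaximal (hne j)
  obtain ⟨n, hn, α, hα⟩ := hcl (𝔭 j₁) (hp j₁) (hne j₁)
  have hαn : α ∈ 𝔭 j₁ ^ n := by
    rw [hα]
    exact Ideal.mem_span_singleton_self α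
  have hα1 : α ∈ 𝔭 j₁ := Ideal.pow_le_self hn.ne' hαn
  have hα0 : α ≠ 0 := by
    intro h
    rw [h] at hα
    have : 𝔭 j₁ ^ n = ⊥ := by rw [hα]; simp
    exact hne j₁ (by
      by_contra hne'
      exact pow_ne_zero n hne' this)
  have hαj : ∀ j, j ≠ j₁ → α ∉ 𝔭 j := by
    intro j hj hmem
    have hle : 𝔭 j₁ ^ n ≤ 𝔭 j := by
      rw [hα, Ideal.span_singleton_le_iff_mem]
      exact hmem
    have hle' : 𝔭 j₁ ≤ 𝔭 j := (hp j).le_of_pow_le hle
    obtain ⟨b, hb1, hb2⟩ := hdist j₁ j (Ne.symm hj)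
    have : a j (algebraMap B L b) < 1 := hle' hb1
    rw [hb2] at this
    exact lt_irrefl _ this
  have hαa : ∀ j, j ≠ j₁ → a j (algebraMap B L α) = 1 := fun j hj =>
    le_antisymm (h1 j α) (not_lt.1 (hαj j hj))
  -- Chinese remainder theorem
  have hcop : Pairwise (Function.onFun IsCoprime 𝔭) := by
    intro i j hij
    refine Ideal.isCoprime_iff_sup_eq.2 ?_
    refine (hmax i).coprime_of_ne (hmax j) ?_
    intro heq
    obtain ⟨b, hb1, hb2⟩ := hdist i j hij
    have hb : b ∈ 𝔭 i := hb1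
    rw [heq] at hb
    have : a j (algebraMap B L b) < 1 := hb
    rw [hb2] at this
    exact lt_irrefl _ this
  obtain ⟨y, hy⟩ := Ideal.exists_forall_sub_mem_ideal hcop t
  choose Q hQ1 hQ2 using hQ
  have hm : ∀ i, ∃ m : ℕ, c i (algebraMap B L y) < c i (algebraMap B L α) ^ m := fun i =>
    pow_unbounded_of_one_lt _ (hinf α hα0 hα1 i)
  choose m hm using hm
  set N : ℕ := (∏ j, (Q j - 1)) * (∑ i, m i + 1) with hN
  have hQpos : 0 < ∏ j, (Q j - 1) := Finset.prod_pos fun j _ => by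
    have := hQ1 j
    omega
  have hmN : ∀ i, m i ≤ N := by
    intro i
    have h1 : m i ≤ ∑ i, m i := Finset.single_le_sum (fun _ _ => Nat.zero_le _)
      (Finset.mem_univ i)
    calc m i ≤ ∑ i, m i + 1 := by omega
      _ ≤ N := Nat.le_mul_of_pos_left _ hQpos
  have hpow : ∀ j, j ≠ j₁ → α ^ N - 1 ∈ 𝔭 j := by
    intro j hj
    have h2 : α * (α ^ (Q j - 1) - 1) ∈ 𝔭 j := by
      have h3 : α ^ Q j - α ∈ 𝔭 j := hQ2 j α
      have h4 : α ^ Q j = α * α ^ (Q j - 1) := by
        rw [← pow_succ']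
        congr 1
        have := hQ1 j
        omega
      rw [mul_sub, mul_one, ← h4]
      exact h3
    have h5 : α ^ (Q j - 1) - 1 ∈ 𝔭 j := ((hp j).mem_or_mem h2).resolve_left (hαj j hj)
    obtain ⟨k, hk⟩ : (Q j - 1) ∣ N := (Finset.dvd_prod_of_mem _ (Finset.mem_univ j)).mul_right _
    have h6 : α ^ (Q j - 1) - 1 ∣ α ^ N - 1 := by
      rw [hk, pow_mul]
      have := sub_dvd_pow_sub_pow (α ^ (Q j - 1)) 1 k
      rwa [one_pow] at this
    exact Ideal.mem_of_dvd _ h6 h5
  have hαL : algebraMap B L α ≠ 0 := by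
    rw [Ne, FaithfulSMul.algebraMap_eq_zero_iff]
    exact hα0
  obtain ⟨α', hα'⟩ : α ∣ π ^ n := by
    rw [← Ideal.mem_span_singleton, ← hα]
    exact Ideal.pow_mem_pow hπ n
  refine ⟨algebraMap B L y / algebraMap B L α ^ N, n * N, ⟨y * α' ^ N, ?_⟩, fun j hj => ?_,
    fun i => ?_⟩
  · have h7 : algebraMap B L π ^ (n * N) = algebraMap B L α ^ N * algebraMap B L α' ^ N := by
      rw [pow_mul, ← map_pow, hα', map_mul, mul_pow]
    rw [h7, map_mul, map_pow]
    field_simp
  · have h8 : algebraMap B L y / algebraMap B L α ^ N - algebraMap B L (t j) =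
        algebraMap B L ((y - t j) - t j * (α ^ N - 1)) / algebraMap B L α ^ N := by
      rw [eq_div_iff (pow_ne_zero _ hαL), sub_mul, div_mul_cancel₀ _ (pow_ne_zero _ hαL)]
      simp only [map_sub, map_mul, map_pow, map_one]
      ring
    rw [h8, map_div₀, map_pow, hαa j hj, one_pow, div_one]
    have h9 : (y - t j) - t j * (α ^ N - 1) ∈ 𝔭 j :=
      (𝔭 j).sub_mem (hy j) ((𝔭 j).mul_mem_left _ (hpow j hj))
    exact h9
  · have h10 := hinf α hα0 hα1 i
    rw [map_div₀, map_pow, div_lt_one (by positivity)]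
    exact (hm i).trans_le (pow_le_pow_right₀ h10.le (hmN i))

end Pool.Agent.MP72W
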